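import Pool.Agent.Lib_helper83.KC.Base

/-! Block NEW of the theorem on Kummer covers, by helper80. -/

open Complex Metric Filter Topology Polynomial

namespace LangKC

lemma new_coeff_shift (M : NNReal) (g : RS) :
    (AddMonoidAlgebra.single M (1 : ℂ) * g).coeff M = g.coeff 0 := by
  have := AddMonoidAlgebra.coeff_single_mul_eq_mul_coeff (x := g) (r := (1 : ℂ)) (m := M)
    (m₁ := M) 0 (fun m' _ => by simp)
  rw [this, one_mul]

lemma new_ev_single_pow (z : ℂ) (γ : NNReal) (n : ℕ) :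
    ev z (AddMonoidAlgebra.single ((n : NNReal) * γ) 1) =
      ev z (AddMonoidAlgebra.single γ 1) ^ n := by
  rw [ev_single, ev_single, one_mul, one_mul, ← Complex.exp_nat_mul]
  congr 1
  push_cast
  ring

/-- a monic polynomial which is not a power of `X` and has vanishing second coefficient has a
coprime factorisation -/
lemma new_factor (d : ℕ) (hd : 0 < d) (p : Polynomial ℂ) (hp : p.Monic) (hdeg : p.natDegree = d)
    (h1 : p.coeff (d - 1) = 0) (k : ℕ) (hk : k < d) (h2 : p.coeff k ≠ 0) :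
    ∃ A B : Polynomial ℂ, A.Monic ∧ B.Monic ∧ IsCoprime A B ∧ 0 < A.natDegree ∧
      0 < B.natDegree ∧ p = A * B := by
  obtain ⟨r, hr⟩ := Complex.exists_root (f := p) (by
    rw [Polynomial.degree_eq_natDegree hp.ne_zero, hdeg]
    exact_mod_cast hd)
  obtain ⟨q, hq, hndvd⟩ := p.exists_eq_pow_rootMultiplicity_mul_and_not_dvd hp.ne_zero r
  set n := p.rootMultiplicity r with hn
  have hn0 : 0 < n := (Polynomial.rootMultiplicity_pos hp.ne_zero).2 hr
  have hXm : (X - C r : Polynomial ℂ).Monic := Polynomial.monic_X_sub_C r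
  have hAm : ((X - C r) ^ n : Polynomial ℂ).Monic := hXm.pow n
  have hqm : q.Monic := by
    apply Polynomial.Monic.of_mul_monic_left hAm
    rw [← hq]
    exact hp
  have hAd : ((X - C r) ^ n : Polynomial ℂ).natDegree = n := by
    rw [hXm.natDegree_pow, Polynomial.natDegree_X_sub_C, mul_one]
  have hcop : IsCoprime ((X - C r) ^ n) q := by
    apply IsCoprime.pow_left
    exact (Irreducible.coprime_iff_not_dvd (Polynomial.irreducible_X_sub_C r)).2 hndvd
  refine ⟨(X - C r) ^ n, q, hAm, hqm, hcop, by rw [hAd]; exact hn0, ?_, hq⟩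
  by_contra hcon
  have hq0 : q.natDegree = 0 := by omega
  have hq1 : q = 1 := hqm.natDegree_eq_zero.1 hq0
  rw [hq1, mul_one] at hq
  have hnd : n = d := by
    rw [← hdeg, hq, hAd]
  rw [hnd] at hq
  rw [hq, sub_eq_add_neg, ← Polynomial.C_neg, Polynomial.coeff_X_add_C_pow] at h1
  have h3 : d - (d - 1) = 1 := by omega
  rw [h3, pow_one] at h1
  have h4 : ((d.choose (d - 1) : ℕ) : ℂ) ≠ 0 := by
    have : 0 < d.choose (d - 1) := Nat.choose_pos (by omega)
    exact_mod_cast this.ne'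
  have h5 : r = 0 := by
    rcases mul_eq_zero.1 h1 with h | h
    · exact neg_eq_zero.1 h
    · exact absurd h h4
  apply h2
  rw [hq, h5, Polynomial.C_0, sub_zero, Polynomial.coeff_X_pow, if_neg hk.ne]

/-- NEW -/
theorem newton (d : ℕ) (hd : 0 < d) (P : Polynomial RS) (hP : P.Monic) (hdeg : P.natDegree = d)
    (ht : P.coeff (d - 1) = 0) (κ : ℝ) :
    (∀ k < d, ∀ μ, (P.coeff k).coeff μ ≠ 0 → κ * (d - k) ≤ μ) ∨
    ∃ (γ : NNReal) (P' : Polynomial RS) (A B : Polynomial ℂ), (γ : ℝ) < κ ∧ P'.Monic ∧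
      P'.natDegree = d ∧ (∀ z w : ℂ, (P.map (ev z).toRingHom).eval (ev z (.single γ 1) * w) =
        ev z (.single γ 1) ^ d * (P'.map (ev z).toRingHom).eval w) ∧
      A.Monic ∧ B.Monic ∧ IsCoprime A B ∧ 0 < A.natDegree ∧ 0 < B.natDegree ∧
      P'.map (ct : RS →ₐ[ℂ] ℂ).toRingHom = A * B := by
  classical
  by_cases hall : ∀ k < d, ∀ μ, (P.coeff k).coeff μ ≠ 0 → κ * (d - k) ≤ μ
  · exact Or.inl hall
  right
  push Not at hall
  obtain ⟨k₀, hk₀, μ₀, hμ₀, hlt⟩ := hall
  -- the finite set of pairs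
  set T : Finset (Σ _ : ℕ, NNReal) := (Finset.range d).sigma fun k => (P.coeff k).coeff.support
    with hT
  have hmem : ∀ k μ, (⟨k, μ⟩ : Σ _ : ℕ, NNReal) ∈ T ↔ k < d ∧ (P.coeff k).coeff μ ≠ 0 := by
    intro k μ
    rw [hT, Finset.mem_sigma, Finset.mem_range, Finsupp.mem_support_iff]
  obtain ⟨⟨k₁, μ₁⟩, h₁, hmin⟩ := T.exists_min_image
    (fun x => x.2 / ((d - x.1 : ℕ) : NNReal)) ⟨⟨k₀, μ₀⟩, (hmem _ _).2 ⟨hk₀, hμ₀⟩⟩
  obtain ⟨hk₁, hμ₁⟩ := (hmem _ _).1 h₁
  set γ : NNReal := μ₁ / ((d - k₁ : ℕ) : NNReal) with hγ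
  have hdk : ∀ k < d, (0 : NNReal) < ((d - k : ℕ) : NNReal) := by
    intro k hk
    have : 0 < d - k := by omega
    exact_mod_cast this
  have hγmin : ∀ k < d, P.coeff k ∈ Jd (((d - k : ℕ) : NNReal) * γ) := by
    intro k hk μ hμ
    have h2 := hmin ⟨k, μ⟩ ((hmem _ _).2 ⟨hk, hμ⟩)
    simp only at h2
    rw [le_div_iff₀ (hdk k hk)] at h2
    rw [mul_comm]
    exact h2
  have hγκ : (γ : ℝ) < κ := by
    have h2 := hmin ⟨k₀, μ₀⟩ ((hmem _ _).2 ⟨hk₀, hμ₀⟩)
    simp only at h2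
    rw [le_div_iff₀ (hdk k₀ hk₀)] at h2
    have h3 : (γ : ℝ) * ((d - k₀ : ℕ) : ℝ) ≤ (μ₀ : ℝ) := by exact_mod_cast h2
    have h4 : ((d - k₀ : ℕ) : ℝ) = (d : ℝ) - k₀ := by
      rw [Nat.cast_sub hk₀.le]
    have h5 : (0 : ℝ) < (d : ℝ) - k₀ := by
      have : (k₀ : ℝ) < d := by exact_mod_cast hk₀
      linarith
    rw [h4] at h3
    have h6 : (γ : ℝ) * ((d : ℝ) - k₀) < κ * ((d : ℝ) - k₀) := lt_of_le_of_lt h3 hlt
    exact lt_of_mul_lt_mul_right h6 h5.le
  choose g₀ hg₀ using fun k => fun hk : k < d => exists_shift (hγmin k hk)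
  set g : ℕ → RS := fun k => if hk : k < d then (if P.coeff k = 0 then 0 else g₀ k hk) else 0
    with hg
  have hgk : ∀ k < d, P.coeff k = AddMonoidAlgebra.single (((d - k : ℕ) : NNReal) * γ) 1 * g k := by
    intro k hk
    rw [hg]
    simp only [hk, dif_pos]
    by_cases h0 : P.coeff k = 0
    · rw [if_pos h0, mul_zero, h0]
    · rw [if_neg h0]
      exact hg₀ k hk
  have hg1 : g (d - 1) = 0 := by
    rw [hg]
    have : d - 1 < d := by omega
    simp only [this, dif_pos]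
    rw [if_pos ht]
  set P' : Polynomial RS := X ^ d + ∑ k ∈ Finset.range d, C (g k) * X ^ k with hP'
  have hlow : (∑ k ∈ Finset.range d, C (g k) * X ^ k).degree < (d : WithBot ℕ) := by
    rw [Polynomial.degree_lt_iff_coeff_zero]
    intro m hm
    rw [Polynomial.finsetSum_coeff]
    refine Finset.sum_eq_zero fun k hk => ?_
    rw [Polynomial.coeff_C_mul, Polynomial.coeff_X_pow, if_neg, mul_zero]
    have := Finset.mem_range.1 hk
    omega
  have hP'm : P'.Monic := Polynomial.monic_X_pow_add hlow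
  have hP'd : P'.natDegree = d := by
    apply Polynomial.natDegree_eq_of_degree_eq_some
    rw [hP', Polynomial.degree_add_eq_left_of_degree_lt, Polynomial.degree_X_pow]
    rw [Polynomial.degree_X_pow]
    exact hlow
  have hP'c : ∀ k < d, P'.coeff k = g k := by
    intro k hk
    rw [hP', Polynomial.coeff_add, Polynomial.coeff_X_pow, if_neg hk.ne, zero_add,
      Polynomial.finsetSum_coeff]
    simp only [Polynomial.coeff_C_mul, Polynomial.coeff_X_pow, mul_ite, mul_one, mul_zero]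
    rw [Finset.sum_ite_eq, if_pos (Finset.mem_range.2 hk)]
  -- the reduction
  set p := P'.map (ct : RS →ₐ[ℂ] ℂ).toRingHom with hp
  have hpm : p.Monic := hP'm.map _
  have hpd : p.natDegree = d := by rw [hp, hP'm.natDegree_map, hP'd]
  have hpc : ∀ k < d, p.coeff k = (g k).coeff 0 := by
    intro k hk
    rw [hp, Polynomial.coeff_map, hP'c k hk]
    change ct (g k) = _
    rw [ct_apply]
  have hp1 : p.coeff (d - 1) = 0 := by
    rw [hpc _ (by omega), hg1]
    simp
  have hp2 : p.coeff k₁ ≠ 0 := by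
    rw [hpc _ hk₁]
    have h3 : ((d - k₁ : ℕ) : NNReal) * γ = μ₁ := by
      rw [hγ, mul_div_cancel₀]
      exact (hdk k₁ hk₁).ne'
    have h4 := hgk k₁ hk₁
    rw [h3] at h4
    rw [← new_coeff_shift μ₁ (g k₁), ← h4]
    exact hμ₁
  obtain ⟨A, B, hA, hB, hAB, hAd, hBd, hpAB⟩ := new_factor d hd p hpm hpd hp1 k₁ hk₁ hp2
  refine ⟨γ, P', A, B, hγκ, hP'm, hP'd, ?_, hA, hB, hAB, hAd, hBd, hpAB⟩
  intro z w
  have hPs : P = X ^ d + ∑ k ∈ Finset.range d, C (P.coeff k) * X ^ k := by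
    have := hP.as_sum
    rw [hdeg] at this
    exact this
  have hmap : ∀ f : RS, (ev z).toRingHom f = ev z f := fun f => rfl
  set s := ev z (AddMonoidAlgebra.single γ 1) with hs
  rw [hPs, hP']
  simp only [Polynomial.map_add, Polynomial.map_pow, Polynomial.map_X, Polynomial.map_sum,
    Polynomial.map_mul, Polynomial.map_C, Polynomial.eval_add, Polynomial.eval_pow,
    Polynomial.eval_X, Polynomial.eval_finsetSum, Polynomial.eval_mul, Polynomial.eval_C, hmap]
  rw [mul_add, mul_pow, Finset.mul_sum]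
  congr 1
  refine Finset.sum_congr rfl fun k hk => ?_
  have hk' := Finset.mem_range.1 hk
  rw [hgk k hk', map_mul, new_ev_single_pow, ← hs, mul_pow]
  have h5 : s ^ d = s ^ (d - k) * s ^ k := by
    rw [← pow_add]
    congr 1
    omega
  rw [h5]
  ring

end LangKC
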