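import Pool.Agent.Lib_helper83.KC.Base

/-! Block HEN of the theorem on Kummer covers, by helper80. -/

open Complex Metric Filter Topology Polynomial

namespace LangKC

/-- polynomials with coefficients in `Jd a` -/
noncomputable def henJ (a : NNReal) : Ideal (Polynomial RS) := (Jd a).map Polynomial.C

lemma hen_mem {a : NNReal} {p : Polynomial RS} : p ∈ henJ a ↔ ∀ k, p.coeff k ∈ Jd a :=
  Ideal.mem_map_C_iff

lemma hen_mono {a b : NNReal} (h : a ≤ b) : henJ b ≤ henJ a := by
  intro p hp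
  rw [hen_mem] at hp ⊢
  exact fun k => Jd_mono h (hp k)

lemma hen_mul {a b : NNReal} {p q : Polynomial RS} (hp : p ∈ henJ a) (hq : q ∈ henJ b) :
    p * q ∈ henJ (a + b) := by
  rw [hen_mem] at hp hq ⊢
  intro k
  rw [Polynomial.coeff_mul]
  exact Submodule.sum_mem _ fun x _ => Jd_mul (hp _) (hq _)

lemma hen_quot {a : NNReal} {p : Polynomial RS} :
    p ∈ henJ a ↔ p.map (Ideal.Quotient.mk (Jd a)) = 0 := by
  rw [hen_mem, Polynomial.ext_iff]
  refine forall_congr' fun k => ?_
  rw [Polynomial.coeff_map, Polynomial.coeff_zero, Ideal.Quotient.eq_zero_iff_mem]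

lemma hen_mod {a : NNReal} {p q : Polynomial RS} (hq : q.Monic) (hp : p ∈ henJ a) :
    p %ₘ q ∈ henJ a ∧ p /ₘ q ∈ henJ a := by
  rw [hen_quot] at hp
  constructor
  · rw [hen_quot, Polynomial.map_modByMonic _ hq, hp, Polynomial.zero_modByMonic]
  · rw [hen_quot, Polynomial.map_divByMonic _ hq, hp, Polynomial.zero_divByMonic]

lemma hen_ct {a : NNReal} (ha : 0 < a) {p : Polynomial RS} (hp : p ∈ henJ a) :
    p.map (ct : RS →ₐ[ℂ] ℂ).toRingHom = 0 := by
  rw [hen_mem] at hp
  rw [Polynomial.ext_iff]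
  intro k
  rw [Polynomial.coeff_map, Polynomial.coeff_zero]
  change ct (p.coeff k) = 0
  rw [ct_apply]
  by_contra h
  have := hp k 0 h
  exact absurd (lt_of_lt_of_le ha this) (lt_irrefl _)

lemma hen_lift_ct (A : Polynomial ℂ) :
    (A.map (algebraMap ℂ RS)).map (ct : RS →ₐ[ℂ] ℂ).toRingHom = A := by
  rw [Polynomial.ext_iff]
  intro k
  rw [Polynomial.coeff_map, Polynomial.coeff_map]
  change ct (algebraMap ℂ RS (A.coeff k)) = A.coeff k
  rw [AlgHom.commutes]
  simp

lemma hen_base (P : Polynomial RS) : ∃ δ : NNReal, 0 < δ ∧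
    P - (P.map (ct : RS →ₐ[ℂ] ℂ).toRingHom).map (algebraMap ℂ RS) ∈ henJ δ := by
  classical
  choose d hd hd' using fun k => sub_ct_mem (P.coeff k)
  obtain ⟨k₀, -, hk₀⟩ := (Finset.range (P.natDegree + 1)).exists_min_image d
    ⟨0, Finset.mem_range.2 (Nat.succ_pos _)⟩
  refine ⟨d k₀, hd k₀, ?_⟩
  rw [hen_mem]
  intro k
  rw [Polynomial.coeff_sub, Polynomial.coeff_map, Polynomial.coeff_map]
  by_cases hk : k ∈ Finset.range (P.natDegree + 1)
  · exact Jd_mono (hk₀ k hk) (hd' k)
  · have h0 : P.coeff k = 0 := by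
      apply Polynomial.coeff_eq_zero_of_natDegree_lt
      rw [Finset.mem_range, not_lt] at hk
      omega
    rw [h0]
    simp

lemma hen_step (P : Polynomial RS) (hP : P.Monic) (A B : Polynomial ℂ) (hA : A.Monic)
    (hB : B.Monic) (hAB : IsCoprime A B) (hdeg : P.natDegree = A.natDegree + B.natDegree)
    (δ : NNReal) (hbase : P - A.map (algebraMap ℂ RS) * B.map (algebraMap ℂ RS) ∈ henJ δ)
    (k : ℕ) : ∃ Q H : Polynomial RS, Q.Monic ∧ H.Monic ∧ Q.natDegree = A.natDegree ∧
      H.natDegree = B.natDegree ∧ Q - A.map (algebraMap ℂ RS) ∈ henJ δ ∧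
      H - B.map (algebraMap ℂ RS) ∈ henJ δ ∧ P - Q * H ∈ henJ ((k + 1 : ℕ) * δ) := by
  obtain ⟨U, V, hUV⟩ := hAB
  set A' := A.map (algebraMap ℂ RS) with hA'
  set B' := B.map (algebraMap ℂ RS) with hB'
  set U' := U.map (algebraMap ℂ RS) with hU'
  set V' := V.map (algebraMap ℂ RS) with hV'
  have hUV' : U' * A' + V' * B' = 1 := by
    rw [hU', hV', hA', hB', ← Polynomial.map_mul, ← Polynomial.map_mul, ← Polynomial.map_add, hUV,
      Polynomial.map_one]
  have hA'm : A'.Monic := hA.map _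
  have hB'm : B'.Monic := hB.map _
  have hA'd : A'.natDegree = A.natDegree := hA.natDegree_map _
  have hB'd : B'.natDegree = B.natDegree := hB.natDegree_map _
  induction k with
  | zero =>
    refine ⟨A', B', hA'm, hB'm, hA'd, hB'd, ?_, ?_, ?_⟩
    · rw [sub_self]; exact Ideal.zero_mem _
    · rw [sub_self]; exact Ideal.zero_mem _
    · simpa using hbase
  | succ k ih =>
    obtain ⟨Q, H, hQ, hH, hQd, hHd, hQA, hHB, hD⟩ := ih
    set D := P - Q * H with hDdef
    set a : NNReal := ((k + 1 : ℕ) : NNReal) * δ with ha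
    have hδa : δ ≤ a := by
      rw [ha]
      have : (1 : NNReal) ≤ ((k + 1 : ℕ) : NNReal) := by exact_mod_cast Nat.succ_pos k
      exact le_mul_of_one_le_left zero_le this
    set S₁ := (D * V') %ₘ A' with hS₁
    set G := (D * V') /ₘ A' with hG
    set S₂ := D * U' + G * B' with hS₂
    have hDV : D * V' ∈ henJ a := Ideal.mul_mem_right _ _ hD
    obtain ⟨hS₁m, hGm⟩ := hen_mod hA'm hDV
    rw [← hS₁] at hS₁m
    rw [← hG] at hGm
    have hS₂m : S₂ ∈ henJ a :=
      Ideal.add_mem _ (Ideal.mul_mem_right _ _ hD) (Ideal.mul_mem_right _ _ hGm)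
    have hdivmod : S₁ + A' * G = D * V' := Polynomial.modByMonic_add_div (D * V') A'
    have hrel : D = S₁ * B' + S₂ * A' := by
      have h1 : S₁ = D * V' - A' * G := by rw [← hdivmod]; ring
      rw [h1, hS₂]
      calc D = D * 1 := by ring
        _ = D * (U' * A' + V' * B') := by rw [hUV']
        _ = _ := by ring
    -- degrees
    have hPd : P.degree = (A.natDegree + B.natDegree : ℕ) := by
      rw [Polynomial.degree_eq_natDegree hP.ne_zero, hdeg]
    have hQHd : (Q * H).degree = (A.natDegree + B.natDegree : ℕ) := by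
      rw [Polynomial.degree_eq_natDegree (hQ.mul hH).ne_zero, hQ.natDegree_mul hH, hQd, hHd]
    have hDd : D.degree < (A.natDegree + B.natDegree : ℕ) := by
      rw [← hPd]
      apply Polynomial.degree_sub_lt_left
      · rw [hPd, hQHd]
      · exact hP.ne_zero
      · rw [hP.leadingCoeff, (hQ.mul hH).leadingCoeff]
    have hS₁d : S₁.degree < A.natDegree := by
      have h1 := Polynomial.degree_modByMonic_lt (D * V') hA'm
      rw [Polynomial.degree_eq_natDegree hA'm.ne_zero, hA'd] at h1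
      exact h1
    have hS₂d : S₂.degree < B.natDegree := by
      have h1 : (S₂ * A').degree < (A.natDegree + B.natDegree : ℕ) := by
        have h2 : S₂ * A' = D - S₁ * B' := by rw [hrel]; ring
        rw [h2]
        refine lt_of_le_of_lt (Polynomial.degree_sub_le _ _) (max_lt hDd ?_)
        rw [hB'm.degree_mul, Polynomial.degree_eq_natDegree hB'm.ne_zero, hB'd]
        rcases eq_or_ne S₁ 0 with h0 | h0
        · rw [h0, Polynomial.degree_zero, WithBot.bot_add]
          exact WithBot.bot_lt_coe _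
        · rw [Polynomial.degree_eq_natDegree h0] at hS₁d ⊢
          have h3 : S₁.natDegree < A.natDegree := by exact_mod_cast hS₁d
          exact_mod_cast (by omega : S₁.natDegree + B.natDegree < A.natDegree + B.natDegree)
      rw [hA'm.degree_mul, Polynomial.degree_eq_natDegree hA'm.ne_zero, hA'd] at h1
      rcases eq_or_ne S₂ 0 with h0 | h0
      · rw [h0, Polynomial.degree_zero]
        exact WithBot.bot_lt_coe _
      · rw [Polynomial.degree_eq_natDegree h0] at h1 ⊢
        have h3 : S₂.natDegree + A.natDegree < A.natDegree + B.natDegree := by exact_mod_cast h1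
        exact_mod_cast (by omega : S₂.natDegree < B.natDegree)
    have hQ' : Q.degree = A.natDegree := by rw [Polynomial.degree_eq_natDegree hQ.ne_zero, hQd]
    have hH' : H.degree = B.natDegree := by rw [Polynomial.degree_eq_natDegree hH.ne_zero, hHd]
    have hQm : (Q + S₁).Monic := hQ.add_of_left (by rw [hQ']; exact hS₁d)
    have hHm : (H + S₂).Monic := hH.add_of_left (by rw [hH']; exact hS₂d)
    refine ⟨Q + S₁, H + S₂, hQm, hHm, ?_, ?_, ?_, ?_, ?_⟩
    · have h1 : (Q + S₁).degree = Q.degree :=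
        Polynomial.degree_add_eq_left_of_degree_lt (by rw [hQ']; exact hS₁d)
      rw [← hQd]
      exact Polynomial.natDegree_eq_of_degree_eq h1
    · have h1 : (H + S₂).degree = H.degree :=
        Polynomial.degree_add_eq_left_of_degree_lt (by rw [hH']; exact hS₂d)
      rw [← hHd]
      exact Polynomial.natDegree_eq_of_degree_eq h1
    · have h1 : Q + S₁ - A' = (Q - A') + S₁ := by ring
      rw [h1]
      exact Ideal.add_mem _ hQA (hen_mono hδa hS₁m)
    · have h1 : H + S₂ - B' = (H - B') + S₂ := by ring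
      rw [h1]
      exact Ideal.add_mem _ hHB (hen_mono hδa hS₂m)
    · have h1 : P - (Q + S₁) * (H + S₂) =
          -(S₁ * (H - B')) - S₂ * (Q - A') - S₁ * S₂ := by
        have h2 : P = Q * H + D := by rw [hDdef]; ring
        rw [h2]
        nth_rewrite 1 [hrel]
        ring
      have hnext : ((k + 1 + 1 : ℕ) : NNReal) * δ = a + δ := by
        rw [ha]
        push_cast
        ring
      rw [h1, hnext]
      have h3 : S₁ * S₂ ∈ henJ (a + δ) :=
        hen_mono (add_le_add_right hδa a) (hen_mul hS₁m hS₂m)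
      exact Ideal.sub_mem _ (Ideal.sub_mem _ (Submodule.neg_mem _ (hen_mul hS₁m hHB))
        (hen_mul hS₂m hQA)) h3

/-- HEN -/
theorem hensel (P : Polynomial RS) (hP : P.Monic) (A B : Polynomial ℂ) (hA : A.Monic)
    (hB : B.Monic) (hAB : IsCoprime A B)
    (hred : P.map (ct : RS →ₐ[ℂ] ℂ).toRingHom = A * B) (M : NNReal) :
    ∃ Q H : Polynomial RS, Q.Monic ∧ H.Monic ∧ Q.map (ct : RS →ₐ[ℂ] ℂ).toRingHom = A ∧
      H.map (ct : RS →ₐ[ℂ] ℂ).toRingHom = B ∧ ∀ k, (P - Q * H).coeff k ∈ Jd M := by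
  obtain ⟨δ, hδ, hbase⟩ := hen_base P
  rw [hred, Polynomial.map_mul] at hbase
  have hdeg : P.natDegree = A.natDegree + B.natDegree := by
    rw [← hA.natDegree_mul hB, ← hred, hP.natDegree_map]
  obtain ⟨k, hk⟩ := exists_nat_ge (M / δ)
  obtain ⟨Q, H, hQ, hH, hQd, hHd, hQA, hHB, hD⟩ := hen_step P hP A B hA hB hAB hdeg δ hbase k
  refine ⟨Q, H, hQ, hH, ?_, ?_, ?_⟩
  · have h1 := hen_ct hδ hQA
    rw [Polynomial.map_sub, hen_lift_ct, sub_eq_zero] at h1
    exact h1
  · have h1 := hen_ct hδ hHB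
    rw [Polynomial.map_sub, hen_lift_ct, sub_eq_zero] at h1
    exact h1
  · refine hen_mem.1 (hen_mono ?_ hD)
    rw [div_le_iff₀ hδ] at hk
    refine hk.trans (mul_le_mul_of_nonneg_right ?_ zero_le)
    exact_mod_cast Nat.le_succ k

end LangKC
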