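import Pool.Agent.Lib_helper83.KC.Base
import Pool.Agent.Lib_helper83.KCA.HEN

/-! Block SEP of the theorem on Kummer covers, by helper10. -/

open Complex Metric Filter Topology

namespace LangKC

/-- polynomials with coefficients of high frequency are small on bounded sets -/
lemma sep_bound {M : NNReal} (Q : Polynomial RS) (hQ : ∀ k, Q.coeff k ∈ Jd M) (r : ℝ)
    (hr : 0 ≤ r) : ∃ C : ℝ, 0 ≤ C ∧ ∀ z : ℂ, 0 ≤ z.im → ∀ w : ℂ, ‖w‖ ≤ r →
      ‖(Q.map (ev z).toRingHom).eval w‖ ≤ C * Real.exp (-(M : ℝ) * z.im) := by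
  choose Cf hCf using fun k => ev_bound (hQ k)
  refine ⟨∑ k ∈ Finset.range (Q.natDegree + 1), Cf k * r ^ k,
    Finset.sum_nonneg fun k _ => mul_nonneg (hCf k).1 (pow_nonneg hr k), ?_⟩
  intro z hz w hw
  rw [Polynomial.eval_map, Polynomial.eval₂_eq_sum_range, Finset.sum_mul]
  refine (norm_sum_le _ _).trans (Finset.sum_le_sum fun k _ => ?_)
  rw [norm_mul, norm_pow]
  have h1 : ‖(ev z).toRingHom (Q.coeff k)‖ ≤ Cf k * Real.exp (-(M : ℝ) * z.im) := (hCf k).2 z hz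
  have h2 : ‖w‖ ^ k ≤ r ^ k := pow_le_pow_left₀ (norm_nonneg _) hw k
  calc ‖(ev z).toRingHom (Q.coeff k)‖ * ‖w‖ ^ k
      ≤ (Cf k * Real.exp (-(M : ℝ) * z.im)) * r ^ k := by
        apply mul_le_mul h1 h2 (by positivity)
        exact mul_nonneg (hCf k).1 (Real.exp_pos _).le
    _ = Cf k * r ^ k * Real.exp (-(M : ℝ) * z.im) := by ring

/-- the difference of a polynomial and its constant term -/
lemma sep_ct (Q : Polynomial RS) : ∃ δ : NNReal, 0 < δ ∧
    ∀ k, (Q - (Q.map (ct : RS →ₐ[ℂ] ℂ).toRingHom).map (algebraMap ℂ RS)).coeff k ∈ Jd δ := by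
  classical
  choose δ hδ using fun k => sub_ct_mem (Q.coeff k)
  have hne : (Finset.range (Q.natDegree + 1)).Nonempty := ⟨0, by simp⟩
  refine ⟨(Finset.range (Q.natDegree + 1)).inf' hne δ, ?_, ?_⟩
  · rw [Finset.lt_inf'_iff]
    exact fun k _ => (hδ k).1
  · intro k
    rw [Polynomial.coeff_sub, Polynomial.coeff_map, Polynomial.coeff_map]
    by_cases hk : k ∈ Finset.range (Q.natDegree + 1)
    · exact Jd_mono (Finset.inf'_le _ hk) (hδ k).2
    · have h0 : Q.coeff k = 0 := by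
        apply Polynomial.coeff_eq_zero_of_natDegree_lt
        simp only [Finset.mem_range] at hk
        omega
      rw [h0]
      simp

lemma sep_map_map (A : Polynomial ℂ) (z : ℂ) :
    (A.map (algebraMap ℂ RS)).map (ev z).toRingHom = A := by
  rw [Polynomial.map_map]
  have : (ev z).toRingHom.comp (algebraMap ℂ RS) = RingHom.id ℂ := by
    ext x
    exact (ev z).commutes x
  rw [this, Polynomial.map_id]

/-- closeness to the reduction -/
lemma sep_close (Q : Polynomial RS) (A : Polynomial ℂ)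
    (hA : Q.map (ct : RS →ₐ[ℂ] ℂ).toRingHom = A) (r : ℝ) (hr : 0 ≤ r) :
    ∃ (C δ : ℝ), 0 ≤ C ∧ 0 < δ ∧ ∀ z : ℂ, 0 ≤ z.im → ∀ w : ℂ, ‖w‖ ≤ r →
      ‖(Q.map (ev z).toRingHom).eval w - A.eval w‖ ≤ C * Real.exp (-δ * z.im) := by
  obtain ⟨δ, hδ, h1⟩ := sep_ct Q
  obtain ⟨C, hC, h2⟩ := sep_bound _ h1 r hr
  refine ⟨C, δ, hC, by exact_mod_cast hδ, ?_⟩
  intro z hz w hw
  have h3 := h2 z hz w hw
  rwa [hA, Polynomial.map_sub, sep_map_map, Polynomial.eval_sub] at h3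

/-- elementary root bound -/
lemma sep_cauchy (d : ℕ) (hd : 0 < d) (u D : ℝ) (c : ℕ → ℝ) (hD : 0 ≤ D)
    (hc : ∀ k, 0 ≤ c k) (h : u ^ d ≤ D + ∑ k ∈ Finset.range d, c k * u ^ k) :
    u ≤ 1 + D + ∑ k ∈ Finset.range d, c k := by
  have hs : 0 ≤ ∑ k ∈ Finset.range d, c k := Finset.sum_nonneg fun k _ => hc k
  by_contra hcon
  push Not at hcon
  have hu1 : 1 ≤ u := by linarith
  have h1 : D + ∑ k ∈ Finset.range d, c k * u ^ k ≤
      (D + ∑ k ∈ Finset.range d, c k) * u ^ (d - 1) := by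
    rw [add_mul, Finset.sum_mul]
    apply add_le_add
    · exact le_mul_of_one_le_right hD (one_le_pow₀ hu1)
    · apply Finset.sum_le_sum
      intro k hk
      apply mul_le_mul_of_nonneg_left _ (hc k)
      apply pow_le_pow_right₀ hu1
      have := Finset.mem_range.1 hk
      omega
  have h2 : u ^ d = u * u ^ (d - 1) := by
    rw [← pow_succ']
    congr 1
    omega
  have h3 : (D + ∑ k ∈ Finset.range d, c k) * u ^ (d - 1) < u * u ^ (d - 1) := by
    apply mul_lt_mul_of_pos_right _ (by positivity)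
    linarith
  linarith

/-- roots of monic polynomials are bounded in the upper half plane -/
lemma sep_root (P : Polynomial RS) (hP : P.Monic) (hd : 0 < P.natDegree) (D : ℝ) :
    ∃ r : ℝ, 0 ≤ r ∧ ∀ z : ℂ, 0 ≤ z.im → ∀ w : ℂ,
      ‖(P.map (ev z).toRingHom).eval w‖ ≤ D → ‖w‖ ≤ r := by
  have h0 : ∀ k, P.coeff k ∈ Jd 0 := fun k => by rw [Jd_zero]; trivial
  choose Cf hCf using fun k => ev_bound (h0 k)
  refine ⟨1 + |D| + ∑ k ∈ Finset.range P.natDegree, Cf k, ?_, ?_⟩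
  · have : 0 ≤ ∑ k ∈ Finset.range P.natDegree, Cf k := Finset.sum_nonneg fun k _ => (hCf k).1
    positivity
  intro z hz w hw
  apply sep_cauchy P.natDegree hd ‖w‖ |D| Cf (abs_nonneg _) (fun k => (hCf k).1)
  rw [Polynomial.eval_map, Polynomial.eval₂_eq_sum_range, Finset.sum_range_succ,
    hP.coeff_natDegree] at hw
  simp only [map_one, one_mul] at hw
  have h1 : ‖∑ k ∈ Finset.range P.natDegree, (ev z).toRingHom (P.coeff k) * w ^ k‖ ≤
      ∑ k ∈ Finset.range P.natDegree, Cf k * ‖w‖ ^ k := by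
    refine (norm_sum_le _ _).trans (Finset.sum_le_sum fun k _ => ?_)
    rw [norm_mul, norm_pow]
    apply mul_le_mul_of_nonneg_right _ (by positivity)
    have := (hCf k).2 z hz
    simpa using this
  have h2 : ‖w ^ P.natDegree‖ ≤ ‖(∑ k ∈ Finset.range P.natDegree,
      (ev z).toRingHom (P.coeff k) * w ^ k) + w ^ P.natDegree‖ +
      ‖∑ k ∈ Finset.range P.natDegree, (ev z).toRingHom (P.coeff k) * w ^ k‖ := by
    have := norm_sub_le ((∑ k ∈ Finset.range P.natDegree,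
      (ev z).toRingHom (P.coeff k) * w ^ k) + w ^ P.natDegree)
      (∑ k ∈ Finset.range P.natDegree, (ev z).toRingHom (P.coeff k) * w ^ k)
    simpa using this
  rw [norm_pow] at h2
  have h3 := le_abs_self D
  linarith

/-- a polynomial is bounded on bounded sets -/
lemma sep_poly_bound (A : Polynomial ℂ) (r : ℝ) (hr : 0 ≤ r) :
    ∃ C : ℝ, 0 ≤ C ∧ ∀ w : ℂ, ‖w‖ ≤ r → ‖A.eval w‖ ≤ C := by
  refine ⟨∑ k ∈ Finset.range (A.natDegree + 1), ‖A.coeff k‖ * r ^ k,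
    Finset.sum_nonneg fun k _ => by positivity, ?_⟩
  intro w hw
  rw [Polynomial.eval_eq_sum_range]
  refine (norm_sum_le _ _).trans (Finset.sum_le_sum fun k _ => ?_)
  rw [norm_mul, norm_pow]
  exact mul_le_mul_of_nonneg_left (pow_le_pow_left₀ (norm_nonneg _) hw k) (norm_nonneg _)

lemma sep_tendsto (C K : ℝ) (hK : 0 < K) (ε : ℝ) (hε : 0 < ε) :
    ∃ y₁ : ℝ, ∀ y : ℝ, y₁ ≤ y → C * Real.exp (-K * y) < ε := by
  have h1 : Tendsto (fun y : ℝ => C * Real.exp (-K * y)) atTop (𝓝 (C * 0)) := by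
    apply Tendsto.const_mul
    apply Real.tendsto_exp_atBot.comp
    exact tendsto_id.const_mul_atTop_of_neg (by linarith)
  rw [mul_zero] at h1
  have h2 := h1.eventually (gt_mem_nhds hε)
  obtain ⟨y₁, h3⟩ := eventually_atTop.1 h2
  exact ⟨y₁, h3⟩

/-- the separation step, one of the two factors being bounded below -/
lemma sep_step (P Q H : Polynomial RS) (B : Polynomial ℂ)
    (hH : H.map (ct : RS →ₐ[ℂ] ℂ).toRingHom = B) (M : NNReal)
    (hM : ∀ k, (P - Q * H).coeff k ∈ Jd M) (K : ℝ) (hKM : K ≤ M) (Y : ℂ → ℂ) (C r c y : ℝ)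
    (hr : 0 ≤ r) (hc : 0 < c) (hy : 0 ≤ y) (hYr : ∀ z : ℂ, y ≤ z.im → ‖Y z‖ ≤ r)
    (hrel : ∀ z : ℂ, y ≤ z.im →
      ‖(P.map (ev z).toRingHom).eval (Y z)‖ ≤ C * Real.exp (-K * z.im))
    (hB : ∀ z : ℂ, y ≤ z.im → c ≤ ‖B.eval (Y z)‖) :
    ∃ C' y₁ : ℝ, y ≤ y₁ ∧ ∀ z : ℂ, y₁ ≤ z.im →
      ‖(Q.map (ev z).toRingHom).eval (Y z)‖ ≤ C' * Real.exp (-K * z.im) := by
  obtain ⟨C1, δ, hC1, hδ, h1⟩ := sep_close H B hH r hr
  obtain ⟨C2, hC2, h2⟩ := sep_bound _ hM r hr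
  obtain ⟨y2, h3⟩ := sep_tendsto C1 δ hδ (c / 2) (by positivity)
  refine ⟨(C + C2) / (c / 2), max y y2, le_max_left _ _, ?_⟩
  intro z hz
  have hz1 : y ≤ z.im := (le_max_left _ _).trans hz
  have hz0 : 0 ≤ z.im := hy.trans hz1
  have e1 := h1 z hz0 (Y z) (hYr z hz1)
  have e2 := h2 z hz0 (Y z) (hYr z hz1)
  have e3 := h3 z.im ((le_max_right _ _).trans hz)
  have e4 := hB z hz1
  have e5 := hrel z hz1
  rw [Polynomial.map_sub, Polynomial.map_mul, Polynomial.eval_sub, Polynomial.eval_mul] at e2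
  set p := (P.map (ev z).toRingHom).eval (Y z)
  set q := (Q.map (ev z).toRingHom).eval (Y z)
  set h := (H.map (ev z).toRingHom).eval (Y z)
  set b := B.eval (Y z)
  have e6 : c / 2 ≤ ‖h‖ := by
    have : ‖b‖ ≤ ‖h‖ + ‖h - b‖ := by
      have := norm_sub_le h (h - b)
      simpa using this
    linarith
  have e7 : ‖q * h‖ ≤ ‖p‖ + ‖p - q * h‖ := by
    have := norm_sub_le p (p - q * h)
    simpa using this
  have e8 : Real.exp (-(M : ℝ) * z.im) ≤ Real.exp (-K * z.im) := by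
    apply Real.exp_le_exp.2
    nlinarith
  have e9 : ‖q * h‖ ≤ (C + C2) * Real.exp (-K * z.im) := by
    nlinarith
  rw [norm_mul] at e9
  have e10 : ‖q‖ * (c / 2) ≤ (C + C2) * Real.exp (-K * z.im) :=
    (mul_le_mul_of_nonneg_left e6 (norm_nonneg _)).trans e9
  rw [div_mul_eq_mul_div, le_div_iff₀ (by positivity)]
  exact e10

/-- half planes are preconnected -/
lemma sep_connected (y : ℝ) : IsPreconnected {z : ℂ | y ≤ z.im} :=
  (convex_halfSpace_im_ge y).isPreconnected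

theorem separate (P : Polynomial RS) (hP : P.Monic) (A B : Polynomial ℂ) (hA : A.Monic)
    (hB : B.Monic) (hAB : IsCoprime A B) (hred : P.map (ct : RS →ₐ[ℂ] ℂ).toRingHom = A * B)
    (K : ℝ) (hK : 0 < K) (Y : ℂ → ℂ) (y₀ C : ℝ) (hY : ContinuousOn Y {z | y₀ ≤ z.im})
    (hrel : ∀ z : ℂ, y₀ ≤ z.im →
      ‖(P.map (ev z).toRingHom).eval (Y z)‖ ≤ C * Real.exp (-K * z.im)) :
    ∃ (Q : Polynomial RS) (C' y₁ : ℝ), y₀ ≤ y₁ ∧ Q.Monic ∧
      (Q.natDegree = A.natDegree ∨ Q.natDegree = B.natDegree) ∧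
      ∀ z : ℂ, y₁ ≤ z.im → ‖(Q.map (ev z).toRingHom).eval (Y z)‖ ≤ C' * Real.exp (-K * z.im) := by
  have hdeg : P.natDegree = A.natDegree + B.natDegree := by
    rw [← hA.natDegree_mul hB, ← hred, hP.natDegree_map]
  rcases Nat.eq_zero_or_pos P.natDegree with hd | hd
  · exact ⟨P, C, y₀, le_rfl, hP, Or.inl (by omega), hrel⟩
  obtain ⟨Q, H, hQ, hH, hQA, hHB, hM⟩ := hensel P hP A B hA hB hAB hred ⟨K, hK.le⟩
  have hQd : Q.natDegree = A.natDegree := by rw [← hQA, hQ.natDegree_map]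
  have hHd : H.natDegree = B.natDegree := by rw [← hHB, hH.natDegree_map]
  -- boundedness of `Y`
  obtain ⟨r, hr, hroot⟩ := sep_root P hP hd |C|
  set y1 : ℝ := max y₀ 0 with hy1
  have hYr : ∀ z : ℂ, y1 ≤ z.im → ‖Y z‖ ≤ r := by
    intro z hz
    have hz0 : 0 ≤ z.im := (le_max_right _ _).trans hz
    apply hroot z hz0
    refine (hrel z ((le_max_left _ _).trans hz)).trans ?_
    have h1 : Real.exp (-K * z.im) ≤ 1 := by
      rw [Real.exp_le_one_iff]
      nlinarith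
    calc C * Real.exp (-K * z.im) ≤ |C| * Real.exp (-K * z.im) :=
          mul_le_mul_of_nonneg_right (le_abs_self C) (Real.exp_pos _).le
      _ ≤ |C| * 1 := mul_le_mul_of_nonneg_left h1 (abs_nonneg _)
      _ = |C| := mul_one _
  obtain ⟨C1, δ, hC1, hδ, hclose⟩ := sep_close P (A * B) hred r hr
  obtain ⟨U, V, hUV⟩ := hAB
  obtain ⟨CU, hCU, hU⟩ := sep_poly_bound U r hr
  obtain ⟨CV, hCV, hV⟩ := sep_poly_bound V r hr
  set c : ℝ := 1 / (CU + CV + 1) with hc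
  have hcpos : 0 < c := by positivity
  have hmax : ∀ w : ℂ, ‖w‖ ≤ r → c ≤ ‖A.eval w‖ ∨ c ≤ ‖B.eval w‖ := by
    intro w hw
    by_contra hcon
    push Not at hcon
    have h1 : U.eval w * A.eval w + V.eval w * B.eval w = 1 := by
      have := congrArg (Polynomial.eval w) hUV
      simpa using this
    have h2 : (1 : ℝ) ≤ ‖U.eval w‖ * ‖A.eval w‖ + ‖V.eval w‖ * ‖B.eval w‖ := by
      have := norm_add_le (U.eval w * A.eval w) (V.eval w * B.eval w)
      rw [h1, norm_mul, norm_mul] at this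
      simpa using this
    have h3 : ‖U.eval w‖ * ‖A.eval w‖ ≤ CU * c :=
      mul_le_mul (hU w hw) hcon.1.le (norm_nonneg _) hCU
    have h4 : ‖V.eval w‖ * ‖B.eval w‖ ≤ CV * c :=
      mul_le_mul (hV w hw) hcon.2.le (norm_nonneg _) hCV
    have h5 : (CU + CV + 1) * c = 1 := by
      rw [hc]
      field_simp
    nlinarith
  obtain ⟨y2, h2⟩ := sep_tendsto C K hK (c ^ 2 / 2) (by positivity)
  obtain ⟨y3, h3⟩ := sep_tendsto C1 δ hδ (c ^ 2 / 2) (by positivity)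
  set y4 : ℝ := max y1 (max y2 y3) with hy4
  have hy41 : y1 ≤ y4 := le_max_left _ _
  have hy01 : y₀ ≤ y1 := le_max_left _ _
  have hy10 : 0 ≤ y1 := le_max_right _ _
  have hprod : ∀ z : ℂ, y4 ≤ z.im → ‖A.eval (Y z)‖ * ‖B.eval (Y z)‖ < c ^ 2 := by
    intro z hz
    have hz1 : y1 ≤ z.im := hy41.trans hz
    have e1 := hclose z (hy10.trans hz1) (Y z) (hYr z hz1)
    have e2 := h2 z.im (((le_max_left _ _).trans (le_max_right _ _)).trans hz)
    have e3 := h3 z.im (((le_max_right _ _).trans (le_max_right _ _)).trans hz)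
    have e4 := hrel z (hy01.trans hz1)
    rw [Polynomial.eval_mul] at e1
    rw [← norm_mul]
    have e5 : ‖A.eval (Y z) * B.eval (Y z)‖ ≤ ‖(P.map (ev z).toRingHom).eval (Y z)‖ +
        ‖(P.map (ev z).toRingHom).eval (Y z) - A.eval (Y z) * B.eval (Y z)‖ := by
      have := norm_sub_le ((P.map (ev z).toRingHom).eval (Y z))
        ((P.map (ev z).toRingHom).eval (Y z) - A.eval (Y z) * B.eval (Y z))
      simpa using this
    linarith
  -- connectedness
  have hYc : ContinuousOn Y {z | y4 ≤ z.im} :=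
    hY.mono fun z (hz : y4 ≤ z.im) => (hy01.trans hy41).trans hz
  have hcontA : ContinuousOn (fun z => ‖A.eval (Y z)‖) {z : ℂ | y4 ≤ z.im} :=
    (A.continuous.comp_continuousOn hYc).norm
  have hcontB : ContinuousOn (fun z => ‖B.eval (Y z)‖) {z : ℂ | y4 ≤ z.im} :=
    (B.continuous.comp_continuousOn hYc).norm
  have hdich : (∀ z : ℂ, y4 ≤ z.im → c ≤ ‖A.eval (Y z)‖) ∨
      (∀ z : ℂ, y4 ≤ z.im → c ≤ ‖B.eval (Y z)‖) := by
    by_contra hcon
    push Not at hcon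
    obtain ⟨⟨z1, hz1, ha1⟩, z2, hz2, hb2⟩ := hcon
    -- at `z1`: `‖A‖ < c`, so `c ≤ ‖B‖`; at `z2`: `‖B‖ < c`, so `c ≤ ‖A‖`
    have hb1 : c ≤ ‖B.eval (Y z1)‖ := (hmax _ (hYr z1 (hy41.trans hz1))).resolve_left (not_le.2 ha1)
    have ha2 : c ≤ ‖A.eval (Y z2)‖ :=
      (hmax _ (hYr z2 (hy41.trans hz2))).resolve_right (not_le.2 hb2)
    have hg : ContinuousOn (fun z => ‖A.eval (Y z)‖ - ‖B.eval (Y z)‖) {z : ℂ | y4 ≤ z.im} :=
      hcontA.sub hcontB
    have := (sep_connected y4).intermediate_value (s := {z : ℂ | y4 ≤ z.im}) (a := z1) (b := z2)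
      hz1 hz2 hg
    have h0 : (0 : ℝ) ∈ (fun z => ‖A.eval (Y z)‖ - ‖B.eval (Y z)‖) '' {z : ℂ | y4 ≤ z.im} :=
      this ⟨by linarith, by linarith⟩
    obtain ⟨z, hz, hzz⟩ := h0
    simp only at hzz
    have hzz' : ‖A.eval (Y z)‖ = ‖B.eval (Y z)‖ := by linarith
    have e1 := hprod z hz
    rcases hmax _ (hYr z (hy41.trans hz)) with e2 | e2
    · rw [← hzz'] at e1
      nlinarith
    · rw [hzz'] at e1
      nlinarith
  rcases hdich with hcase | hcase
  · -- `A` is bounded below: use `H`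
    have hM' : ∀ k, (P - H * Q).coeff k ∈ Jd ⟨K, hK.le⟩ := by
      rw [mul_comm H Q]
      exact hM
    obtain ⟨C', y5, hy5, h5⟩ := sep_step P H Q A hQA ⟨K, hK.le⟩ hM' K le_rfl Y C r c y4 hr hcpos
      (hy10.trans hy41) (fun z hz => hYr z (hy41.trans hz))
      (fun z hz => hrel z ((hy01.trans hy41).trans hz)) hcase
    exact ⟨H, C', y5, (hy01.trans hy41).trans hy5, hH, Or.inr hHd, h5⟩
  · obtain ⟨C', y5, hy5, h5⟩ := sep_step P Q H B hHB ⟨K, hK.le⟩ hM K le_rfl Y C r c y4 hr hcpos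
      (hy10.trans hy41) (fun z hz => hYr z (hy41.trans hz))
      (fun z hz => hrel z ((hy01.trans hy41).trans hz)) hcase
    exact ⟨Q, C', y5, (hy01.trans hy41).trans hy5, hQ, Or.inl hQd, h5⟩

end LangKC
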