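import Pool.Agent.Lib_helper83.KC.Base
import Pool.Agent.Lib_helper83.KCA.NEW
import Pool.Agent.Lib_helper83.KCA.SEP

/-! Block APX of the theorem on Kummer covers, by helper10. -/

open Complex Metric Filter Topology

namespace LangKC

/-- Tschirnhausen transformation: the coefficient of degree `d - 1` vanishes -/
lemma apx_coeff (P : Polynomial RS) (hP : P.Monic) (hd : 0 < P.natDegree) :
    (P.comp (Polynomial.X - Polynomial.C ((P.natDegree : ℂ)⁻¹ • P.coeff (P.natDegree - 1)))).coeff
      (P.natDegree - 1) = 0 := by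
  set a := (P.natDegree : ℂ)⁻¹ • P.coeff (P.natDegree - 1) with ha
  have h1 : P.comp (Polynomial.X - Polynomial.C a) = Polynomial.taylor (-a) P := by
    rw [Polynomial.taylor_apply, map_neg, sub_eq_add_neg]
  rw [h1, Polynomial.taylor_coeff]
  have h2 : (Polynomial.hasseDeriv (P.natDegree - 1) P).natDegree ≤ 1 := by
    refine (Polynomial.natDegree_hasseDeriv_le P (P.natDegree - 1)).trans ?_
    omega
  rw [Polynomial.eval_eq_sum_range' (n := 2) (by omega)]
  rw [Finset.sum_range_succ, Finset.sum_range_succ, Finset.sum_range_zero]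
  rw [Polynomial.hasseDeriv_coeff, Polynomial.hasseDeriv_coeff]
  have h3 : 1 + (P.natDegree - 1) = P.natDegree := by omega
  have h4 : P.natDegree.choose (P.natDegree - 1) = P.natDegree := by
    have := Nat.choose_symm (n := P.natDegree) (k := 1) (by omega)
    rw [this, Nat.choose_one_right]
  rw [h3, h4, hP.coeff_natDegree]
  simp only [zero_add, Nat.choose_self, Nat.cast_one, one_mul, pow_zero, mul_one, pow_one]
  rw [ha]
  have h5 : (P.natDegree : RS) = algebraMap ℂ RS (P.natDegree : ℂ) := by simp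
  rw [h5, ← Algebra.smul_def, smul_neg, smul_smul, mul_inv_cancel₀ (by
    exact_mod_cast hd.ne'), one_smul, add_neg_cancel]

lemma apx_eval (P : Polynomial RS) (a : RS) (z w : ℂ) :
    ((P.comp (Polynomial.X - Polynomial.C a)).map (ev z).toRingHom).eval w =
      (P.map (ev z).toRingHom).eval (w - ev z a) := by
  rw [Polynomial.map_comp, Polynomial.eval_comp]
  simp

lemma apx_norm (γ : NNReal) (z : ℂ) :
    ‖ev z (AddMonoidAlgebra.single γ 1)‖ = Real.exp (-(γ : ℝ) * z.im) := by
  rw [ev_single, one_mul, Complex.norm_exp]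
  congr 1
  simp

theorem approx (d : ℕ) (hd : 0 < d) (P : Polynomial RS) (hP : P.Monic) (hdeg : P.natDegree = d)
    (K : ℝ) (hK : 0 < K) (Y : ℂ → ℂ) (y₀ C : ℝ) (hY : ContinuousOn Y {z | y₀ ≤ z.im})
    (hrel : ∀ z : ℂ, y₀ ≤ z.im →
      ‖(P.map (ev z).toRingHom).eval (Y z)‖ ≤ C * Real.exp (-K * z.im)) :
    ∃ (f : RS) (C' y₁ : ℝ), y₀ ≤ y₁ ∧
      ∀ z : ℂ, y₁ ≤ z.im → ‖Y z - ev z f‖ ≤ C' * Real.exp (-(K / d) * z.im) := by
  induction d using Nat.strong_induction_on generalizing P K Y y₀ C with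
  | _ d ih =>
  set a : RS := (P.natDegree : ℂ)⁻¹ • P.coeff (P.natDegree - 1) with ha
  set P1 : Polynomial RS := P.comp (Polynomial.X - Polynomial.C a) with hP1
  have hP1m : P1.Monic := hP.comp (Polynomial.monic_X_sub_C a) (by
    rw [Polynomial.natDegree_X_sub_C]; exact one_ne_zero)
  have hP1d : P1.natDegree = d := by
    rw [hP1, Polynomial.natDegree_comp, Polynomial.natDegree_X_sub_C, mul_one, hdeg]
  have hP1c : P1.coeff (d - 1) = 0 := by
    have := apx_coeff P hP (by omega)
    rw [hdeg] at this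
    rw [hP1, ha, hdeg]
    exact this
  set Y1 : ℂ → ℂ := fun z => Y z + ev z a with hY1
  have hev : ∀ z, (P1.map (ev z).toRingHom).eval (Y1 z) = (P.map (ev z).toRingHom).eval (Y z) := by
    intro z
    rw [hP1, apx_eval, hY1]
    simp only [add_sub_cancel_right]
  have hdpos : (0 : ℝ) < d := by exact_mod_cast hd
  rcases newton d hd P1 hP1m hP1d hP1c (K / d) with hcase | hcase
  · -- all coefficients are small
    refine ⟨-a, ?_⟩
    have hJ : ∀ k, k < d → P1.coeff k ∈ Jd ⟨K / d * (d - k : ℕ), by positivity⟩ := by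
      intro k hk μ hμ
      have h1 := hcase k hk μ hμ
      change K / d * ((d - k : ℕ) : ℝ) ≤ (μ : ℝ)
      rw [Nat.cast_sub hk.le]
      exact h1
    have hJ' : ∀ k, ∃ Ck : ℝ, 0 ≤ Ck ∧ (k < d → ∀ z : ℂ, 0 ≤ z.im →
        ‖ev z (P1.coeff k)‖ ≤ Ck * Real.exp (-(K / d * (d - k : ℕ)) * z.im)) := by
      intro k
      by_cases hk : k < d
      · obtain ⟨Ck, h1, h2⟩ := ev_bound (hJ k hk)
        exact ⟨Ck, h1, fun _ z hz => h2 z hz⟩
      · exact ⟨0, le_rfl, fun h => absurd h hk⟩
    choose Cf hCf0 hCf using hJ'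
    refine ⟨1 + |C| + ∑ k ∈ Finset.range d, Cf k, max y₀ 0, le_max_left _ _, ?_⟩
    intro z hz
    have hz0 : y₀ ≤ z.im := (le_max_left _ _).trans hz
    have hz1 : 0 ≤ z.im := (le_max_right _ _).trans hz
    have hYf : Y z - ev z (-a) = Y1 z := by
      rw [map_neg, sub_neg_eq_add]
    rw [hYf]
    set t : ℝ := Real.exp (K / d * z.im) with ht
    have htpos : 0 < t := Real.exp_pos _
    have hpow : ∀ k : ℕ, t ^ k = Real.exp (K / d * k * z.im) := by
      intro k
      rw [ht, ← Real.exp_nat_mul]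
      congr 1
      ring
    have hinv : Real.exp (-(K / d) * z.im) = t⁻¹ := by
      rw [ht, ← Real.exp_neg]
      congr 1
      ring
    rw [hinv, ← div_eq_mul_inv, le_div_iff₀ htpos]
    apply sep_cauchy d hd (‖Y1 z‖ * t) |C| Cf (abs_nonneg _) hCf0
    -- the relation
    have h1 : ‖(P1.map (ev z).toRingHom).eval (Y1 z)‖ ≤ C * Real.exp (-K * z.im) := by
      rw [hev]
      exact hrel z hz0
    rw [Polynomial.eval_map, Polynomial.eval₂_eq_sum_range, hP1d, Finset.sum_range_succ] at h1
    have hlead : P1.coeff d = 1 := by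
      rw [← hP1d]
      exact hP1m.coeff_natDegree
    rw [hlead] at h1
    simp only [map_one, one_mul] at h1
    have h2 : ‖Y1 z ^ d‖ ≤ ‖(∑ k ∈ Finset.range d,
        (ev z).toRingHom (P1.coeff k) * Y1 z ^ k) + Y1 z ^ d‖ +
        ‖∑ k ∈ Finset.range d, (ev z).toRingHom (P1.coeff k) * Y1 z ^ k‖ := by
      have := norm_sub_le ((∑ k ∈ Finset.range d,
        (ev z).toRingHom (P1.coeff k) * Y1 z ^ k) + Y1 z ^ d)
        (∑ k ∈ Finset.range d, (ev z).toRingHom (P1.coeff k) * Y1 z ^ k)
      simpa using this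
    have h3 : ‖∑ k ∈ Finset.range d, (ev z).toRingHom (P1.coeff k) * Y1 z ^ k‖ ≤
        ∑ k ∈ Finset.range d, Cf k * Real.exp (-(K / d * (d - k : ℕ)) * z.im) * ‖Y1 z‖ ^ k := by
      refine (norm_sum_le _ _).trans (Finset.sum_le_sum fun k hk => ?_)
      rw [norm_mul, norm_pow]
      apply mul_le_mul_of_nonneg_right _ (by positivity)
      exact hCf k (Finset.mem_range.1 hk) z hz1
    rw [norm_pow] at h2
    have h4 : ‖Y1 z‖ ^ d ≤ C * Real.exp (-K * z.im) +
        ∑ k ∈ Finset.range d, Cf k * Real.exp (-(K / d * (d - k : ℕ)) * z.im) * ‖Y1 z‖ ^ k := by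
      linarith
    have h5 : Real.exp (-K * z.im) * t ^ d = 1 := by
      rw [hpow, ← Real.exp_add, Real.exp_eq_one_iff]
      field_simp
      ring
    rw [mul_pow]
    calc ‖Y1 z‖ ^ d * t ^ d ≤ (C * Real.exp (-K * z.im) +
        ∑ k ∈ Finset.range d, Cf k * Real.exp (-(K / d * (d - k : ℕ)) * z.im) * ‖Y1 z‖ ^ k) *
          t ^ d := mul_le_mul_of_nonneg_right h4 (by positivity)
      _ = C * (Real.exp (-K * z.im) * t ^ d) + ∑ k ∈ Finset.range d,
          Cf k * (Real.exp (-(K / d * (d - k : ℕ)) * z.im) * t ^ d) * ‖Y1 z‖ ^ k := by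
        rw [add_mul, Finset.sum_mul]
        congr 1
        · ring
        · exact Finset.sum_congr rfl fun k _ => by ring
      _ ≤ |C| + ∑ k ∈ Finset.range d, Cf k * (‖Y1 z‖ * t) ^ k := by
        rw [h5, mul_one]
        apply add_le_add (le_abs_self C)
        apply Finset.sum_le_sum
        intro k hk
        have hk' := Finset.mem_range.1 hk
        have h6 : Real.exp (-(K / d * (d - k : ℕ)) * z.im) * t ^ d = t ^ k := by
          rw [hpow, hpow, ← Real.exp_add]
          congr 1
          rw [Nat.cast_sub hk'.le]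
          ring
        rw [h6, mul_pow]
        apply le_of_eq
        ring
  · -- Hensel splitting
    obtain ⟨γ, P', A, B, hγ, hP'm, hP'd, hP'e, hA, hB, hAB, hA0, hB0, hP'c⟩ := hcase
    have hK' : 0 < K - d * γ := by
      have h1 : (γ : ℝ) * d < K / d * d := mul_lt_mul_of_pos_right hγ hdpos
      rw [div_mul_cancel₀ K hdpos.ne'] at h1
      linarith
    set Y2 : ℂ → ℂ := fun z => Complex.exp (-(Complex.I * (γ : ℝ) * z)) * Y1 z with hY2
    have hY12 : ∀ z, Y1 z = ev z (AddMonoidAlgebra.single γ 1) * Y2 z := by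
      intro z
      rw [ev_single, one_mul, hY2]
      simp only
      rw [← mul_assoc, ← Complex.exp_add, add_neg_cancel, Complex.exp_zero, one_mul]
    have hevc : Continuous fun z => ev z a := by
      simp only [ev_apply, Finsupp.sum]
      fun_prop
    have hY1c : ContinuousOn Y1 {z | y₀ ≤ z.im} := hY.add hevc.continuousOn
    have hY2c : ContinuousOn Y2 {z | y₀ ≤ z.im} :=
      ContinuousOn.mul (by fun_prop) hY1c
    have hrel2 : ∀ z : ℂ, y₀ ≤ z.im →
        ‖(P'.map (ev z).toRingHom).eval (Y2 z)‖ ≤ C * Real.exp (-(K - d * γ) * z.im) := by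
      intro z hz
      have h1 := hrel z hz
      rw [← hev z, hY12 z, hP'e z (Y2 z), norm_mul, norm_pow, apx_norm, ← Real.exp_nat_mul] at h1
      have h2 : Real.exp (-K * z.im) = Real.exp (-(K - d * γ) * z.im) *
          Real.exp (d * (-(γ : ℝ) * z.im)) := by
        rw [← Real.exp_add]
        congr 1
        ring
      rw [h2] at h1
      have h3 : 0 < Real.exp (d * (-(γ : ℝ) * z.im)) := Real.exp_pos _
      have h4 : ‖(P'.map (ev z).toRingHom).eval (Y2 z)‖ * Real.exp (d * (-(γ : ℝ) * z.im)) ≤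
          (C * Real.exp (-(K - d * γ) * z.im)) * Real.exp (d * (-(γ : ℝ) * z.im)) := by
        linarith
      exact le_of_mul_le_mul_right h4 h3
    obtain ⟨Q, C1, y1, hy1, hQ, hQd, hQrel⟩ := separate P' hP'm A B hA hB hAB hP'c (K - d * γ) hK'
      Y2 y₀ C hY2c hrel2
    have hsum : d = A.natDegree + B.natDegree := by
      rw [← hA.natDegree_mul hB, ← hP'c, hP'm.natDegree_map, hP'd]
    have hQ0 : 0 < Q.natDegree := by rcases hQd with h | h <;> omega
    have hQlt : Q.natDegree < d := by rcases hQd with h | h <;> omega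
    obtain ⟨f, C2, y2, hy2, hf⟩ := ih Q.natDegree hQlt hQ0 Q hQ rfl (K - d * γ) hK' Y2 y1 C1
      (hY2c.mono fun z (hz : y1 ≤ z.im) => hy1.trans hz) hQrel
    refine ⟨AddMonoidAlgebra.single γ 1 * f - a, |C2|, max y2 0,
      (hy1.trans hy2).trans (le_max_left _ _), ?_⟩
    intro z hz
    have hz2 : y2 ≤ z.im := (le_max_left _ _).trans hz
    have hz0 : 0 ≤ z.im := (le_max_right _ _).trans hz
    have h1 := hf z hz2
    have h2 : Y z - ev z (AddMonoidAlgebra.single γ 1 * f - a) =
        ev z (AddMonoidAlgebra.single γ 1) * (Y2 z - ev z f) := by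
      rw [map_sub, map_mul, mul_sub, ← hY12 z, hY1]
      ring
    rw [h2, norm_mul, apx_norm]
    have hQr : (0 : ℝ) < Q.natDegree := by exact_mod_cast hQ0
    have h3 : K / d ≤ γ + (K - d * γ) / Q.natDegree := by
      have h4 : (K - d * γ) / d ≤ (K - d * γ) / Q.natDegree := by
        apply div_le_div_of_nonneg_left hK'.le hQr
        exact_mod_cast hQlt.le
      have h5 : (K - d * γ) / d = K / d - γ := by
        field_simp
      linarith
    calc Real.exp (-(γ : ℝ) * z.im) * ‖Y2 z - ev z f‖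
        ≤ Real.exp (-(γ : ℝ) * z.im) *
          (|C2| * Real.exp (-((K - d * γ) / Q.natDegree) * z.im)) := by
          apply mul_le_mul_of_nonneg_left _ (Real.exp_pos _).le
          exact h1.trans (mul_le_mul_of_nonneg_right (le_abs_self _) (Real.exp_pos _).le)
      _ = |C2| * Real.exp (-(γ + (K - d * γ) / Q.natDegree) * z.im) := by
          rw [mul_left_comm, ← Real.exp_add]
          congr 2
          ring
      _ ≤ |C2| * Real.exp (-(K / d) * z.im) := by
          apply mul_le_mul_of_nonneg_left _ (abs_nonneg _)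
          apply Real.exp_le_exp.2
          nlinarith

end LangKC
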