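import Pool.Agent.Lib_helper83.KC.Base

/-! Block POI of the theorem on Kummer covers, by helper80. -/

open Complex Metric Filter Topology

namespace LangKC


local instance poi_fact : Fact (0 < (2 * Real.pi)) := ⟨by positivity⟩

/-- functions on the circle that are sums of a holomorphic and an antiholomorphic function -/
def poiS (R : ℝ) : Submodule ℂ C(AddCircle (2 * Real.pi), ℂ) where
  carrier := {h | ∃ Q₁ Q₂ : ℂ → ℂ, Differentiable ℂ Q₁ ∧ Differentiable ℂ Q₂ ∧
    ∀ x : AddCircle (2 * Real.pi), h x = Q₁ (R * (AddCircle.toCircle x : ℂ)) +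
      starRingEnd ℂ (Q₂ (R * (AddCircle.toCircle x : ℂ)))}
  zero_mem' := ⟨0, 0, differentiable_const 0, differentiable_const 0, fun x => by simp⟩
  add_mem' := by
    rintro f g ⟨Q₁, Q₂, h1, h2, h3⟩ ⟨P₁, P₂, k1, k2, k3⟩
    refine ⟨fun z => Q₁ z + P₁ z, fun z => Q₂ z + P₂ z, h1.add k1, h2.add k2, fun x => ?_⟩
    rw [ContinuousMap.add_apply, h3, k3, map_add]
    ring
  smul_mem' := by
    rintro c f ⟨Q₁, Q₂, h1, h2, h3⟩
    refine ⟨fun z => c * Q₁ z, fun z => starRingEnd ℂ c * Q₂ z, h1.const_mul c,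
      h2.const_mul _, fun x => ?_⟩
    rw [ContinuousMap.smul_apply, h3, map_mul, Complex.conj_conj, smul_eq_mul]
    ring

lemma poi_fourier_nat {R : ℝ} (hR : 0 < R) (k : ℕ) (x : AddCircle (2 * Real.pi)) :
    fourier (k : ℤ) x = (fun z : ℂ => (z / R) ^ k) (R * (AddCircle.toCircle x : ℂ)) := by
  have hR' : (R : ℂ) ≠ 0 := by exact_mod_cast hR.ne'
  simp only
  rw [fourier_apply, natCast_zsmul, AddCircle.toCircle_nsmul, mul_div_cancel_left₀ _ hR']
  simp

lemma poi_fourier_mem {R : ℝ} (hR : 0 < R) (n : ℤ) : fourier n ∈ poiS R := by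
  have hd : ∀ k : ℕ, Differentiable ℂ (fun z : ℂ => (z / R) ^ k) := fun k => by fun_prop
  obtain ⟨k, rfl | rfl⟩ := n.eq_nat_or_neg
  · refine ⟨fun z => (z / R) ^ k, 0, hd k, differentiable_const 0, fun x => ?_⟩
    rw [poi_fourier_nat hR]
    simp
  · refine ⟨0, fun z => (z / R) ^ k, differentiable_const 0, hd k, fun x => ?_⟩
    rw [fourier_neg, poi_fourier_nat hR]
    simp

lemma poi_dense {R : ℝ} (hR : 0 < R) (G : C(AddCircle (2 * Real.pi), ℂ)) {ε : ℝ} (hε : 0 < ε) :
    ∃ h ∈ poiS R, ‖h - G‖ < ε := by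
  have h1 : G ∈ (Submodule.span ℂ (Set.range (@fourier (2 * Real.pi)))).topologicalClosure := by
    rw [span_fourier_closure_eq_top]
    trivial
  have h2 : G ∈ closure ((Submodule.span ℂ (Set.range (@fourier (2 * Real.pi))) :
    Submodule ℂ C(AddCircle (2 * Real.pi), ℂ)) : Set C(AddCircle (2 * Real.pi), ℂ)) := h1
  obtain ⟨h, hh, hd⟩ := Metric.mem_closure_iff.1 h2 ε hε
  refine ⟨h, ?_, ?_⟩
  · have h3 : Submodule.span ℂ (Set.range (@fourier (2 * Real.pi))) ≤ poiS R := by
      rw [Submodule.span_le]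
      rintro _ ⟨n, rfl⟩
      exact poi_fourier_mem hR n
    exact h3 hh
  · rw [dist_eq_norm, norm_sub_rev] at hd
    exact hd

lemma poi_approx {R : ℝ} (hR : 0 < R) {g : ℂ → ℝ} (hg : ContinuousOn g (sphere 0 R)) {ε : ℝ}
    (hε : 0 < ε) : ∃ Q : ℂ → ℂ, Differentiable ℂ Q ∧
      ∀ z ∈ sphere (0 : ℂ) R, |(Q z).re - g z| < ε := by
  have hmem : ∀ x : AddCircle (2 * Real.pi), (R : ℂ) * (AddCircle.toCircle x : ℂ) ∈ sphere (0 : ℂ) R := by
    intro x
    rw [mem_sphere_zero_iff_norm, norm_mul, Circle.norm_coe, mul_one, Complex.norm_real,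
      Real.norm_of_nonneg hR.le]
  have hcont : Continuous (fun x : AddCircle (2 * Real.pi) =>
      ((g ((R : ℂ) * (AddCircle.toCircle x : ℂ)) : ℝ) : ℂ)) := by
    refine Complex.continuous_ofReal.comp (hg.comp_continuous ?_ hmem)
    have : Continuous (fun x : AddCircle (2 * Real.pi) => (AddCircle.toCircle x : ℂ)) :=
      continuous_subtype_val.comp AddCircle.continuous_toCircle
    exact continuous_const.mul this
  obtain ⟨h, ⟨Q₁, Q₂, h1, h2, h3⟩, hn⟩ := poi_dense hR ⟨_, hcont⟩ hε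
  refine ⟨fun z => Q₁ z + Q₂ z, h1.add h2, fun z hz => ?_⟩
  rw [mem_sphere_zero_iff_norm] at hz
  have hz' : (R : ℂ) * (AddCircle.toCircle ((arg z : ℝ) : AddCircle (2 * Real.pi)) : ℂ) = z := by
    rw [AddCircle.toCircle_apply_mk]
    have h4 : 2 * Real.pi / (2 * Real.pi) * arg z = arg z := by
      have := Real.pi_pos
      field_simp
    rw [h4, Circle.coe_exp, ← hz]
    exact Complex.norm_mul_exp_arg_mul_I z
  have h5 := (h - (⟨_, hcont⟩ : C(AddCircle (2 * Real.pi), ℂ))).norm_coe_le_norm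
    ((arg z : ℝ) : AddCircle (2 * Real.pi))
  rw [ContinuousMap.sub_apply, h3, ContinuousMap.coe_mk, hz'] at h5
  have h6 := (Complex.abs_re_le_norm _).trans (h5.trans hn.le)
  have h7 : (Q₁ z + starRingEnd ℂ (Q₂ z) - ((g z : ℝ) : ℂ)).re = (Q₁ z + Q₂ z).re - g z := by
    simp
  rw [h7] at h6
  have h8 : |(Q₁ z + Q₂ z).re - g z| < ε := by
    rw [← h7]
    exact lt_of_le_of_lt ((Complex.abs_re_le_norm _).trans h5) hn
  exact h8

/-- POI -/
theorem sup_le_avg (f : ℂ → ℂ) (g : ℂ → ℝ) (R R' : ℝ) (hR : 0 < R) (hRR : R < R')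
    (hf : DifferentiableOn ℂ f (ball 0 R')) (hg : ContinuousOn g (sphere 0 R))
    (hg0 : ∀ z ∈ sphere (0 : ℂ) R, 0 ≤ g z) (hfg : ∀ z ∈ sphere (0 : ℂ) R, ‖f z‖ ≤ Real.exp (g z))
    (z : ℂ) (hz : ‖z‖ ≤ R / 2) : ‖f z‖ ≤ Real.exp (3 * Real.circleAverage g 0 R) := by
  have hzb : z ∈ ball (0 : ℂ) R := by
    rw [mem_ball_zero_iff]
    linarith
  have key : ∀ ε : ℝ, 0 < ε → ‖f z‖ ≤ Real.exp (3 * (Real.circleAverage g 0 R + 2 * ε)) := by
    intro ε hε
    obtain ⟨Q, hQ, hQg⟩ := poi_approx hR (g := fun z => g z + ε) (hg.add continuousOn_const) hε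
    have h1 : ∀ w ∈ sphere (0 : ℂ) R, g w ≤ (Q w).re ∧ (Q w).re ≤ g w + 2 * ε := by
      intro w hw
      have := abs_lt.1 (hQg w hw)
      constructor <;> linarith [this.1, this.2]
    -- maximum modulus
    have h2 : ‖f z * cexp (-(Q z))‖ ≤ 1 := by
      have hd : DiffContOnCl ℂ (fun w => f w * cexp (-(Q w))) (ball 0 R) := by
        apply DifferentiableOn.diffContOnCl
        rw [closure_ball 0 hR.ne']
        refine (hf.mono (closedBall_subset_ball hRR)).mul ?_
        exact (hQ.neg.cexp).differentiableOn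
      refine Complex.norm_le_of_forall_mem_frontier_norm_le isBounded_ball hd ?_
        (subset_closure hzb)
      intro w hw
      rw [frontier_ball 0 hR.ne'] at hw
      rw [norm_mul, Complex.norm_exp, Complex.neg_re]
      calc ‖f w‖ * Real.exp (-(Q w).re) ≤ Real.exp (g w) * Real.exp (-(Q w).re) :=
            mul_le_mul_of_nonneg_right (hfg w hw) (Real.exp_pos _).le
        _ = Real.exp (g w - (Q w).re) := by
            rw [← Real.exp_add]
            congr 1
        _ ≤ 1 := Real.exp_le_one_iff.2 (by linarith [(h1 w hw).1])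
    have h3 : ‖f z‖ ≤ Real.exp (Q z).re := by
      rw [norm_mul, Complex.norm_exp, Complex.neg_re, Real.exp_neg,
        ← div_eq_mul_inv, div_le_one (Real.exp_pos _)] at h2
      exact h2
    refine h3.trans (Real.exp_le_exp.2 ?_)
    -- Poisson
    have hQc : ContinuousOn Q (sphere 0 |R|) := hQ.continuous.continuousOn
    have hkc : ContinuousOn (re ∘ herglotzRieszKernel 0 z) (sphere 0 |R|) := by
      exact continuous_re.comp_continuousOn (continuousOn_herglotzRieszKernel_sphere hzb)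
    have hP := (hQ.diffContOnCl (s := ball (0 : ℂ) R)).circleAverage_re_herglotzRieszKernel_smul hzb
    have hi : CircleIntegrable ((re ∘ herglotzRieszKernel 0 z) • Q) 0 R := by
      apply ContinuousOn.circleIntegrable'
      exact hkc.smul hQc
    have h4 : (Q z).re = Real.circleAverage
        (fun w => (re ∘ herglotzRieszKernel 0 z) w * (Q w).re) 0 R := by
      rw [← hP]
      have := Complex.reCLM.circleAverage_comp_comm hi
      rw [Complex.reCLM_apply] at this
      rw [← this]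
      congr 1
      funext w
      simp
    rw [h4]
    have hgi : CircleIntegrable g 0 R := ContinuousOn.circleIntegrable hR.le hg
    have hi1 : CircleIntegrable (fun w => (re ∘ herglotzRieszKernel 0 z) w * (Q w).re) 0 R := by
      apply ContinuousOn.circleIntegrable'
      exact hkc.mul (continuous_re.comp_continuousOn hQc)
    have hi2 : CircleIntegrable (fun w => 3 * (g w + 2 * ε)) 0 R := by
      apply ContinuousOn.circleIntegrable'
      rw [abs_of_pos hR]
      exact continuousOn_const.mul (hg.add continuousOn_const)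
    have h5 : Real.circleAverage (fun w => 3 * (g w + 2 * ε)) 0 R =
        3 * (Real.circleAverage g 0 R + 2 * ε) := by
      have e1 := Real.circleAverage_fun_smul (a := (3 : ℝ)) (f := fun w => g w + 2 * ε)
        (c := (0 : ℂ)) (R := R)
      simp only [smul_eq_mul] at e1
      rw [e1]
      have e2 := Real.circleAverage_fun_add (c := (0 : ℂ)) (R := R) hgi
        (circleIntegrable_const (2 * ε) 0 R)
      rw [e2, Real.circleAverage_const]
    rw [← h5]
    apply Real.circleAverage_mono hi1 hi2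
    intro w hw
    rw [abs_of_pos hR] at hw
    have hk := re_herglotzRieszKernel_le hw hzb
    have hk3 : (re ∘ herglotzRieszKernel 0 z) w ≤ 3 := by
      have h6 : (R + ‖z - 0‖) / (R - ‖z - 0‖) ≤ 3 := by
        rw [sub_zero, div_le_iff₀ (by linarith)]
        linarith
      exact hk.trans h6
    have hQ0 : 0 ≤ (Q w).re := (hg0 w hw).trans (h1 w hw).1
    calc (re ∘ herglotzRieszKernel 0 z) w * (Q w).re ≤ 3 * (Q w).re :=
          mul_le_mul_of_nonneg_right hk3 hQ0
      _ ≤ 3 * (g w + 2 * ε) := by linarith [(h1 w hw).2]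
  have hlim : Tendsto (fun ε : ℝ => Real.exp (3 * (Real.circleAverage g 0 R + 2 * ε))) (𝓝[>] 0)
      (𝓝 (Real.exp (3 * Real.circleAverage g 0 R))) := by
    have : ContinuousAt (fun ε : ℝ => Real.exp (3 * (Real.circleAverage g 0 R + 2 * ε))) 0 := by
      fun_prop
    have h := this.tendsto.mono_left (nhdsWithin_le_nhds (s := Set.Ioi 0))
    simpa using h
  exact ge_of_tendsto hlim (eventually_nhdsWithin_of_forall fun ε hε => key ε hε)

end LangKC
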