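import Pool.Agent.Lib_helper83.KC.Base
import Pool.Agent.Lib_helper83.KCA.POI

/-! Block MEAN of the theorem on Kummer covers, by helper80. -/

open Complex Metric Filter Topology

namespace LangKC

variable {n : ℕ}

/-- the second derivative is nonnegative at a local minimum -/
lemma mean_snd {ψ ψ₁ : ℝ → ℝ} {ψ₂ : ℝ} (h1 : ∀ᶠ s in 𝓝 (0 : ℝ), HasDerivAt ψ (ψ₁ s) s)
    (h2 : HasDerivAt ψ₁ ψ₂ 0) (hmin : IsLocalMin ψ 0) : 0 ≤ ψ₂ := by
  by_contra hcon
  push Not at hcon
  have hd : deriv ψ =ᶠ[𝓝 0] ψ₁ := h1.mono fun s hs => hs.deriv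
  have hdd : deriv (deriv ψ) 0 = ψ₂ := by
    rw [hd.deriv_eq]
    exact h2.deriv
  have hd0 : deriv ψ 0 = 0 := hmin.deriv_eq_zero
  have hmax : IsLocalMax ψ 0 := isLocalMax_of_deriv_deriv_neg (by rw [hdd]; exact hcon) hd0
    h1.self_of_nhds.continuousAt
  have hconst : ψ =ᶠ[𝓝 0] fun _ => ψ 0 := by
    filter_upwards [hmin, hmax] with s h3 h4
    exact le_antisymm h4 h3
  have h5 : deriv ψ =ᶠ[𝓝 0] fun _ => 0 := by
    have := hconst.deriv
    simpa using this
  have h6 : deriv (deriv ψ) 0 = 0 := by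
    rw [h5.deriv_eq]
    simp
  rw [hdd] at h6
  exact absurd h6 hcon.ne

lemma mean_line {f : ℂ → ℂ} {z₀ ξ : ℂ} {s : ℝ} (hf : DifferentiableAt ℂ f (z₀ + s * ξ)) :
    HasDerivAt (fun s : ℝ => f (z₀ + s * ξ)) (ξ * deriv f (z₀ + s * ξ)) s := by
  have h1 : HasDerivAt (fun s : ℝ => z₀ + (s : ℂ) * ξ) ξ s := by
    have h2 : HasDerivAt (fun s : ℝ => (s : ℂ) * ξ) (1 * ξ) s :=
      (Complex.ofRealCLM.hasDerivAt (x := s)).mul_const ξ
    rw [one_mul] at h2
    exact h2.const_add z₀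
  have h3 := hf.hasDerivAt.comp_of_eq s h1 rfl
  rw [mul_comm]
  exact h3

lemma mean_line_cont (z₀ ξ : ℂ) : ContinuousAt (fun s : ℝ => z₀ + (s : ℂ) * ξ) 0 := by
  fun_prop

/-- first and second derivative of `log nsq V` in a direction -/
lemma mean_dir (V : ℂ → Fin (n + 1) → ℂ) {U : Set ℂ} (hU : IsOpen U)
    (hV : ∀ i, DifferentiableOn ℂ (fun z => V z i) U) (h0 : ∀ z ∈ U, V z ≠ 0) {z₀ : ℂ}
    (hz : z₀ ∈ U) (ξ : ℂ) : ∃ ψ₁ : ℝ → ℝ,
      (∀ᶠ s : ℝ in 𝓝 0, HasDerivAt (fun s : ℝ => Real.log (nsq (V (z₀ + s * ξ)))) (ψ₁ s) s) ∧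
      HasDerivAt ψ₁ (((∑ j, 2 * (inner ℝ (V z₀ j) (ξ * (ξ * deriv (deriv fun z => V z j) z₀)) +
        inner ℝ (ξ * deriv (fun z => V z j) z₀) (ξ * deriv (fun z => V z j) z₀))) * nsq (V z₀) -
        (∑ j, 2 * inner ℝ (V z₀ j) (ξ * deriv (fun z => V z j) z₀)) *
        (∑ j, 2 * inner ℝ (V z₀ j) (ξ * deriv (fun z => V z j) z₀))) / nsq (V z₀) ^ 2) 0 := by
  have hmem : ∀ᶠ s : ℝ in 𝓝 0, z₀ + (s : ℂ) * ξ ∈ U := by
    apply (mean_line_cont z₀ ξ).eventually
    simp only [ofReal_zero, zero_mul, add_zero]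
    exact hU.mem_nhds hz
  have hd : ∀ j, ∀ z ∈ U, DifferentiableAt ℂ (fun z => V z j) z := fun j z hz' =>
    (hV j).differentiableAt (hU.mem_nhds hz')
  have hd2 : ∀ j, DifferentiableAt ℂ (deriv fun z => V z j) z₀ := fun j =>
    ((hV j).deriv hU).differentiableAt (hU.mem_nhds hz)
  have hN : ∀ s : ℝ, z₀ + (s : ℂ) * ξ ∈ U → HasDerivAt (fun s : ℝ => nsq (V (z₀ + s * ξ)))
      (∑ j, 2 * inner ℝ (V (z₀ + s * ξ) j) (ξ * deriv (fun z => V z j) (z₀ + s * ξ))) s := by
    intro s hs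
    unfold nsq
    have := HasDerivAt.fun_sum (u := Finset.univ) (x := s) (A := fun (j : Fin (n + 1)) (s : ℝ) =>
      ‖V (z₀ + s * ξ) j‖ ^ 2) (A' := fun j => 2 * inner ℝ (V (z₀ + s * ξ) j)
        (ξ * deriv (fun z => V z j) (z₀ + s * ξ))) (fun j _ =>
          (mean_line (f := fun z => V z j) (hd j _ hs)).norm_sq)
    exact this
  refine ⟨fun s => (∑ j, 2 * inner ℝ (V (z₀ + s * ξ) j)
    (ξ * deriv (fun z => V z j) (z₀ + s * ξ))) / nsq (V (z₀ + s * ξ)), ?_, ?_⟩
  · filter_upwards [hmem] with s hs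
    exact (hN s hs).log (nsq_pos (h0 _ hs)).ne'
  · have hz' : z₀ + ((0 : ℝ) : ℂ) * ξ = z₀ := by simp
    have hN1 : HasDerivAt (fun s : ℝ => ∑ j, 2 * inner ℝ (V (z₀ + s * ξ) j)
        (ξ * deriv (fun z => V z j) (z₀ + s * ξ)))
        (∑ j, 2 * (inner ℝ (V z₀ j) (ξ * (ξ * deriv (deriv fun z => V z j) z₀)) +
        inner ℝ (ξ * deriv (fun z => V z j) z₀) (ξ * deriv (fun z => V z j) z₀))) 0 := by
      refine HasDerivAt.fun_sum fun j _ => ?_
      refine HasDerivAt.const_mul 2 ?_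
      have e1 : HasDerivAt (fun s : ℝ => V (z₀ + s * ξ) j) (ξ * deriv (fun z => V z j) z₀) 0 := by
        have := mean_line (f := fun z => V z j) (z₀ := z₀) (ξ := ξ) (s := 0)
          (by rw [hz']; exact hd j _ hz)
        rw [hz'] at this
        exact this
      have e2 : HasDerivAt (fun s : ℝ => ξ * deriv (fun z => V z j) (z₀ + s * ξ))
          (ξ * (ξ * deriv (deriv fun z => V z j) z₀)) 0 := by
        have := mean_line (f := deriv fun z => V z j) (z₀ := z₀) (ξ := ξ) (s := 0)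
          (by rw [hz']; exact hd2 j)
        rw [hz'] at this
        exact this.const_mul ξ
      have e3 := e1.inner ℝ e2
      simp only [hz'] at e3
      exact e3
    have hN0 : HasDerivAt (fun s : ℝ => nsq (V (z₀ + s * ξ)))
        (∑ j, 2 * inner ℝ (V z₀ j) (ξ * deriv (fun z => V z j) z₀)) 0 := by
      have := hN 0 (by rw [hz']; exact hz)
      simp only [hz'] at this
      exact this
    have h3 := hN1.div hN0 (by rw [hz']; exact (nsq_pos (h0 _ hz)).ne')
    simp only [hz'] at h3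
    exact h3

lemma mean_inner (a b : ℂ) : inner ℝ a b = (b * starRingEnd ℂ a).re := Complex.inner a b

/-- the sum over the two directions is four times `E2` -/
lemma mean_lap (v d e : Fin (n + 1) → ℂ) :
    (∑ j, 2 * (inner ℝ (v j) (1 * (1 * e j)) + inner ℝ (1 * d j) (1 * d j))) * nsq v -
      (∑ j, 2 * inner ℝ (v j) (1 * d j)) * (∑ j, 2 * inner ℝ (v j) (1 * d j)) +
    ((∑ j, 2 * (inner ℝ (v j) (I * (I * e j)) + inner ℝ (I * d j) (I * d j))) * nsq v -
      (∑ j, 2 * inner ℝ (v j) (I * d j)) * (∑ j, 2 * inner ℝ (v j) (I * d j))) =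
    2 * ∑ i, ∑ j, ‖v i * d j - v j * d i‖ ^ 2 := by
  -- the scalar product
  set S : ℂ := ∑ j, d j * starRingEnd ℂ (v j) with hS
  set T : ℝ := ∑ j, ‖d j‖ ^ 2 with hT
  have h1 : ∑ j, 2 * inner ℝ (v j) (1 * d j) = 2 * S.re := by
    rw [hS, Complex.re_sum, Finset.mul_sum]
    refine Finset.sum_congr rfl fun j _ => ?_
    rw [mean_inner, one_mul]
  have h2 : ∑ j, 2 * inner ℝ (v j) (I * d j) = -(2 * S.im) := by
    rw [hS, Complex.im_sum, Finset.mul_sum, ← Finset.sum_neg_distrib]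
    refine Finset.sum_congr rfl fun j _ => ?_
    rw [mean_inner, mul_assoc, Complex.I_mul_re]
    ring
  have h3 : (∑ j, 2 * (inner ℝ (v j) (1 * (1 * e j)) + inner ℝ (1 * d j) (1 * d j))) +
      (∑ j, 2 * (inner ℝ (v j) (I * (I * e j)) + inner ℝ (I * d j) (I * d j))) = 4 * T := by
    rw [hT, Finset.mul_sum, ← Finset.sum_add_distrib]
    refine Finset.sum_congr rfl fun j _ => ?_
    have e1 : I * (I * e j) = -(e j) := by
      rw [← mul_assoc, Complex.I_mul_I]
      ring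
    have e2 : inner ℝ (I * d j) (I * d j) = ‖d j‖ ^ 2 := by
      rw [real_inner_self_eq_norm_sq, norm_mul, Complex.norm_I, one_mul]
    have e3 : inner ℝ (1 * d j) (1 * d j) = ‖d j‖ ^ 2 := by
      rw [one_mul, real_inner_self_eq_norm_sq]
    rw [e1, e2, e3, one_mul, one_mul, inner_neg_right]
    ring
  have h4 : ∑ i, ∑ j, ‖v i * d j - v j * d i‖ ^ 2 = 2 * (nsq v * T - ‖S‖ ^ 2) := by
    have e1 : ∀ i j, ‖v i * d j - v j * d i‖ ^ 2 = ‖v i‖ ^ 2 * ‖d j‖ ^ 2 + ‖v j‖ ^ 2 * ‖d i‖ ^ 2 -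
        2 * ((d j * starRingEnd ℂ (v j)) * starRingEnd ℂ (d i * starRingEnd ℂ (v i))).re := by
      intro i j
      rw [← Complex.normSq_eq_norm_sq, ← Complex.normSq_eq_norm_sq, ← Complex.normSq_eq_norm_sq,
        ← Complex.normSq_eq_norm_sq, ← Complex.normSq_eq_norm_sq, Complex.normSq_sub,
        Complex.normSq_mul, Complex.normSq_mul]
      congr 3
      rw [map_mul, map_mul, Complex.conj_conj]
      ring
    simp_rw [e1]
    simp_rw [Finset.sum_sub_distrib, Finset.sum_add_distrib]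
    have e2 : ∑ i, ∑ j, ‖v i‖ ^ 2 * ‖d j‖ ^ 2 = nsq v * T := by
      rw [hT, nsq, Finset.sum_mul_sum]
    have e3 : ∑ i, ∑ j, ‖v j‖ ^ 2 * ‖d i‖ ^ 2 = nsq v * T := by
      rw [hT, nsq, Finset.sum_mul_sum, Finset.sum_comm]
    have e4 : ∑ i, ∑ j, 2 * ((d j * starRingEnd ℂ (v j)) *
        starRingEnd ℂ (d i * starRingEnd ℂ (v i))).re = 2 * ‖S‖ ^ 2 := by
      have e5 : ‖S‖ ^ 2 = (S * starRingEnd ℂ S).re := by
        rw [Complex.mul_conj, Complex.ofReal_re, Complex.normSq_eq_norm_sq]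
      rw [e5, hS, map_sum, Finset.sum_mul_sum, Finset.sum_comm, Complex.re_sum, Finset.mul_sum]
      refine Finset.sum_congr rfl fun i _ => ?_
      rw [Complex.re_sum, Finset.mul_sum]
    rw [e2, e3, e4]
    ring
  have h5 : ‖S‖ ^ 2 = S.re ^ 2 + S.im ^ 2 := by
    rw [← Complex.normSq_eq_norm_sq, Complex.normSq_apply]
    ring
  rw [h4, h1, h2, h5]
  linear_combination nsq v * h3

/-- strict minimum principle at an interior point -/
lemma mean_no_min (V : ℂ → Fin (n + 1) → ℂ) {U : Set ℂ} (hU : IsOpen U)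
    (hV : ∀ i, DifferentiableOn ℂ (fun z => V z i) U) (h0 : ∀ z ∈ U, V z ≠ 0) {z₀ : ℂ}
    (hz : z₀ ∈ U) (c : ℂ) (B : ℝ) (hE : E2 V z₀ < B) {Q : ℂ → ℂ} (hQ : Differentiable ℂ Q)
    (hmin : IsLocalMin (fun z => Real.log (nsq (V z)) - B * ‖z - c‖ ^ 2 - (Q z).re) z₀) :
    False := by
  have hdir : ∀ ξ : ℂ, 0 ≤ (((∑ j, 2 * (inner ℝ (V z₀ j) (ξ * (ξ * deriv (deriv fun z => V z j)
        z₀)) + inner ℝ (ξ * deriv (fun z => V z j) z₀) (ξ * deriv (fun z => V z j) z₀))) *
        nsq (V z₀) - (∑ j, 2 * inner ℝ (V z₀ j) (ξ * deriv (fun z => V z j) z₀)) *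
        (∑ j, 2 * inner ℝ (V z₀ j) (ξ * deriv (fun z => V z j) z₀))) / nsq (V z₀) ^ 2) -
        B * (2 * ‖ξ‖ ^ 2) - (ξ * (ξ * deriv (deriv Q) z₀)).re := by
    intro ξ
    obtain ⟨ψ₁, h1, h2⟩ := mean_dir V hU hV h0 hz ξ
    have hz' : z₀ + ((0 : ℝ) : ℂ) * ξ = z₀ := by simp
    have hl : ∀ s : ℝ, HasDerivAt (fun s : ℝ => z₀ + (s : ℂ) * ξ - c) ξ s := by
      intro s
      have h3 : HasDerivAt (fun s : ℝ => (s : ℂ) * ξ) (1 * ξ) s :=
        (Complex.ofRealCLM.hasDerivAt (x := s)).mul_const ξ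
      rw [one_mul] at h3
      exact (h3.const_add z₀).sub_const c
    have hq1 : ∀ s : ℝ, HasDerivAt (fun s : ℝ => ‖z₀ + (s : ℂ) * ξ - c‖ ^ 2)
        (2 * inner ℝ (z₀ + (s : ℂ) * ξ - c) ξ) s := fun s => (hl s).norm_sq
    have hq2 : HasDerivAt (fun s : ℝ => 2 * inner ℝ (z₀ + (s : ℂ) * ξ - c) ξ) (2 * ‖ξ‖ ^ 2) 0 := by
      have h3 := (hl 0).inner ℝ (hasDerivAt_const (0 : ℝ) ξ)
      rw [inner_zero_right, zero_add, real_inner_self_eq_norm_sq] at h3
      exact h3.const_mul 2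
    have hQ1 : ∀ s : ℝ, HasDerivAt (fun s : ℝ => (Q (z₀ + s * ξ)).re)
        (ξ * deriv Q (z₀ + s * ξ)).re s := by
      intro s
      have h3 := mean_line (f := Q) (z₀ := z₀) (ξ := ξ) (s := s) (hQ _)
      exact (Complex.reCLM.hasFDerivAt.comp_hasDerivAt s h3)
    have hQ2 : HasDerivAt (fun s : ℝ => (ξ * deriv Q (z₀ + s * ξ)).re)
        (ξ * (ξ * deriv (deriv Q) z₀)).re 0 := by
      have h3 := mean_line (f := deriv Q) (z₀ := z₀) (ξ := ξ) (s := 0)
        (hQ.deriv.differentiableAt)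
      rw [hz'] at h3
      exact (Complex.reCLM.hasFDerivAt.comp_hasDerivAt (0 : ℝ) (h3.const_mul ξ))
    refine mean_snd (ψ := fun s : ℝ => Real.log (nsq (V (z₀ + s * ξ))) -
      B * ‖z₀ + (s : ℂ) * ξ - c‖ ^ 2 - (Q (z₀ + s * ξ)).re)
      (ψ₁ := fun s => ψ₁ s - B * (2 * inner ℝ (z₀ + (s : ℂ) * ξ - c) ξ) -
        (ξ * deriv Q (z₀ + s * ξ)).re) ?_ ?_ ?_
    · filter_upwards [h1] with s hs
      exact (hs.sub ((hq1 s).const_mul B)).sub (hQ1 s)
    · exact (h2.sub (hq2.const_mul B)).sub hQ2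
    · have h4 := (mean_line_cont z₀ ξ)
      have h5 : Tendsto (fun s : ℝ => z₀ + (s : ℂ) * ξ) (𝓝 0) (𝓝 z₀) := by
        have := h4.tendsto
        simpa using this
      have h6 := h5.eventually hmin
      change ∀ᶠ s : ℝ in 𝓝 0, _ ≤ _
      filter_upwards [h6] with s hs
      simpa using hs
  have h1 := hdir 1
  have h2 := hdir I
  have hlap := mean_lap (V z₀) (fun j => deriv (fun z => V z j) z₀)
    (fun j => deriv (deriv fun z => V z j) z₀)
  have hN := nsq_pos (h0 z₀ hz)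
  have h3 : (1 * (1 * deriv (deriv Q) z₀)).re + (I * (I * deriv (deriv Q) z₀)).re = 0 := by
    rw [← mul_assoc I I, Complex.I_mul_I]
    simp
  have h4 := add_nonneg h1 h2
  rw [norm_one, Complex.norm_I] at h4
  have h5 : E2 V z₀ = (∑ i, ∑ j, ‖V z₀ i * deriv (fun w => V w j) z₀ -
      V z₀ j * deriv (fun w => V w i) z₀‖ ^ 2) / (2 * nsq (V z₀) ^ 2) := rfl
  have h6 : 4 * E2 V z₀ = (2 * ∑ i, ∑ j, ‖V z₀ i * deriv (fun w => V w j) z₀ -
      V z₀ j * deriv (fun w => V w i) z₀‖ ^ 2) / nsq (V z₀) ^ 2 := by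
    rw [h5]
    field_simp
    ring
  rw [← hlap, add_div] at h6
  linarith

/-- MEAN -/
theorem mean (V : ℂ → Fin (n + 1) → ℂ) (c : ℂ) (r R A : ℝ) (hr : 0 < r) (hrR : r < R)
    (hV : ∀ i, DifferentiableOn ℂ (fun z => V z i) (ball c R)) (h0 : ∀ z ∈ ball c R, V z ≠ 0)
    (hE : ∀ z ∈ ball c R, E2 V z ≤ A) :
    Real.circleAverage (fun z => Real.log (nsq (V z))) c r ≤ Real.log (nsq (V c)) + A * r ^ 2 := by
  have hlogc : ContinuousOn (fun z => Real.log (nsq (V z))) (ball c R) := by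
    refine ContinuousOn.log ?_ fun z hz => (nsq_pos (h0 z hz)).ne'
    unfold nsq
    exact continuousOn_finsetSum _ fun j _ => ((hV j).continuousOn.norm).pow 2
  have hsub : closedBall c r ⊆ ball c R := closedBall_subset_ball hrR
  have hlogc' : ContinuousOn (fun z => Real.log (nsq (V z))) (closedBall c r) := hlogc.mono hsub
  have key : ∀ ε : ℝ, 0 < ε → Real.circleAverage (fun z => Real.log (nsq (V z))) c r ≤
      Real.log (nsq (V c)) + (A + ε) * r ^ 2 + 2 * ε := by
    intro ε hε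
    -- approximation of the boundary values
    set u : ℂ → ℝ := fun z => Real.log (nsq (V z)) - (A + ε) * ‖z - c‖ ^ 2 with hu
    have huc : ContinuousOn u (closedBall c r) := by
      refine hlogc'.sub ?_
      fun_prop
    have hus : ContinuousOn (fun z => u (z + c)) (sphere (0 : ℂ) r) := by
      refine (huc.mono sphere_subset_closedBall).comp (by fun_prop) ?_
      intro z hz
      rw [mem_sphere_iff_norm, sub_zero] at hz
      rw [mem_sphere_iff_norm, add_sub_cancel_right]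
      exact hz
    obtain ⟨Q₀, hQ₀, hQ₀u⟩ := poi_approx hr hus hε
    set Q : ℂ → ℂ := fun z => Q₀ (z - c) with hQd
    have hQ : Differentiable ℂ Q := hQ₀.comp (differentiable_id.sub_const c)
    have hQu : ∀ z ∈ sphere c r, |(Q z).re - u z| < ε := by
      intro z hz
      have h1 : z - c ∈ sphere (0 : ℂ) r := by
        rw [mem_sphere_iff_norm] at hz ⊢
        simpa using hz
      have := hQ₀u (z - c) h1
      rw [sub_add_cancel] at this
      exact this
    -- the minimum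
    have hvc : ContinuousOn (fun z => u z - (Q z).re) (closedBall c r) :=
      huc.sub (continuous_re.comp hQ.continuous).continuousOn
    obtain ⟨a, ha, hmin⟩ := (isCompact_closedBall c r).exists_isMinOn
      ⟨c, mem_closedBall_self hr.le⟩ hvc
    have hasph : a ∈ sphere c r := by
      by_contra hcon
      have hab : a ∈ ball c r := by
        rw [mem_closedBall] at ha
        rw [mem_sphere] at hcon
        exact mem_ball.2 (lt_of_le_of_ne ha hcon)
      have haU : a ∈ ball c R := hsub ha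
      have hloc : IsLocalMin (fun z => Real.log (nsq (V z)) - (A + ε) * ‖z - c‖ ^ 2 - (Q z).re)
          a := by
        have h1 : closedBall c r ∈ 𝓝 a := mem_of_superset (isOpen_ball.mem_nhds hab)
          ball_subset_closedBall
        exact hmin.isLocalMin h1
      exact mean_no_min V isOpen_ball hV h0 haU c (A + ε)
        (by linarith [hE a haU]) hQ hloc
    have h1 : -ε ≤ u c - (Q c).re := by
      have h2 := hmin (mem_closedBall_self hr.le : c ∈ closedBall c r)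
      simp only at h2
      have h3 := abs_lt.1 (hQu a hasph)
      have h4 : u a - (Q a).re ≤ u c - (Q c).re := h2
      linarith [h3.2]
    -- the average
    have hQavg : Real.circleAverage (fun z => (Q z).re) c r = (Q c).re := by
      have hd : DiffContOnCl ℂ Q (ball c |r|) := hQ.diffContOnCl
      have h2 := hd.circleAverage
      have hi : CircleIntegrable Q c r := by
        apply ContinuousOn.circleIntegrable'
        exact hQ.continuous.continuousOn
      have h3 := Complex.reCLM.circleAverage_comp_comm hi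
      rw [h2] at h3
      exact h3
    have hi1 : CircleIntegrable (fun z => Real.log (nsq (V z))) c r :=
      ContinuousOn.circleIntegrable hr.le (hlogc'.mono sphere_subset_closedBall)
    have hi2 : CircleIntegrable (fun z => (Q z).re) c r := by
      apply ContinuousOn.circleIntegrable'
      exact (continuous_re.comp hQ.continuous).continuousOn
    have hi3 : CircleIntegrable (fun z => (Q z).re + (ε + (A + ε) * r ^ 2)) c r :=
      hi2.add (circleIntegrable_const _ c r)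
    have h5 : Real.circleAverage (fun z => (Q z).re + (ε + (A + ε) * r ^ 2)) c r =
        (Q c).re + (ε + (A + ε) * r ^ 2) := by
      rw [Real.circleAverage_fun_add hi2 (circleIntegrable_const _ c r), hQavg,
        Real.circleAverage_const]
    have h6 : Real.circleAverage (fun z => Real.log (nsq (V z))) c r ≤
        (Q c).re + (ε + (A + ε) * r ^ 2) := by
      rw [← h5]
      apply Real.circleAverage_mono hi1 hi3
      intro z hz
      rw [abs_of_pos hr] at hz
      have h7 := abs_lt.1 (hQu z hz)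
      have h8 : u z = Real.log (nsq (V z)) - (A + ε) * r ^ 2 := by
        rw [hu]
        simp only
        rw [mem_sphere_iff_norm] at hz
        rw [hz]
      linarith [h7.1]
    have h9 : u c = Real.log (nsq (V c)) := by
      rw [hu]
      simp
    linarith
  have hlim : Tendsto (fun ε : ℝ => Real.log (nsq (V c)) + (A + ε) * r ^ 2 + 2 * ε) (𝓝[>] 0)
      (𝓝 (Real.log (nsq (V c)) + A * r ^ 2)) := by
    have : ContinuousAt (fun ε : ℝ => Real.log (nsq (V c)) + (A + ε) * r ^ 2 + 2 * ε) 0 := by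
      fun_prop
    have h := this.tendsto.mono_left (nhdsWithin_le_nhds (s := Set.Ioi 0))
    simpa using h
  exact ge_of_tendsto hlim (eventually_nhdsWithin_of_forall fun ε hε => key ε hε)

end LangKC
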