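import Pool.Agent.Lib_helper83.KC.Base
import Pool.Agent.Lib_helper83.KCA.MEAN
import Pool.Agent.Lib_helper83.KCA.POI

/-! Block BND of the theorem on Kummer covers, by helper67. -/

open Complex Metric Filter Topology

namespace LangKC

variable {n : ℕ}

theorem bound (X : ℂ → Fin (n + 1) → ℂ) (i₀ : Fin (n + 1)) (R r : ℝ) (hr : 0 < r)
    (hrR : 2 * r < R) (h1 : ∀ z ∈ ball (0 : ℂ) R, X z i₀ = 1)
    (hX : ∀ i, DifferentiableOn ℂ (fun z => X z i) (ball 0 R))
    (hE : ∀ z ∈ ball (0 : ℂ) R, E2 X z ≤ 4) (h0 : ∀ i, ‖X 0 i‖ ≤ 1) (z : ℂ) (hz : ‖z‖ ≤ r)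
    (i : Fin (n + 1)) : ‖X z i‖ ≤ Real.exp (3 * (Real.log (n + 1) / 2 + 8 * r ^ 2)) := by
  have hsub : sphere (0 : ℂ) (2 * r) ⊆ ball (0 : ℂ) R := by
    intro w hw
    rw [mem_sphere_zero_iff_norm] at hw
    rw [mem_ball_zero_iff, hw]
    exact hrR
  have hne : ∀ w ∈ ball (0 : ℂ) R, X w ≠ 0 := by
    intro w hw h
    have := h1 w hw
    rw [h] at this
    simp at this
  have hge : ∀ w ∈ ball (0 : ℂ) R, 1 ≤ nsq (X w) := by
    intro w hw
    have := le_nsq (X w) i₀
    rw [h1 w hw] at this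
    simpa using this
  have hcont : ContinuousOn (fun w => Real.log (nsq (X w))) (sphere 0 (2 * r)) := by
    apply ContinuousOn.log
    · unfold nsq
      apply continuousOn_finsetSum
      intro i _
      exact (((hX i).continuousOn.mono hsub).norm).pow 2
    · intro w hw
      exact (nsq_pos (hne w (hsub hw))).ne'
  have h0R : (0 : ℂ) ∈ ball (0 : ℂ) R := by
    rw [mem_ball_zero_iff, norm_zero]
    linarith
  have hmean := mean X 0 (2 * r) R 4 (by linarith) hrR hX hne hE
  have hlog0 : Real.log (nsq (X 0)) ≤ Real.log (n + 1) := by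
    apply Real.log_le_log (nsq_pos (hne 0 h0R))
    unfold nsq
    calc ∑ i, ‖X 0 i‖ ^ 2 ≤ ∑ _i : Fin (n + 1), (1 : ℝ) :=
          Finset.sum_le_sum fun i _ => pow_le_one₀ (norm_nonneg _) (h0 i)
      _ = n + 1 := by simp
  have hsup := sup_le_avg (fun z => X z i) (fun w => 2⁻¹ * Real.log (nsq (X w))) (2 * r) R
    (by linarith) hrR (hX i) (hcont.const_smul (2⁻¹ : ℝ)) (fun w hw => by
      have := Real.log_nonneg (hge w (hsub hw))
      positivity) (fun w hw => by
      have h2 := le_nsq (X w) i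
      have h3 := nsq_pos (hne w (hsub hw))
      have h4 : Real.exp (2⁻¹ * Real.log (nsq (X w))) ^ 2 = nsq (X w) := by
        rw [← Real.exp_nat_mul]
        push_cast
        rw [show (2 : ℝ) * (2⁻¹ * Real.log (nsq (X w))) = Real.log (nsq (X w)) by ring,
          Real.exp_log h3]
      exact le_of_sq_le_sq (by rw [h4]; exact h2) (Real.exp_pos _).le) z (by linarith)
  refine hsup.trans (Real.exp_le_exp.2 ?_)
  have havg : Real.circleAverage (fun w => 2⁻¹ * Real.log (nsq (X w))) 0 (2 * r) =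
      2⁻¹ * Real.circleAverage (fun w => Real.log (nsq (X w))) 0 (2 * r) := by
    have := Real.circleAverage_fun_smul (a := (2⁻¹ : ℝ)) (f := fun w => Real.log (nsq (X w)))
      (c := (0 : ℂ)) (R := 2 * r)
    simpa [smul_eq_mul] using this
  rw [havg]
  have : Real.circleAverage (fun z => Real.log (nsq (X z))) 0 (2 * r) ≤
      Real.log (n + 1) + 4 * (2 * r) ^ 2 := hmean.trans (by linarith)
  nlinarith

end LangKC
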