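import Pool.Agent.Lib_helper83.KC.Base

/-! Block RAT of the theorem on Kummer covers, by helper71. -/

/-! Block RAT (and common lemmas on membership in the Kummer cover) of MP_45e720_ag. -/

open Complex Metric Filter Topology

namespace LangKC

variable {N n : ℕ} {S : Set (MvPolynomial (Fin (N + 1)) ℂ)}
  {s : Fin (n + 1) → MvPolynomial (Fin (N + 1)) ℂ} {e : ℕ}

/-- vector version of membership in the Kummer cover -/
def RatMem (m : ℕ) (S : Set (MvPolynomial (Fin (N + 1)) ℂ))
    (s : Fin (n + 1) → MvPolynomial (Fin (N + 1)) ℂ) (x : Fin (N + 1) → ℂ)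
    (u : Fin (n + 1) → ℂ) : Prop :=
  x ∈ cone S ∧ ∀ i j, val s x i * u j ^ m = val s x j * u i ^ m

lemma RatMem.smul {m : ℕ} (h : Setup S s e) {x : Fin (N + 1) → ℂ} {u : Fin (n + 1) → ℂ}
    (hxu : RatMem m S s x u) (a b : ℂ) : RatMem m S s (a • x) (b • u) := by
  refine ⟨h.smul_mem hxu.1 a, fun i j => ?_⟩
  rw [h.val_smul]
  simp only [Pi.smul_apply, smul_eq_mul, mul_pow]
  linear_combination (a ^ e * b ^ m) * hxu.2 i j

lemma rat_mem_mk {m : ℕ} (h : Setup S s e) {x : Fin (N + 1) → ℂ} {u : Fin (n + 1) → ℂ}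
    (hx : x ≠ 0) (hu : u ≠ 0) :
    (Projectivization.mk ℂ x hx, Projectivization.mk ℂ u hu) ∈ kummer m S s ↔
      RatMem m S s x u := by
  obtain ⟨a, ha⟩ := Projectivization.exists_smul_eq_mk_rep ℂ x hx
  obtain ⟨b, hb⟩ := Projectivization.exists_smul_eq_mk_rep ℂ u hu
  have ha' : (Projectivization.mk ℂ x hx).rep = (a : ℂ) • x := ha.symm
  have hb' : (Projectivization.mk ℂ u hu).rep = (b : ℂ) • u := hb.symm
  have ha2 : x = ((a⁻¹ : ℂˣ) : ℂ) • (Projectivization.mk ℂ x hx).rep := by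
    rw [ha', smul_smul]; simp
  have hb2 : u = ((b⁻¹ : ℂˣ) : ℂ) • (Projectivization.mk ℂ u hu).rep := by
    rw [hb', smul_smul]; simp
  have key : (Projectivization.mk ℂ x hx, Projectivization.mk ℂ u hu) ∈ kummer m S s ↔
      RatMem m S s (Projectivization.mk ℂ x hx).rep (Projectivization.mk ℂ u hu).rep := Iff.rfl
  rw [key]
  constructor
  · intro h1
    rw [ha2, hb2]
    exact h1.smul h _ _
  · intro h1
    rw [ha', hb']
    exact h1.smul h _ _

lemma rat_closed (m : ℕ) (S : Set (MvPolynomial (Fin (N + 1)) ℂ))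
    (s : Fin (n + 1) → MvPolynomial (Fin (N + 1)) ℂ) :
    IsClosed {p : (Fin (N + 1) → ℂ) × (Fin (n + 1) → ℂ) | RatMem m S s p.1 p.2} := by
  have h1 : {p : (Fin (N + 1) → ℂ) × (Fin (n + 1) → ℂ) | RatMem m S s p.1 p.2} =
      (Prod.fst ⁻¹' cone S) ∩ ⋂ i, ⋂ j, {p : (Fin (N + 1) → ℂ) × (Fin (n + 1) → ℂ) |
        val s p.1 i * p.2 j ^ m = val s p.1 j * p.2 i ^ m} := by
    ext p
    simp [RatMem]
  rw [h1]
  refine ((isClosed_cone S).preimage continuous_fst).inter
    (isClosed_iInter fun i => isClosed_iInter fun j => isClosed_eq ?_ ?_)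
  · exact ((continuous_apply i).comp ((continuous_val s).comp continuous_fst)).mul (by fun_prop)
  · exact ((continuous_apply j).comp ((continuous_val s).comp continuous_fst)).mul (by fun_prop)

/-- a continuous family of vectors that satisfies the equations on a dense set satisfies them
everywhere -/
lemma ratmem_of_dense {m : ℕ} {T : Type*} [TopologicalSpace T] {D : Set T} (hD : Dense D)
    {x : T → Fin (N + 1) → ℂ} {u : T → Fin (n + 1) → ℂ} (hx : Continuous x) (hu : Continuous u)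
    (h : ∀ t ∈ D, RatMem m S s (x t) (u t)) (t : T) : RatMem m S s (x t) (u t) := by
  have h1 : IsClosed {t | RatMem m S s (x t) (u t)} :=
    (rat_closed m S s).preimage (hx.prodMk hu)
  have h2 : D ⊆ {t | RatMem m S s (x t) (u t)} := h
  have h3 := h1.closure_subset_iff.2 h2
  rw [hD.closure_eq] at h3
  exact h3 (Set.mem_univ t)

lemma Setup.val_zero (h : Setup S s e) : val s (0 : Fin (N + 1) → ℂ) = 0 := by
  have h1 := h.val_smul 0 0
  rw [smul_zero, zero_pow h.epos.ne', zero_smul] at h1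
  exact h1

lemma Setup.ne_zero_of_val (h : Setup S s e) {x : Fin (N + 1) → ℂ} {i : Fin (n + 1)}
    (hi : val s x i ≠ 0) : x ≠ 0 := by
  rintro rfl
  apply hi
  rw [h.val_zero]
  rfl

/-- values along a polynomial curve -/
lemma rat_eval_aeval (P : Fin (N + 1) → Polynomial ℂ) (F : MvPolynomial (Fin (N + 1)) ℂ) (t : ℂ) :
    MvPolynomial.eval (fun j => (P j).eval t) F = (MvPolynomial.aeval P F).eval t := by
  have h1 : (Polynomial.evalRingHom t).comp (MvPolynomial.aeval P).toRingHom =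
      MvPolynomial.eval fun j => (P j).eval t := by
    apply MvPolynomial.ringHom_ext
    · intro r
      simp
    · intro i
      simp
  exact (congrArg (fun f => f F) h1).symm

/-- the toric curve, taken at `t ^ m`, with the `m`-th roots: a point of the Kummer cover -/
lemma rat_curve (m : ℕ) {P : Fin (N + 1) → Polynomial ℂ} {c γ : Fin (n + 1) → ℂ}
    {a : Fin (n + 1) → ℕ} (hP : ∀ F ∈ S, MvPolynomial.aeval P F = 0)
    (hs : ∀ i, MvPolynomial.aeval P (s i) = Polynomial.C (c i) * Polynomial.X ^ a i)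
    (hγ : ∀ i, γ i ^ m = c i) (t : ℂ) :
    RatMem m S s (fun j => (P j).eval (t ^ m)) (fun i => γ i * t ^ a i) := by
  have hv : ∀ i, val s (fun j => (P j).eval (t ^ m)) i = (γ i * t ^ a i) ^ m := by
    intro i
    rw [val, rat_eval_aeval, hs i]
    simp only [Polynomial.eval_mul, Polynomial.eval_C, Polynomial.eval_pow, Polynomial.eval_X]
    rw [mul_pow, hγ i, ← pow_mul, ← pow_mul, mul_comm m]
  refine ⟨fun F hF => ?_, fun i j => ?_⟩
  · rw [rat_eval_aeval, hP F hF, Polynomial.eval_zero]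
  · rw [hv i, hv j, mul_comm]

/-- RAT -/
theorem rational_of_toric (h : Setup S s e) (m : ℕ) (hm : 0 < m) (ht : ToricCurve S s) :
    ¬ NoRationalCurves (kummer m S s) := by
  obtain ⟨P, c, a, hP, hs, i, j, hi, hj, hij⟩ := ht
  have hroot : ∀ i, ∃ γ : ℂ, γ ^ m = c i := fun i => IsAlgClosed.exists_pow_nat_eq (c i) hm
  choose γ hγ using hroot
  have hγ0 : ∀ i, c i ≠ 0 → γ i ≠ 0 := by
    intro i hi h0
    apply hi
    rw [← hγ i, h0, zero_pow hm.ne']
  intro hn
  have hev1 : ∀ z : ℂ, (fun k => (Polynomial.expand ℂ m (P k)).eval z) =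
      fun k => (P k).eval (z ^ m) := by
    intro z; funext k
    rw [Polynomial.expand_eval]
  have hev2 : ∀ z : ℂ, (fun k => (Polynomial.C (γ k) * Polynomial.X ^ a k).eval z) =
      fun k => γ k * z ^ a k := by
    intro z; funext k
    simp
  have hne1 : ∀ z : ℂ, z ≠ 0 → (fun k => (Polynomial.expand ℂ m (P k)).eval z) ≠ 0 := by
    intro z hz
    rw [hev1]
    apply h.ne_zero_of_val (i := i)
    rw [val, rat_eval_aeval, hs i]
    simp [hi, hz]
  have hne2 : ∀ z : ℂ, z ≠ 0 → (fun k => (Polynomial.C (γ k) * Polynomial.X ^ a k).eval z) ≠ 0 := by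
    intro z hz h0
    have h1 := congrFun h0 i
    simp [hγ0 i hi, hz] at h1
  have h1 := hn (fun k => Polynomial.expand ℂ m (P k))
    (fun k => Polynomial.C (γ k) * Polynomial.X ^ a k) (fun z hz hz' => by
      rw [rat_mem_mk h hz hz', hev1 z, hev2 z]
      exact rat_curve m hP hs hγ z) 1 2 (hne1 1 one_ne_zero) (hne2 1 one_ne_zero)
      (hne1 2 two_ne_zero) (hne2 2 two_ne_zero)
  have h2 := (Prod.mk.injEq _ _ _ _ ▸ h1).2
  rw [Projectivization.mk_eq_mk_iff'] at h2
  obtain ⟨b, hb⟩ := h2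
  have h3 := congrFun hb i
  have h4 := congrFun hb j
  simp only [Pi.smul_apply, smul_eq_mul, Polynomial.eval_mul, Polynomial.eval_C,
    Polynomial.eval_pow, Polynomial.eval_X, one_pow, mul_one] at h3 h4
  have h5 : b * 2 ^ a i = 1 :=
    mul_left_cancel₀ (hγ0 i hi) (by linear_combination h3)
  have h6 : b * 2 ^ a j = 1 :=
    mul_left_cancel₀ (hγ0 j hj) (by linear_combination h4)
  have h7 : (2 : ℂ) ^ a i = 2 ^ a j := by
    have hb0 : b ≠ 0 := by
      rintro rfl
      rw [zero_mul] at h5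
      exact zero_ne_one h5
    exact mul_left_cancel₀ hb0 (h5.trans h6.symm)
  have h8 : (2 : ℕ) ^ a i = 2 ^ a j := by exact_mod_cast h7
  exact hij (Nat.pow_right_injective le_rfl h8)

end LangKC
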