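import Pool.Agent.Lib_helper83.KC.Base
import Pool.Agent.Lib_helper83.KCA.RAT

/-! Block BRA of the theorem on Kummer covers, by helper71. -/

/-! Block BRA of MP_45e720_ag. -/

open Complex Metric Filter Topology

namespace LangKC

variable {N n : ℕ} {S : Set (MvPolynomial (Fin (N + 1)) ℂ)}
  {s : Fin (n + 1) → MvPolynomial (Fin (N + 1)) ℂ} {e : ℕ}

/-- division of a polynomial curve by the greatest common divisor of its coordinates -/
lemma bra_div {k : ℕ} (P : Fin (k + 1) → Polynomial ℂ) (z : ℂ)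
    (hz : (fun i => (P i).eval z) ≠ 0) :
    ∃ (g : Polynomial ℂ) (Q : Fin (k + 1) → Polynomial ℂ), g ≠ 0 ∧
      (∀ z : ℂ, (fun i => (Q i).eval z) ≠ 0) ∧
      ∀ z : ℂ, (fun i => (P i).eval z) = g.eval z • fun i => (Q i).eval z := by
  obtain ⟨g, hg⟩ := IsPrincipalIdealRing.principal (Ideal.span (Set.range P))
  have hg' : Ideal.span (Set.range P) = Ideal.span {g} := hg
  have hdiv : ∀ i, g ∣ P i := by
    intro i
    rw [← Ideal.mem_span_singleton, ← hg']
    exact Ideal.subset_span ⟨i, rfl⟩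
  choose Q hQ using hdiv
  have hg0 : g ≠ 0 := by
    rintro rfl
    apply hz
    funext i
    simp [hQ i]
  obtain ⟨R, hR⟩ : ∃ R : Fin (k + 1) → Polynomial ℂ, ∑ i, R i * P i = g := by
    have : g ∈ Ideal.span (Set.range P) := by
      rw [hg']; exact Ideal.mem_span_singleton_self g
    rw [Ideal.mem_span_range_iff_exists_fun] at this
    exact this
  have hRQ : ∑ i, R i * Q i = 1 := by
    apply mul_left_cancel₀ hg0
    rw [mul_one, Finset.mul_sum]
    conv_rhs => rw [← hR]
    apply Finset.sum_congr rfl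
    intro i _
    rw [hQ i]; ring
  refine ⟨g, Q, hg0, ?_, ?_⟩
  · intro z h0
    have h1 := congrArg (Polynomial.eval z) hRQ
    rw [Polynomial.eval_finsetSum] at h1
    have h2 : ∀ i, (Q i).eval z = 0 := fun i => congrFun h0 i
    simp [h2] at h1
  · intro z
    funext i
    simp only [Pi.smul_apply, smul_eq_mul]
    rw [hQ i, Polynomial.eval_mul]

lemma bra_holo {k : ℕ} (Q : Fin (k + 1) → Polynomial ℂ)
    (hQ : ∀ z : ℂ, (fun i => (Q i).eval z) ≠ 0) :
    LangFC.IsHolo fun z : ℂ => Projectivization.mk ℂ (fun i => (Q i).eval z) (hQ z) := by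
  intro a
  refine ⟨fun z i => (Q i).eval z, Eventually.of_forall fun z => ?_,
    Eventually.of_forall fun z => ⟨hQ z, rfl⟩⟩
  exact differentiableAt_pi.2 fun i => (Q i).differentiable.differentiableAt

lemma bra_mk {k : ℕ} {v w : Fin (k + 1) → ℂ} {c : ℂ} (h : v = c • w) (hv : v ≠ 0) (hw : w ≠ 0) :
    Projectivization.mk ℂ v hv = Projectivization.mk ℂ w hw := by
  rw [Projectivization.mk_eq_mk_iff']
  exact ⟨c, h.symm⟩

/-- BRA -/
theorem brody_rational (h : Setup S s e) (m : ℕ) (hb : BrodyHyperbolic (kummer m S s)) :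
    NoRationalCurves (kummer m S s) := by
  intro P Q hPQ z z' hz kz hz' kz'
  obtain ⟨g, P', hg, hP', hPP⟩ := bra_div P z hz
  obtain ⟨f, Q', hf, hQ', hQQ⟩ := bra_div Q z kz
  have hmem : ∀ z : ℂ, RatMem m S s (fun i => (P' i).eval z) (fun i => (Q' i).eval z) := by
    have hdense : Dense {z : ℂ | (g * f).eval z ≠ 0} := by
      have : {z : ℂ | (g * f).eval z ≠ 0} = (((g * f).rootSet ℂ)ᶜ : Set ℂ) := by
        ext x
        simp [Polynomial.mem_rootSet, hg, hf]
      rw [this]
      exact (Set.Finite.countable ((g * f).rootSet_finite ℂ)).dense_compl ℝ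
    apply ratmem_of_dense hdense
    · exact continuous_pi fun i => (P' i).continuous
    · exact continuous_pi fun i => (Q' i).continuous
    · intro z hz
      have hz1 : g.eval z ≠ 0 := by
        intro h0
        apply hz
        rw [Polynomial.eval_mul, h0, zero_mul]
      have hz2 : f.eval z ≠ 0 := by
        intro h0
        apply hz
        rw [Polynomial.eval_mul, h0, mul_zero]
      have hne1 : (fun i => (P i).eval z) ≠ 0 := by
        rw [hPP z]
        exact smul_ne_zero hz1 (hP' z)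
      have hne2 : (fun i => (Q i).eval z) ≠ 0 := by
        rw [hQQ z]
        exact smul_ne_zero hz2 (hQ' z)
      have h1 := (rat_mem_mk h hne1 hne2).1 (hPQ z hne1 hne2)
      have h2 := h1.smul h (g.eval z)⁻¹ (f.eval z)⁻¹
      rw [hPP z, hQQ z, smul_smul, smul_smul, inv_mul_cancel₀ hz1, inv_mul_cancel₀ hz2,
        one_smul, one_smul] at h2
      exact h2
  have h1 := hb _ _ (bra_holo P' hP') (bra_holo Q' hQ')
    (fun z => (rat_mem_mk h (hP' z) (hQ' z)).2 (hmem z)) z z'
  rw [bra_mk (hPP z) hz (hP' z), bra_mk (hPP z') hz' (hP' z'), bra_mk (hQQ z) kz (hQ' z),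
    bra_mk (hQQ z') kz' (hQ' z')]
  exact h1

end LangKC
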