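import Pool.Agent.Lib_helper83.KC.Base

/-! Block BRP of the theorem on Kummer covers, by helper80. -/

open Complex Metric Filter Topology

namespace LangKC

/-- BRP -/
theorem brody_point (g : ℂ → ℝ) (c : ℂ) (ρ R : ℝ) (hR : 0 < R) (hρ : 0 < ρ)
    (hg : ContinuousOn g (closedBall c ρ)) (h0 : ∀ z ∈ closedBall c ρ, 0 ≤ g z)
    (hc : 2 * R ≤ ρ * g c) :
    ∃ a ∈ ball c ρ, 0 < g a ∧ ∀ z, ‖z - a‖ < R / g a → z ∈ ball c ρ ∧ g z ≤ 2 * g a := by
  have hcont : ContinuousOn (fun z => (ρ - ‖z - c‖) * g z) (closedBall c ρ) := by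
    refine ContinuousOn.mul ?_ hg
    fun_prop
  obtain ⟨a, ha, hmax⟩ := (isCompact_closedBall c ρ).exists_isMaxOn
    ⟨c, mem_closedBall_self hρ.le⟩ hcont
  have h1 : ρ * g c ≤ (ρ - ‖a - c‖) * g a := by
    have := hmax (mem_closedBall_self hρ.le : c ∈ closedBall c ρ)
    simpa using this
  have hac : ‖a - c‖ ≤ ρ := by
    rw [mem_closedBall, dist_eq_norm] at ha
    exact ha
  have hga := h0 a ha
  have hpos : 0 < (ρ - ‖a - c‖) * g a := by linarith
  have hga' : 0 < g a := by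
    rcases hga.eq_or_lt with h | h
    · rw [← h, mul_zero] at hpos
      exact absurd hpos (lt_irrefl _)
    · exact h
  have hd : 0 < ρ - ‖a - c‖ := (pos_iff_pos_of_mul_pos hpos).2 hga'
  refine ⟨a, ?_, hga', fun z hz => ?_⟩
  · rw [mem_ball, dist_eq_norm]
    linarith
  · have h2 : R / g a ≤ (ρ - ‖a - c‖) / 2 := by
      rw [div_le_div_iff₀ hga' two_pos]
      linarith
    have h3 : ‖z - c‖ ≤ ‖z - a‖ + ‖a - c‖ := by
      have := norm_add_le (z - a) (a - c)
      simpa using this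
    have h4 : (ρ - ‖a - c‖) / 2 ≤ ρ - ‖z - c‖ := by linarith
    have hz1 : z ∈ ball c ρ := by
      rw [mem_ball, dist_eq_norm]
      linarith
    refine ⟨hz1, ?_⟩
    have h5 := hmax (ball_subset_closedBall hz1)
    simp only at h5
    have h6 := h0 z (ball_subset_closedBall hz1)
    have h7 : (ρ - ‖a - c‖) / 2 * g z ≤ (ρ - ‖a - c‖) * g a :=
      (mul_le_mul_of_nonneg_right h4 h6).trans h5
    have h8 : (ρ - ‖a - c‖) * (g z) ≤ (ρ - ‖a - c‖) * (2 * g a) := by linarith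
    exact le_of_mul_le_mul_left h8 hd

end LangKC
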