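import Pool.Agent.Lib_helper83.KC.Base

/-! Block CBD of the theorem on Kummer covers, by helper7. -/

/-! Block CBD of the theorem on Kummer covers. -/

open Complex Metric Filter Topology

namespace LangKC

variable {N n : ℕ} {S : Set (MvPolynomial (Fin (N + 1)) ℂ)}
  {s : Fin (n + 1) → MvPolynomial (Fin (N + 1)) ℂ} {e : ℕ}

theorem cone_bound (h : Setup S s e) :
    ∃ C : ℝ, 0 < C ∧ ∀ x ∈ cone S, ∀ j, ‖x j‖ ^ e ≤ C * ∑ i, ‖val s x i‖ := by
  set K : Set (Fin (N + 1) → ℂ) := cone S ∩ sphere 0 1 with hK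
  have hKc : IsCompact K := (isCompact_sphere 0 1).inter_left (isClosed_cone S)
  have hcont : Continuous fun x : Fin (N + 1) → ℂ => ∑ i, ‖val s x i‖ :=
    continuous_finsetSum _ fun i _ => ((continuous_apply i).comp (continuous_val s)).norm
  have hnn : ∀ x : Fin (N + 1) → ℂ, 0 ≤ ∑ i, ‖val s x i‖ := fun x =>
    Finset.sum_nonneg fun i _ => norm_nonneg _
  -- a positive lower bound on K
  have hc : ∃ c : ℝ, 0 < c ∧ ∀ x ∈ K, c ≤ ∑ i, ‖val s x i‖ := by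
    by_cases hne : K.Nonempty
    · obtain ⟨w, hw, hmin⟩ := hKc.exists_isMinOn hne hcont.continuousOn
      refine ⟨∑ i, ‖val s w i‖, ?_, fun x hx => hmin hx⟩
      rcases (hnn w).eq_or_lt with h0 | h0
      · exfalso
        have h1 : ∀ i ∈ (Finset.univ : Finset (Fin (n + 1))), ‖val s w i‖ = 0 :=
          (Finset.sum_eq_zero_iff_of_nonneg fun i _ => norm_nonneg _).1 h0.symm
        have h2 : val s w = 0 := by
          funext i
          exact norm_eq_zero.1 (h1 i (Finset.mem_univ i))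
        have h3 := h.fin w hw.1 h2
        have h4 : ‖w‖ = 1 := by simpa using hw.2
        rw [h3, norm_zero] at h4
        exact zero_ne_one h4
      · exact h0
    · exact ⟨1, one_pos, fun x hx => absurd ⟨x, hx⟩ hne⟩
  obtain ⟨c, hc0, hcm⟩ := hc
  refine ⟨c⁻¹, inv_pos.2 hc0, fun x hx j => ?_⟩
  by_cases hx0 : x = 0
  · subst hx0
    rw [Pi.zero_apply, norm_zero, zero_pow h.epos.ne']
    exact mul_nonneg (inv_nonneg.2 hc0.le) (hnn 0)
  have hxn : 0 < ‖x‖ := norm_pos_iff.2 hx0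
  set t : ℂ := ((‖x‖⁻¹ : ℝ) : ℂ) with ht
  have htn : ‖t‖ = ‖x‖⁻¹ := by
    rw [ht, Complex.norm_real, Real.norm_eq_abs, abs_of_pos (inv_pos.2 hxn)]
  have hy : t • x ∈ K := by
    refine ⟨h.smul_mem hx t, ?_⟩
    rw [mem_sphere_zero_iff_norm, norm_smul, htn, inv_mul_cancel₀ hxn.ne']
  have h1 := hcm _ hy
  rw [h.val_smul x t] at h1
  have h2 : ∑ i, ‖(t ^ e • val s x) i‖ = (‖x‖⁻¹) ^ e * ∑ i, ‖val s x i‖ := by
    rw [Finset.mul_sum]
    refine Finset.sum_congr rfl fun i _ => ?_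
    rw [Pi.smul_apply, norm_smul, norm_pow, htn]
  rw [h2] at h1
  have h3 : ‖x‖ ^ e * c ≤ ∑ i, ‖val s x i‖ := by
    calc ‖x‖ ^ e * c ≤ ‖x‖ ^ e * ((‖x‖⁻¹) ^ e * ∑ i, ‖val s x i‖) :=
          mul_le_mul_of_nonneg_left h1 (by positivity)
      _ = ∑ i, ‖val s x i‖ := by
        rw [← mul_assoc, ← mul_pow, mul_inv_cancel₀ hxn.ne', one_pow, one_mul]
  have h4 : ‖x j‖ ^ e ≤ ‖x‖ ^ e := pow_le_pow_left₀ (norm_nonneg _) (norm_le_pi_norm x j) e
  calc ‖x j‖ ^ e ≤ ‖x‖ ^ e := h4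
    _ = c⁻¹ * (‖x‖ ^ e * c) := by field_simp
    _ ≤ c⁻¹ * ∑ i, ‖val s x i‖ := mul_le_mul_of_nonneg_left h3 (inv_nonneg.2 hc0.le)

end LangKC
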