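import Pool.Agent.Lib_helper83.KC.Base

/-! Block EDC of the theorem on Kummer covers, by helper67. -/

open Complex Metric Filter Topology

namespace LangKC

variable {n : ℕ}

lemma edc_zero {V : ℂ → Fin (n + 1) → ℂ} {z : ℂ} (h0 : V z ≠ 0) (hE : E2 V z = 0)
    (i j : Fin (n + 1)) :
    V z i * deriv (fun w => V w j) z = V z j * deriv (fun w => V w i) z := by
  have hpos := nsq_pos h0
  unfold E2 at hE
  rw [div_eq_zero_iff] at hE
  rcases hE with hE | hE
  · rw [Finset.sum_eq_zero_iff_of_nonneg
      (fun i _ => Finset.sum_nonneg fun j _ => by positivity)] at hE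
    have h1 := hE i (Finset.mem_univ i)
    rw [Finset.sum_eq_zero_iff_of_nonneg (fun j _ => by positivity)] at h1
    have h2 := h1 j (Finset.mem_univ j)
    have h3 := pow_eq_zero_iff (two_ne_zero) |>.1 h2
    exact sub_eq_zero.1 (norm_eq_zero.1 h3)
  · exfalso
    have : 0 < 2 * nsq (V z) ^ 2 := by positivity
    exact this.ne' hE

theorem E2_const (V : ℂ → Fin (n + 1) → ℂ) (c : ℂ) (R : ℝ)
    (hV : ∀ i, DifferentiableOn ℂ (fun z => V z i) (ball c R)) (h0 : ∀ z ∈ ball c R, V z ≠ 0)
    (hE : ∀ z ∈ ball c R, E2 V z = 0) :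
    ∀ z ∈ ball c R, ∀ z' ∈ ball c R, ∃ l : ℂ, l ≠ 0 ∧ V z' = l • V z := by
  intro z hz z' hz'
  obtain ⟨k, hk⟩ := Function.ne_iff.1 (h0 z hz)
  have hk' : V z k ≠ 0 := hk
  have hball : IsOpen (ball c R) := isOpen_ball
  -- the key identity
  have key : ∀ j, ∀ w ∈ ball c R, V z k * V w j - V z j * V w k = 0 := by
    intro j
    have hg : DifferentiableOn ℂ (fun w => V z k * V w j - V z j * V w k) (ball c R) :=
      ((hV j).const_mul _).sub ((hV k).const_mul _)
    have hne : ∀ᶠ w in 𝓝 z, V w k ≠ 0 :=
      (((hV k).continuousOn.continuousAt (hball.mem_nhds hz))).eventually_ne hk'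
    have hin : ∀ᶠ w in 𝓝 z, w ∈ ball c R := hball.mem_nhds hz
    obtain ⟨r, hr, hrb⟩ := Metric.eventually_nhds_iff_ball.1 (hne.and hin)
    have hconst : ∀ w ∈ ball z r, V w j / V w k = V z j / V z k := by
      intro w hw
      have hdiff : DifferentiableOn ℂ (fun w => V w j / V w k) (ball z r) := by
        apply DifferentiableOn.div
        · exact (hV j).mono fun w hw => (hrb w hw).2
        · exact (hV k).mono fun w hw => (hrb w hw).2
        · exact fun w hw => (hrb w hw).1
      have hder : ∀ w ∈ ball z r, deriv (fun w => V w j / V w k) w = 0 := by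
        intro w hw
        have h1 : DifferentiableAt ℂ (fun w => V w j) w :=
          (hV j).differentiableAt (hball.mem_nhds (hrb w hw).2)
        have h2 : DifferentiableAt ℂ (fun w => V w k) w :=
          (hV k).differentiableAt (hball.mem_nhds (hrb w hw).2)
        rw [deriv_fun_div h1 h2 (hrb w hw).1]
        have h3 := edc_zero (h0 w (hrb w hw).2) (hE w (hrb w hw).2) k j
        have h4 : deriv (fun w => V w j) w * V w k - V w j * deriv (fun w => V w k) w = 0 := by
          rw [← h3]; ring
        rw [h4, zero_div]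
      have := (convex_ball z r).is_const_of_fderivWithin_eq_zero (𝕜 := ℂ) hdiff (by
        intro w hw
        rw [fderivWithin_of_isOpen isOpen_ball hw]
        ext
        simp only [_root_.zero_apply]
        rw [fderiv_apply_one_eq_deriv]
        exact hder w hw) hw (mem_ball_self hr)
      exact this
    have hev : (fun w => V z k * V w j - V z j * V w k) =ᶠ[𝓝 z] 0 := by
      filter_upwards [ball_mem_nhds z hr] with w hw
      have h1 := hconst w hw
      have h2 := (hrb w hw).1
      rw [div_eq_div_iff h2 hk'] at h1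
      simp only [Pi.zero_apply]
      rw [sub_eq_zero, mul_comm, h1]
    have := (hg.analyticOnNhd hball).eqOn_zero_of_preconnected_of_eventuallyEq_zero
      (convex_ball c R).isPreconnected hz hev
    exact fun w hw => this hw
  have h1 : V z' = (V z' k / V z k) • V z := by
    funext j
    have := key j z' hz'
    simp only [Pi.smul_apply, smul_eq_mul]
    field_simp
    linear_combination this
  refine ⟨V z' k / V z k, ?_, h1⟩
  intro h2
  rw [h2, zero_smul] at h1
  exact h0 z' hz' h1

end LangKC
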