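import Pool.Agent.Lib_helper83.KC.Base

/-! Block INT of the theorem on Kummer covers, by helper7. -/

/-! Block INT of the theorem on Kummer covers. -/

open Complex Metric Filter Topology

namespace LangKC

variable {N n : ℕ} {S : Set (MvPolynomial (Fin (N + 1)) ℂ)}
  {s : Fin (n + 1) → MvPolynomial (Fin (N + 1)) ℂ} {e : ℕ}

section graded

attribute [local instance] MvPolynomial.gradedAlgebra

lemma int_hc {σ : Type} (c q : MvPolynomial σ ℂ) {e d : ℕ} (hq : q.IsHomogeneous e) (h : e ≤ d) :
    MvPolynomial.homogeneousComponent d (c * q) =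
      MvPolynomial.homogeneousComponent (d - e) c * q := by
  have h1 := DirectSum.coe_decompose_mul_of_right_mem_of_le
    (MvPolynomial.homogeneousSubmodule σ ℂ) (a := c) (b := q) (n := d) hq h
  have h2 : ∀ (p : MvPolynomial σ ℂ) (i : ℕ),
      ((DirectSum.decompose (MvPolynomial.homogeneousSubmodule σ ℂ) p i :
        MvPolynomial.homogeneousSubmodule σ ℂ i) : MvPolynomial σ ℂ) =
      MvPolynomial.homogeneousComponent i p := fun p i =>
    MvPolynomial.decomposition.decompose'_apply p i
  rw [h2, h2] at h1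
  exact h1

lemma int_mem {σ : Type} {T : Set (MvPolynomial σ ℂ)} (hT : ∀ F ∈ T, ∃ d, F.IsHomogeneous d)
    {p : MvPolynomial σ ℂ} (hp : p ∈ Ideal.span T) (d : ℕ) :
    MvPolynomial.homogeneousComponent d p ∈ Ideal.span T := by
  have h1 : (Ideal.span T).IsHomogeneous (MvPolynomial.homogeneousSubmodule σ ℂ) :=
    Ideal.homogeneous_span _ _ fun x hx => hT x hx
  exact MvPolynomial.homogeneousComponent_mem_of_mem h1 hp d

end graded

/-- every homogeneous polynomial of large degree is in the ideal -/
lemma int_large (h : Setup S s e) : ∃ D : ℕ, ∀ d, D ≤ d → ∀ g : MvPolynomial (Fin (N + 1)) ℂ,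
    g.IsHomogeneous d → g ∈ Ideal.span S ⊔ Ideal.span (Set.range s) := by
  classical
  set J : Ideal (MvPolynomial (Fin (N + 1)) ℂ) := Ideal.span S ⊔ Ideal.span (Set.range s) with hJ
  have hX : ∀ j : Fin (N + 1), ∃ M : ℕ, (MvPolynomial.X j : MvPolynomial (Fin (N + 1)) ℂ) ^ M ∈ J := by
    intro j
    have h1 : (MvPolynomial.X j : MvPolynomial (Fin (N + 1)) ℂ) ∈ J.radical := by
      rw [← MvPolynomial.vanishingIdeal_zeroLocus_eq_radical (K := ℂ)]
      intro x hx
      have hxS : x ∈ cone S := by
        intro F hF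
        have := hx F (le_sup_left (a := Ideal.span S) (Ideal.subset_span hF))
        rwa [← MvPolynomial.aeval_eq_eval]
      have hxs : val s x = 0 := by
        funext i
        have := hx (s i) (le_sup_right (a := Ideal.span S) (Ideal.subset_span ⟨i, rfl⟩))
        rw [MvPolynomial.aeval_eq_eval] at this
        exact this
      have hx0 := h.fin x hxS hxs
      rw [MvPolynomial.aeval_X, hx0]
      rfl
    exact h1
  choose M hM using hX
  set M' := ∑ j, M j with hM'
  refine ⟨(N + 1) * M' + 1, fun d hd g hg => ?_⟩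
  rw [g.as_sum]
  refine J.sum_mem fun m hm => ?_
  have hdeg : m.degree = d := by
    by_contra hne
    exact (MvPolynomial.mem_support_iff.1 hm) (hg.coeff_eq_zero hne)
  have hex : ∃ j, M' ≤ m j := by
    by_contra hcon
    push Not at hcon
    have h1 : m.degree ≤ ∑ j : Fin (N + 1), M' := by
      rw [Finsupp.degree_eq_sum]
      exact Finset.sum_le_sum fun j _ => (hcon j).le
    rw [Finset.sum_const, Finset.card_univ, Fintype.card_fin, smul_eq_mul] at h1
    omega
  obtain ⟨j, hj⟩ := hex
  have hMj : M j ≤ m j := le_trans (Finset.single_le_sum (fun _ _ => Nat.zero_le _)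
    (Finset.mem_univ j)) hj
  have hle : Finsupp.single j (M j) ≤ m := by
    rw [Finsupp.single_le_iff]
    exact hMj
  have hdec : MvPolynomial.monomial m (MvPolynomial.coeff m g) =
      MvPolynomial.monomial (m - Finsupp.single j (M j)) (MvPolynomial.coeff m g) *
        MvPolynomial.X j ^ M j := by
    rw [MvPolynomial.X_pow_eq_monomial, MvPolynomial.monomial_mul, mul_one,
      tsub_add_cancel_of_le hle]
  rw [hdec]
  exact J.mul_mem_left _ (hM j)

lemma int_finite (h : Setup S s e) :
    ((Ideal.Quotient.mk (Ideal.span S)).comp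
      (MvPolynomial.aeval s : MvPolynomial (Fin (n + 1)) ℂ →ₐ[ℂ]
        MvPolynomial (Fin (N + 1)) ℂ).toRingHom).Finite := by
  classical
  obtain ⟨D, hD⟩ := int_large h
  set I0 := Ideal.span S with hI0
  set φ := (Ideal.Quotient.mk I0).comp
      (MvPolynomial.aeval s : MvPolynomial (Fin (n + 1)) ℂ →ₐ[ℂ]
        MvPolynomial (Fin (N + 1)) ℂ).toRingHom with hφ
  let : Algebra (MvPolynomial (Fin (n + 1)) ℂ) (MvPolynomial (Fin (N + 1)) ℂ ⧸ I0) := φ.toAlgebra
  have hsmul : ∀ (r : MvPolynomial (Fin (n + 1)) ℂ) (b : MvPolynomial (Fin (N + 1)) ℂ ⧸ I0),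
      r • b = φ r * b := fun r b => rfl
  set G : Set (MvPolynomial (Fin (N + 1)) ℂ ⧸ I0) :=
    (fun m : Fin (N + 1) →₀ ℕ => Ideal.Quotient.mk I0 (MvPolynomial.monomial m 1)) ''
      {m | m.degree < D + e} with hG
  have hGfin : G.Finite := by
    apply Set.Finite.image
    exact (Finsupp.finite_of_degree_le (D + e)).subset fun m (hm : m.degree < D + e) => hm.le
  have key : ∀ d : ℕ, ∀ g : MvPolynomial (Fin (N + 1)) ℂ, g.IsHomogeneous d →
      Ideal.Quotient.mk I0 g ∈ Submodule.span (MvPolynomial (Fin (n + 1)) ℂ) G := by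
    intro d
    induction d using Nat.strong_induction_on with
    | _ d ih =>
      intro g hg
      by_cases hd : d < D + e
      · rw [g.as_sum, map_sum]
        refine Submodule.sum_mem _ fun m hm => ?_
        have hdeg : m.degree = d := by
          by_contra hne
          exact (MvPolynomial.mem_support_iff.1 hm) (hg.coeff_eq_zero hne)
        have h1 : Ideal.Quotient.mk I0 (MvPolynomial.monomial m (MvPolynomial.coeff m g)) =
            (MvPolynomial.C (MvPolynomial.coeff m g) : MvPolynomial (Fin (n + 1)) ℂ) •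
              Ideal.Quotient.mk I0 (MvPolynomial.monomial m 1) := by
          rw [hsmul, hφ]
          simp only [RingHom.comp_apply, AlgHom.toRingHom_eq_coe, RingHom.coe_coe,
            MvPolynomial.algHom_C]
          rw [← map_mul, MvPolynomial.algebraMap_eq, MvPolynomial.C_mul_monomial, mul_one]
        rw [h1]
        refine Submodule.smul_mem _ _ (Submodule.subset_span ⟨m, ?_, rfl⟩)
        change m.degree < D + e
        rw [hdeg]
        exact hd
      · push Not at hd
        have h1 := hD d (by omega) g hg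
        obtain ⟨f, hf, q, hq, hfq⟩ := Submodule.mem_sup.1 h1
        obtain ⟨c, hc⟩ := (Ideal.mem_span_range_iff_exists_fun).1 hq
        have h2 : g = MvPolynomial.homogeneousComponent d g := by
          rw [MvPolynomial.homogeneousComponent_of_mem hg, if_pos rfl]
        have h3 : g = MvPolynomial.homogeneousComponent d f +
            ∑ i, MvPolynomial.homogeneousComponent (d - e) (c i) * s i := by
          conv_lhs => rw [h2, ← hfq, ← hc]
          rw [map_add, map_sum]
          congr 1
          exact Finset.sum_congr rfl fun i _ => int_hc _ _ (h.homs i) (by omega)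
        have h4 : Ideal.Quotient.mk I0 (MvPolynomial.homogeneousComponent d f) = 0 :=
          Ideal.Quotient.eq_zero_iff_mem.2 (int_mem h.homS hf d)
        rw [h3, map_add, h4, zero_add, map_sum]
        refine Submodule.sum_mem _ fun i _ => ?_
        have h5 : Ideal.Quotient.mk I0 (MvPolynomial.homogeneousComponent (d - e) (c i) * s i) =
            (MvPolynomial.X i : MvPolynomial (Fin (n + 1)) ℂ) •
              Ideal.Quotient.mk I0 (MvPolynomial.homogeneousComponent (d - e) (c i)) := by
          rw [hsmul, hφ]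
          simp only [RingHom.comp_apply, AlgHom.toRingHom_eq_coe, RingHom.coe_coe,
            MvPolynomial.aeval_X]
          rw [← map_mul, mul_comm]
        rw [h5]
        refine Submodule.smul_mem _ _ (ih (d - e) ?_ _ ?_)
        · have := h.epos
          omega
        · exact MvPolynomial.homogeneousComponent_isHomogeneous _ _
  have htop : Submodule.span (MvPolynomial (Fin (n + 1)) ℂ) G = ⊤ := by
    rw [eq_top_iff]
    intro b _
    obtain ⟨g, rfl⟩ := Ideal.Quotient.mk_surjective b
    rw [← MvPolynomial.sum_homogeneousComponent g, map_sum]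
    exact Submodule.sum_mem _ fun i _ => key i _
      (MvPolynomial.homogeneousComponent_isHomogeneous _ _)
  exact ⟨⟨hGfin.toFinset, by rw [Set.Finite.coe_toFinset]; exact htop⟩⟩

theorem integrality (h : Setup S s e) (j : Fin (N + 1)) :
    ∃ P : Polynomial (MvPolynomial (Fin (n + 1)) ℂ), P.Monic ∧
      ∀ x ∈ cone S, (P.map (MvPolynomial.eval (val s x))).eval (x j) = 0 := by
  set I0 := Ideal.span S with hI0
  set φ0 := (MvPolynomial.aeval s : MvPolynomial (Fin (n + 1)) ℂ →ₐ[ℂ]
        MvPolynomial (Fin (N + 1)) ℂ).toRingHom with hφ0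
  obtain ⟨P, hP, hPe⟩ := (int_finite h).to_isIntegral (Ideal.Quotient.mk I0 (MvPolynomial.X j))
  refine ⟨P, hP, fun x hx => ?_⟩
  have h1 : Ideal.Quotient.mk I0 (P.eval₂ φ0 (MvPolynomial.X j)) = 0 := by
    rw [Polynomial.hom_eval₂]
    exact hPe
  have h2 : P.eval₂ φ0 (MvPolynomial.X j) ∈ I0 := Ideal.Quotient.eq_zero_iff_mem.1 h1
  have h3 : I0 ≤ RingHom.ker (MvPolynomial.eval x : MvPolynomial (Fin (N + 1)) ℂ →+* ℂ) := by
    rw [hI0, Ideal.span_le]
    intro F hF
    exact hx F hF
  have h4 : MvPolynomial.eval x (P.eval₂ φ0 (MvPolynomial.X j)) = 0 := h3 h2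
  rw [Polynomial.hom_eval₂, MvPolynomial.eval_X] at h4
  have h5 : (MvPolynomial.eval x : MvPolynomial (Fin (N + 1)) ℂ →+* ℂ).comp φ0 =
      (MvPolynomial.eval (val s x) : MvPolynomial (Fin (n + 1)) ℂ →+* ℂ) := by
    apply MvPolynomial.ringHom_ext
    · intro r
      simp [hφ0]
    · intro i
      simp [hφ0, val]
  rw [h5] at h4
  rw [Polynomial.eval_map]
  exact h4

end LangKC
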