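import Pool.Agent.Lib_helper83.KC.Base

/-! Block LOG of the theorem on Kummer covers, by helper7. -/

/-! Blocks LOG and HUR of the theorem on Kummer covers. -/

open Complex Metric Filter Topology

namespace LangKC

/-- logarithms on a preconnected open set on which `f'/f` has a primitive -/
lemma log_aux (f : ℂ → ℂ) {U : Set ℂ} (hU : IsOpen U) (hc : IsPreconnected U)
    (hf : DifferentiableOn ℂ f U) (h0 : ∀ z ∈ U, f z ≠ 0) (h00 : (0 : ℂ) ∈ U)
    (hex : IsExactOn (fun z => deriv f z / f z) U) :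
    ∃ h : ℂ → ℂ, DifferentiableOn ℂ h U ∧ ∀ z ∈ U, f z = Complex.exp (h z) := by
  obtain ⟨g, hg0, hg⟩ := hex.with_val_at 0 (Complex.log (f 0))
  have hgd : DifferentiableOn ℂ g U := fun z hz => (hg z hz).differentiableAt.differentiableWithinAt
  refine ⟨g, hgd, ?_⟩
  have hder : ∀ z ∈ U, HasDerivAt (fun w => f w * Complex.exp (-g w)) 0 z := by
    intro z hz
    have h1 : HasDerivAt f (deriv f z) z := (hf.differentiableAt (hU.mem_nhds hz)).hasDerivAt
    have h2 : HasDerivAt (fun w => Complex.exp (-g w))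
        (Complex.exp (-g z) * -(deriv f z / f z)) z := (hg z hz).neg.cexp
    have h3 := h1.mul h2
    have hz0 := h0 z hz
    have h4 : deriv f z * Complex.exp (-g z) + f z * (Complex.exp (-g z) * -(deriv f z / f z)) = 0 := by
      field_simp
      ring
    rw [← h4]
    exact h3
  have hconst : ∀ z ∈ U, f z * Complex.exp (-g z) = f 0 * Complex.exp (-g 0) := by
    intro z hz
    have hd : DifferentiableOn ℂ (fun w => f w * Complex.exp (-g w)) U :=
      fun w hw => (hder w hw).differentiableAt.differentiableWithinAt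
    have := hU.is_const_of_deriv_eq_zero hc hd (fun w hw => (hder w hw).deriv) hz h00
    exact this
  intro z hz
  have h1 := hconst z hz
  rw [hg0, Complex.exp_neg, Complex.exp_neg, Complex.exp_log (h0 0 h00),
    mul_inv_cancel₀ (h0 0 h00)] at h1
  have h2 : Complex.exp (g z) ≠ 0 := Complex.exp_ne_zero _
  field_simp at h1
  exact h1

theorem exists_log (f : ℂ → ℂ) (hf : Differentiable ℂ f) (h0 : ∀ z, f z ≠ 0) :
    ∃ h : ℂ → ℂ, Differentiable ℂ h ∧ ∀ z, f z = Complex.exp (h z) := by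
  have hd : Differentiable ℂ (fun z => deriv f z / f z) :=
    (hf.deriv).div hf h0
  obtain ⟨h, h1, h2⟩ := log_aux f isOpen_univ isPreconnected_univ hf.differentiableOn
    (fun z _ => h0 z) (Set.mem_univ _) hd.isExactOn_univ
  exact ⟨h, differentiableOn_univ.1 h1, fun z => h2 z (Set.mem_univ _)⟩

theorem exists_root (f : ℂ → ℂ) (R : ℝ) (e : ℕ) (he : 0 < e)
    (hf : DifferentiableOn ℂ f (ball 0 R)) (h0 : ∀ z ∈ ball (0 : ℂ) R, f z ≠ 0) :
    ∃ l : ℂ → ℂ, DifferentiableOn ℂ l (ball 0 R) ∧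
      ∀ z ∈ ball (0 : ℂ) R, l z ≠ 0 ∧ l z ^ e = f z := by
  rcases le_or_gt R 0 with hR | hR
  · refine ⟨fun _ => 1, differentiableOn_const _, fun z hz => ?_⟩
    rw [Metric.ball_eq_empty.2 hR] at hz
    exact absurd hz (Set.notMem_empty _)
  have hd : DifferentiableOn ℂ (fun z => deriv f z / f z) (ball 0 R) :=
    (hf.deriv isOpen_ball).div hf h0
  obtain ⟨h, h1, h2⟩ := log_aux f isOpen_ball (convex_ball 0 R).isPreconnected hf h0
    (mem_ball_self hR) hd.isExactOn_ball
  refine ⟨fun z => Complex.exp (h z / e), (h1.div_const _).cexp, fun z hz =>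
    ⟨Complex.exp_ne_zero _, ?_⟩⟩
  have he' : (e : ℂ) ≠ 0 := by exact_mod_cast he.ne'
  rw [← Complex.exp_nat_mul, mul_div_cancel₀ _ he', h2 z hz]

end LangKC
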