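import Pool.Agent.Lib_helper83.KC.Base
import Pool.Agent.Lib_helper83.KCA.EDC
import Pool.Agent.Lib_helper83.KCA.INT
import Pool.Agent.Lib_helper83.KCA.LOG

/-! Block CST of the theorem on Kummer covers, by helper67. -/

open Complex Metric Filter Topology

namespace LangKC

variable {N n : ℕ} {S : Set (MvPolynomial (Fin (N + 1)) ℂ)}
  {s : Fin (n + 1) → MvPolynomial (Fin (N + 1)) ℂ} {e : ℕ}

lemma cst_diff_val {x : ℂ → Fin (N + 1) → ℂ} {U : Set ℂ}
    (hx : ∀ j, DifferentiableOn ℂ (fun z => x z j) U) (F : MvPolynomial (Fin (N + 1)) ℂ) :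
    DifferentiableOn ℂ (fun z => MvPolynomial.eval (x z) F) U := by
  have : (fun z => MvPolynomial.eval (x z) F) =
      fun z => ∑ d ∈ F.support, F.coeff d * ∏ i, x z i ^ d i := by
    funext z
    rw [MvPolynomial.eval_eq']
  rw [this]
  apply DifferentiableOn.fun_sum
  intro d _
  apply DifferentiableOn.const_mul
  apply DifferentiableOn.fun_finsetProd
  intro i _
  exact (hx i).pow _

theorem const_of_E2 (h : Setup S s e) (x : ℂ → Fin (N + 1) → ℂ) (R : ℝ)
    (hx : ∀ j, DifferentiableOn ℂ (fun z => x z j) (ball 0 R))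
    (h0 : ∀ z ∈ ball (0 : ℂ) R, x z ≠ 0) (hS : ∀ z ∈ ball (0 : ℂ) R, x z ∈ cone S)
    (hE : ∀ z ∈ ball (0 : ℂ) R, E2 (fun z => val s (x z)) z = 0) :
    ∀ z ∈ ball (0 : ℂ) R, ∀ z' ∈ ball (0 : ℂ) R, ∃ l : ℂ, l ≠ 0 ∧ x z' = l • x z := by
  classical
  intro z hz z' hz'
  have hVd : ∀ i, DifferentiableOn ℂ (fun z => val s (x z) i) (ball 0 R) :=
    fun i => cst_diff_val hx (s i)
  have hV0 : ∀ z ∈ ball (0 : ℂ) R, val s (x z) ≠ 0 := fun z hz h1 =>
    h0 z hz (h.fin _ (hS z hz) h1)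
  have hprop := E2_const (fun z => val s (x z)) 0 R hVd hV0 hE
  obtain ⟨i₀, hi₀⟩ := Function.ne_iff.1 (hV0 z hz)
  have hi₀' : val s (x z) i₀ ≠ 0 := hi₀
  have hne : ∀ w ∈ ball (0 : ℂ) R, val s (x w) i₀ ≠ 0 := by
    intro w hw
    obtain ⟨l, hl, hl2⟩ := hprop z hz w hw
    have hl3 : val s (x w) = l • val s (x z) := hl2
    rw [hl3]
    exact mul_ne_zero hl hi₀'
  obtain ⟨lam, hlam, hlam2⟩ := exists_root (fun w => val s (x w) i₀) R e h.epos (hVd i₀) hne
  set y : ℂ → Fin (N + 1) → ℂ := fun w => (lam w)⁻¹ • x w with hy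
  have hyS : ∀ w ∈ ball (0 : ℂ) R, y w ∈ cone S := fun w hw => h.smul_mem (hS w hw) _
  have hyv : ∀ w ∈ ball (0 : ℂ) R, val s (y w) = (val s (x z) i₀)⁻¹ • val s (x z) := by
    intro w hw
    have h1 : val s (y w) = ((lam w)⁻¹) ^ e • val s (x w) := h.val_smul _ _
    obtain ⟨l, hl, hl2⟩ := hprop z hz w hw
    have hl3 : val s (x w) = l • val s (x z) := hl2
    have h2 : lam w ^ e = l * val s (x z) i₀ := by
      rw [(hlam2 w hw).2, hl3]; rfl
    rw [h1, inv_pow, h2, hl3, smul_smul]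
    congr 1
    field_simp
  set v := (val s (x z) i₀)⁻¹ • val s (x z) with hv
  have hyc : ∀ j, ContinuousOn (fun w => y w j) (ball 0 R) := by
    intro j
    have h1 : ContinuousOn (fun w => (lam w)⁻¹) (ball 0 R) :=
      hlam.continuousOn.inv₀ fun w hw => (hlam2 w hw).1
    exact h1.mul (hx j).continuousOn
  have hyconst : ∀ j, y z' j = y z j := by
    intro j
    obtain ⟨P, hPm, hP⟩ := integrality h j
    set Q : Polynomial ℂ := P.map (MvPolynomial.eval v) with hQ
    have hQ0 : Q ≠ 0 := (hPm.map _).ne_zero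
    have hmaps : Set.MapsTo (fun w => y w j) (ball (0 : ℂ) R) (Q.roots.toFinset : Set ℂ) := by
      intro w hw
      have h1 := hP (y w) (hyS w hw)
      rw [hyv w hw] at h1
      simp only [Finset.mem_coe, Multiset.mem_toFinset]
      exact (Polynomial.mem_roots hQ0).2 h1
    have hconn := (convex_ball (0 : ℂ) R).isPreconnected
    have : DiscreteTopology (Q.roots.toFinset : Set ℂ) := inferInstance
    exact hconn.constant_of_mapsTo (isDiscrete_iff_discreteTopology.2 inferInstance)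
      (hyc j) hmaps hz' hz
  have hx1 : ∀ w ∈ ball (0 : ℂ) R, x w = lam w • y w := by
    intro w hw
    rw [hy]
    simp only
    rw [smul_smul, mul_inv_cancel₀ (hlam2 w hw).1, one_smul]
  refine ⟨lam z' / lam z, div_ne_zero (hlam2 z' hz').1 (hlam2 z hz).1, ?_⟩
  have h1 := hx1 z' hz'
  have h2 := hx1 z hz
  have h3 : y z' = y z := by
    funext j
    exact hyconst j
  have h4 : (lam z' / lam z) • (lam z • y z) = lam z' • y z := by
    rw [smul_smul (lam z' / lam z) (lam z) (y z), div_mul_cancel₀ _ (hlam2 z hz).1]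
  rw [h1, h2, h3, h4]

end LangKC
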