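import Pool.Agent.Lib_helper83.KC.Base

/-! Block EDA of the theorem on Kummer covers, by helper67. -/

open Complex Metric Filter Topology

namespace LangKC

variable {n : ℕ}

lemma eda_cont_nsq {ι : Type*} {p : Filter ι} {v : ι → Fin (n + 1) → ℂ} {w : Fin (n + 1) → ℂ}
    (h : ∀ i, Tendsto (fun ν => v ν i) p (𝓝 (w i))) :
    Tendsto (fun ν => nsq (v ν)) p (𝓝 (nsq w)) := by
  unfold nsq
  exact tendsto_finsetSum _ fun i _ => ((h i).norm.pow 2)

theorem E2_tendsto {ι : Type*} {p : Filter ι} (V : ι → ℂ → Fin (n + 1) → ℂ)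
    (W : ℂ → Fin (n + 1) → ℂ) (z : ℂ) (h1 : ∀ i, Tendsto (fun ν => V ν z i) p (𝓝 (W z i)))
    (h2 : ∀ i, Tendsto (fun ν => deriv (fun w => V ν w i) z) p
      (𝓝 (deriv (fun w => W w i) z))) (h0 : W z ≠ 0) :
    Tendsto (fun ν => E2 (V ν) z) p (𝓝 (E2 W z)) := by
  unfold E2
  apply Tendsto.div
  · refine tendsto_finsetSum _ fun i _ => tendsto_finsetSum _ fun j _ => ?_
    exact (((h1 i).mul (h2 j)).sub ((h1 j).mul (h2 i))).norm.pow 2
  · exact ((eda_cont_nsq h1).pow 2).const_mul 2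
  · have := nsq_pos h0
    positivity

theorem E2_continuousOn (V : ℂ → Fin (n + 1) → ℂ) {U : Set ℂ} (hU : IsOpen U)
    (hV : ∀ i, DifferentiableOn ℂ (fun z => V z i) U) (h0 : ∀ z ∈ U, V z ≠ 0) :
    ContinuousOn (E2 V) U := by
  intro z hz
  have hc : ∀ i, ContinuousWithinAt (fun z => V z i) U z := fun i => (hV i).continuousOn z hz
  have hd : ∀ i, ContinuousWithinAt (deriv (fun z => V z i)) U z :=
    fun i => ((hV i).deriv hU).continuousOn z hz
  unfold ContinuousWithinAt E2
  apply Tendsto.div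
  · refine tendsto_finsetSum _ fun i _ => tendsto_finsetSum _ fun j _ => ?_
    exact (((hc i).mul (hd j)).sub ((hc j).mul (hd i))).norm.pow 2
  · exact ((eda_cont_nsq hc).pow 2).const_mul 2
  · have := nsq_pos (h0 z hz)
    positivity

theorem E2_scale (V W : ℂ → Fin (n + 1) → ℂ) (z : ℂ)
    (hV : ∀ i, ∀ᶠ w in 𝓝 z, DifferentiableAt ℂ (fun w => V w i) w)
    (hW : ∀ i, ∀ᶠ w in 𝓝 z, DifferentiableAt ℂ (fun w => W w i) w) (h0 : V z ≠ 0)
    (hl : ∀ᶠ w in 𝓝 z, ∃ l : ℂ, l ≠ 0 ∧ W w = l • V w) : E2 W z = E2 V z := by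
  obtain ⟨k, hk⟩ := Function.ne_iff.1 h0
  have hk' : V z k ≠ 0 := hk
  have hVz : ∀ i, DifferentiableAt ℂ (fun w => V w i) z := fun i => (hV i).self_of_nhds
  have hWz : ∀ i, DifferentiableAt ℂ (fun w => W w i) z := fun i => (hW i).self_of_nhds
  set lam : ℂ → ℂ := fun w => W w k / V w k with hlam
  have hlamd : DifferentiableAt ℂ lam z := (hWz k).div (hVz k) hk'
  have hne : ∀ᶠ w in 𝓝 z, V w k ≠ 0 := (hVz k).continuousAt.eventually_ne hk'
  have heq : ∀ᶠ w in 𝓝 z, ∀ j, W w j = lam w * V w j := by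
    filter_upwards [hl, hne] with w hw hw2 j
    obtain ⟨l, hl0, hl1⟩ := hw
    have h1 : ∀ j, W w j = l * V w j := fun j => by rw [hl1]; rfl
    rw [hlam]
    simp only
    rw [h1 j, h1 k]
    field_simp
  have hlam0 : lam z ≠ 0 := by
    obtain ⟨l, hl0, hl1⟩ := hl.self_of_nhds
    rw [hlam]
    simp only
    rw [hl1]
    simp only [Pi.smul_apply, smul_eq_mul]
    exact div_ne_zero (mul_ne_zero hl0 hk') hk'
  have hval : ∀ j, W z j = lam z * V z j := heq.self_of_nhds
  have hder : ∀ j, deriv (fun w => W w j) z =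
      deriv lam z * V z j + lam z * deriv (fun w => V w j) z := by
    intro j
    have h1 : (fun w => W w j) =ᶠ[𝓝 z] fun w => lam w * V w j := by
      filter_upwards [heq] with w hw using hw j
    rw [h1.deriv_eq]
    exact deriv_fun_mul hlamd (hVz j)
  have hterm : ∀ i j, ‖W z i * deriv (fun w => W w j) z - W z j * deriv (fun w => W w i) z‖ ^ 2 =
      ‖lam z‖ ^ 4 * ‖V z i * deriv (fun w => V w j) z - V z j * deriv (fun w => V w i) z‖ ^ 2 := by
    intro i j
    rw [hval i, hval j, hder i, hder j]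
    have : lam z * V z i * (deriv lam z * V z j + lam z * deriv (fun w => V w j) z) -
        lam z * V z j * (deriv lam z * V z i + lam z * deriv (fun w => V w i) z) =
        lam z ^ 2 * (V z i * deriv (fun w => V w j) z - V z j * deriv (fun w => V w i) z) := by
      ring
    rw [this, norm_mul, norm_pow]
    ring
  have hnsq : nsq (W z) = ‖lam z‖ ^ 2 * nsq (V z) := by
    unfold nsq
    rw [Finset.mul_sum]
    refine Finset.sum_congr rfl fun i _ => ?_
    rw [hval i, norm_mul]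
    ring
  unfold E2
  simp only [hterm, hnsq]
  simp only [← Finset.mul_sum]
  have h1 : ‖lam z‖ ≠ 0 := norm_ne_zero_iff.2 hlam0
  have h2 : nsq (V z) ≠ 0 := (nsq_pos h0).ne'
  field_simp

theorem E2_affine (V : ℂ → Fin (n + 1) → ℂ) (a t z : ℂ)
    (hV : ∀ i, DifferentiableAt ℂ (fun w => V w i) (a + t * z)) :
    E2 (fun w => V (a + t * w)) z = ‖t‖ ^ 2 * E2 V (a + t * z) := by
  have hder : ∀ j, deriv (fun w => V (a + t * w) j) z = t * deriv (fun w => V w j) (a + t * z) := by
    intro j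
    have h1 := (hV j).hasDerivAt
    have h2 : HasDerivAt (fun w : ℂ => a + t * w) t z := by
      simpa using ((hasDerivAt_id z).const_mul t).const_add a
    have := h1.comp z h2
    rw [mul_comm]
    exact this.deriv
  unfold E2
  simp only [hder]
  have hterm : ∀ i j, ‖V (a + t * z) i * (t * deriv (fun w => V w j) (a + t * z)) -
      V (a + t * z) j * (t * deriv (fun w => V w i) (a + t * z))‖ ^ 2 =
      ‖t‖ ^ 2 * ‖V (a + t * z) i * deriv (fun w => V w j) (a + t * z) -
      V (a + t * z) j * deriv (fun w => V w i) (a + t * z)‖ ^ 2 := by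
    intro i j
    rw [← mul_pow, ← norm_mul]
    congr 2
    ring
  simp only [hterm]
  simp only [← Finset.mul_sum]
  rw [mul_div_assoc]

theorem E2_le_imp (V : ℂ → Fin (n + 1) → ℂ) (z : ℂ) (A : ℝ) (hE : E2 V z ≤ A)
    (i j : Fin (n + 1)) :
    ‖V z i * deriv (fun w => V w j) z - V z j * deriv (fun w => V w i) z‖ ^ 2 ≤
      A * nsq (V z) ^ 2 := by
  have hA : 0 ≤ A := (E2_nonneg V z).trans hE
  by_cases h0 : V z = 0
  · rw [h0]
    simp
    positivity
  have hpos := nsq_pos h0
  by_cases hij : i = j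
  · subst hij
    simp
    positivity
  set f : Fin (n + 1) → Fin (n + 1) → ℝ := fun i j =>
    ‖V z i * deriv (fun w => V w j) z - V z j * deriv (fun w => V w i) z‖ ^ 2 with hf
  have hf0 : ∀ i j, 0 ≤ f i j := fun i j => by positivity
  have hsym : ∀ i j, f i j = f j i := by
    intro i j
    simp only [hf]
    rw [norm_sub_rev]
  have hsum : f i j + f j i ≤ ∑ a, ∑ b, f a b := by
    calc f i j + f j i ≤ (∑ b, f i b) + ∑ b, f j b :=
          add_le_add (Finset.single_le_sum (f := fun b => f i b) (fun _ _ => hf0 _ _)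
            (Finset.mem_univ j))
            (Finset.single_le_sum (f := fun b => f j b) (fun _ _ => hf0 _ _) (Finset.mem_univ i))
      _ = ∑ a ∈ ({i, j} : Finset (Fin (n + 1))), ∑ b, f a b := by rw [Finset.sum_pair hij]
      _ ≤ ∑ a, ∑ b, f a b :=
          Finset.sum_le_sum_of_subset_of_nonneg (Finset.subset_univ _)
            fun a _ _ => Finset.sum_nonneg fun b _ => hf0 _ _
  have hE' : (∑ a, ∑ b, f a b) / (2 * nsq (V z) ^ 2) ≤ A := hE
  rw [div_le_iff₀ (by positivity)] at hE'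
  have : f i j ≤ A * nsq (V z) ^ 2 := by
    have := hsym j i
    linarith
  exact this

end LangKC
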