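import Pool.Agent.Lib_helper83.KC.Base

/-! Block TIE of the theorem on Kummer covers, by helper95. -/

/-! KC, block TIE. -/

open Complex Metric Filter Topology

namespace LangKC

theorem tie {Z : Set ℂ} (hZ : IsPreconnected Z) {ι : Type*} (I : Finset ι) (g : ι → ℂ → ℝ)
    (hg : ∀ i ∈ I, ContinuousOn (g i) Z) (P : ι → Prop)
    (h1 : ∃ z ∈ Z, ∃ i ∈ I, P i ∧ ∀ k ∈ I, g k z ≤ g i z)
    (h2 : ∃ z ∈ Z, ∃ i ∈ I, ¬ P i ∧ ∀ k ∈ I, g k z ≤ g i z) :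
    ∃ z ∈ Z, ∃ i ∈ I, ∃ j ∈ I, P i ∧ ¬ P j ∧ g i z = g j z ∧ ∀ k ∈ I, g k z ≤ g i z := by
  classical
  haveI : PreconnectedSpace Z := Subtype.preconnectedSpace hZ
  have hc : ∀ i ∈ I, Continuous fun z : Z => g i z := fun i hi =>
    continuousOn_iff_continuous_domRestrict.1 (hg i hi)
  have hcl : ∀ Q : ι → Prop, IsClosed {z : Z | ∃ i ∈ I, Q i ∧ ∀ k ∈ I, g k z ≤ g i z} := by
    intro Q
    have e : {z : Z | ∃ i ∈ I, Q i ∧ ∀ k ∈ I, g k z ≤ g i z} =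
        ⋃ i ∈ I.filter Q, ⋂ k ∈ I, {z : Z | g k z ≤ g i z} := by
      ext z
      simp only [Set.mem_ofPred_eq, Set.mem_iUnion, Set.mem_iInter, Finset.mem_filter, exists_prop,
        and_assoc]
    rw [e]
    refine Set.Finite.isClosed_biUnion (Finset.finite_toSet _) fun i hi => ?_
    refine isClosed_biInter fun k hk => ?_
    exact isClosed_le (hc k hk) (hc i (Finset.mem_filter.1 hi).1)
  obtain ⟨z1, hz1, i1, hi1, hP1, hm1⟩ := h1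
  obtain ⟨z2, hz2, i2, hi2, hP2, hm2⟩ := h2
  have key := isPreconnected_closed_iff.1 (isPreconnected_univ (α := Z)) _ _ (hcl P)
    (hcl fun i => ¬ P i) (fun z _ => by
      obtain ⟨i, hi, hmax⟩ := I.exists_max_image (fun k => g k z) ⟨i1, hi1⟩
      by_cases hP : P i
      · exact Or.inl ⟨i, hi, hP, hmax⟩
      · exact Or.inr ⟨i, hi, hP, hmax⟩)
    ⟨⟨z1, hz1⟩, trivial, i1, hi1, hP1, hm1⟩ ⟨⟨z2, hz2⟩, trivial, i2, hi2, hP2, hm2⟩
  obtain ⟨z, _, ⟨i, hi, hPi, hmi⟩, j, hj, hPj, hmj⟩ := key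
  exact ⟨z, z.2, i, hi, j, hj, hPi, hPj, le_antisymm (hmj i hi) (hmi j hj), hmi⟩

end LangKC
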