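import Pool.Agent.Lib_helper83.KC.Base
import Pool.Agent.Lib_helper83.KCA.TIE

/-! Block EDG of the theorem on Kummer covers, by helper95. -/

/-! KC, block EDG. -/

open Complex Metric Filter Topology

namespace LangKC

theorem edge {ι : Type*} (I : Finset ι) (b : ι → ℂ) (hb : ∃ i ∈ I, ∃ j ∈ I, b i ≠ b j) :
    ∃ ω : ℂ, ‖ω‖ = 1 ∧ ∃ i ∈ I, ∃ j ∈ I, b i ≠ b j ∧ (b i * ω).re = (b j * ω).re ∧
      ∀ k ∈ I, (b k * ω).re ≤ (b i * ω).re := by
  obtain ⟨i0, hi0, j0, hj0, hne⟩ := hb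
  have hZ : IsPreconnected (sphere (0 : ℂ) 1) := by
    refine isPreconnected_sphere ?_ 0 1
    rw [Complex.rank_real_complex]
    exact Cardinal.one_lt_two
  obtain ⟨k0, hk0, hmax⟩ := I.exists_max_image (fun k => (b k * 1).re) ⟨i0, hi0⟩
  have h1z : (1 : ℂ) ∈ sphere (0 : ℂ) 1 := by simp
  by_cases h : ∃ z ∈ sphere (0 : ℂ) 1, ∃ i ∈ I, ¬ (b i = b k0) ∧
      ∀ k ∈ I, (b k * z).re ≤ (b i * z).re
  · obtain ⟨z, hz, i, hi, j, hj, hPi, hPj, he, hm⟩ := tie hZ I (fun k z => (b k * z).re)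
      (fun i _ => by fun_prop) (fun i => b i = b k0) ⟨1, h1z, k0, hk0, rfl, hmax⟩ h
    refine ⟨z, by simpa using hz, i, hi, j, hj, ?_, he, hm⟩
    rw [hPi]
    exact fun h => hPj h.symm
  · push Not at h
    exfalso
    have hall : ∀ z ∈ sphere (0 : ℂ) 1, ∀ k ∈ I, (b k * z).re ≤ (b k0 * z).re := by
      intro z hz k hk
      obtain ⟨m, hm, hmm⟩ := I.exists_max_image (fun k => (b k * z).re) ⟨i0, hi0⟩
      have : b m = b k0 := by
        by_contra hcon
        obtain ⟨k', hk', hlt⟩ := h z hz m hm hcon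
        exact absurd (hmm k' hk') (not_le.2 hlt)
      rw [← this]
      exact hmm k hk
    have heq : ∀ z ∈ sphere (0 : ℂ) 1, ∀ k ∈ I, (b k * z).re = (b k0 * z).re := by
      intro z hz k hk
      have h1 := hall z hz k hk
      have h2 := hall (-z) (by simpa using hz) k hk
      rw [mul_neg, mul_neg, neg_re, neg_re] at h2
      linarith
    have hb0 : ∀ k ∈ I, b k = b k0 := by
      intro k hk
      have e1 := heq 1 h1z k hk
      have e2 := heq Complex.I (by simp) k hk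
      rw [mul_one, mul_one] at e1
      rw [mul_I_re, mul_I_re] at e2
      exact Complex.ext e1 (neg_inj.1 e2)
    exact hne ((hb0 i0 hi0).trans (hb0 j0 hj0).symm)

end LangKC
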