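import Pool.Agent.Lib_helper83.KC.Base
import Pool.Agent.Lib_helper83.KCA.LOG
import Pool.Agent.Lib_helper83.KCA.MEAN
import Pool.Agent.Lib_helper83.KCA.POI

/-! Block GRO of the theorem on Kummer covers, by helper95. -/

/-! KC, block GRO. -/

open Complex Metric Filter Topology

namespace LangKC

variable {n : ℕ}

/-- an entire function of at most quadratic growth is a polynomial of degree at most two -/
theorem gro_poly {h : ℂ → ℂ} (hh : Differentiable ℂ h) {K B : ℝ} (hB : 0 ≤ B) (hK : 0 ≤ K)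
    (hb : ∀ z, ‖h z‖ ≤ K + B * ‖z‖ ^ 2) :
    ∃ a b c : ℂ, ∀ z, h z = a * z ^ 2 + b * z + c := by
  have hcd : ∀ m : WithTop ℕ∞, ContDiff ℂ m h := fun m => hh.contDiff
  have h3 : ∀ z, iteratedDeriv 3 h z = 0 := by
    intro z
    have hle : ∀ᶠ ρ : ℝ in atTop, ‖iteratedDeriv 3 h z‖ ≤ 6 * (K + 4 * B) / ρ := by
      filter_upwards [eventually_ge_atTop 1, eventually_ge_atTop ‖z‖] with ρ h1 h2
      have hρ : 0 < ρ := by linarith
      have h4 : ∀ w ∈ sphere z ρ, ‖h w‖ ≤ (K + 4 * B) * ρ ^ 2 := by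
        intro w hw
        have h5 : ‖w‖ ≤ 2 * ρ := by
          have h6 : ‖w‖ ≤ ‖w - z‖ + ‖z‖ := by
            simpa using norm_add_le (w - z) z
          rw [mem_sphere_iff_norm.1 hw] at h6
          linarith
        have h7 : ‖w‖ ^ 2 ≤ 4 * ρ ^ 2 := by
          have := pow_le_pow_left₀ (norm_nonneg w) h5 2
          linarith [this, mul_pow 2 ρ 2]
        have h8 : (1 : ℝ) ≤ ρ ^ 2 := one_le_pow₀ h1
        calc ‖h w‖ ≤ K + B * ‖w‖ ^ 2 := hb w
          _ ≤ K * ρ ^ 2 + B * (4 * ρ ^ 2) :=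
            add_le_add (le_mul_of_one_le_right hK h8) (mul_le_mul_of_nonneg_left h7 hB)
          _ = _ := by ring
      have h9 := Complex.norm_iteratedDeriv_le_of_forall_mem_sphere_norm_le 3 hρ
        hh.diffContOnCl h4
      refine h9.trans (le_of_eq ?_)
      have : ((Nat.factorial 3 : ℕ) : ℝ) = 6 := by norm_num [Nat.factorial]
      rw [this]
      field_simp
    have hlim : Tendsto (fun ρ : ℝ => 6 * (K + 4 * B) / ρ) atTop (𝓝 0) :=
      tendsto_const_nhds.div_atTop tendsto_id
    exact norm_le_zero_iff.1 (ge_of_tendsto hlim hle)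
  have d1 : Differentiable ℂ (deriv h) := by
    have := (hcd ⊤).differentiable_iteratedDeriv 1 (by exact WithTop.coe_lt_top _)
    rwa [iteratedDeriv_one] at this
  have e2 : iteratedDeriv 2 h = deriv (deriv h) := by
    rw [iteratedDeriv_succ, iteratedDeriv_one]
  have d2 : Differentiable ℂ (deriv (deriv h)) := by
    rw [← e2]
    exact (hcd ⊤).differentiable_iteratedDeriv 2 (by exact WithTop.coe_lt_top _)
  have c2 : ∀ z, deriv (deriv h) z = deriv (deriv h) 0 := by
    intro z
    refine is_const_of_deriv_eq_zero d2 (fun w => ?_) z 0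
    have := h3 w
    rw [iteratedDeriv_succ, e2] at this
    exact this
  set a2 := deriv (deriv h) 0 with ha2
  have c1 : ∀ z, deriv h z = a2 * z + deriv h 0 := by
    intro z
    have hd : ∀ w, HasDerivAt (fun w => deriv h w - a2 * w) 0 w := by
      intro w
      have h5 := ((d1 w).hasDerivAt).sub ((hasDerivAt_id w).const_mul a2)
      refine h5.congr_deriv ?_
      rw [c2 w]
      ring
    have := is_const_of_deriv_eq_zero (fun w => (hd w).differentiableAt)
      (fun w => (hd w).deriv) z 0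
    simp only [mul_zero, sub_zero] at this
    linear_combination this
  refine ⟨a2 / 2, deriv h 0, h 0, fun z => ?_⟩
  have hd : ∀ w, HasDerivAt (fun w => h w - (a2 / 2 * w ^ 2 + deriv h 0 * w)) 0 w := by
    intro w
    have h5 := ((hh w).hasDerivAt).sub (((hasDerivAt_pow 2 w).const_mul (a2 / 2)).add
      ((hasDerivAt_id w).const_mul (deriv h 0)))
    refine h5.congr_deriv ?_
    rw [c1 w]
    simp
    ring
  have := is_const_of_deriv_eq_zero (fun w => (hd w).differentiableAt)
    (fun w => (hd w).deriv) z 0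
  simp only [mul_zero, sub_zero, ne_eq, OfNat.ofNat_ne_zero, not_false_eq_true, zero_pow,
    add_zero] at this
  linear_combination this

theorem grow (X : ℂ → Fin (n + 1) → ℂ) (i₀ : Fin (n + 1)) (A : ℝ) (h1 : ∀ z, X z i₀ = 1)
    (hX : ∀ i, Differentiable ℂ (fun z => X z i)) (hE : ∀ z, E2 X z ≤ A) (i : Fin (n + 1))
    (hi : ∀ z, X z i ≠ 0) : ∃ a b c : ℂ, ∀ z, X z i = Complex.exp (a * z ^ 2 + b * z + c) := by
  obtain ⟨h, hh, hexp⟩ := exists_log (fun z => X z i) (hX i) hi
  have hA : 0 ≤ A := (E2_nonneg X 0).trans (hE 0)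
  have hns : ∀ z, 1 ≤ nsq (X z) := fun z => by
    have := le_nsq (X z) i₀
    rw [h1] at this
    simpa using this
  have hne : ∀ z, X z ≠ 0 := fun z h0 => by
    have := h1 z
    rw [h0] at this
    exact zero_ne_one this
  have hnc : Continuous fun z => nsq (X z) := by
    unfold nsq
    exact continuous_finsetSum _ fun k _ => ((hX k).continuous.norm.pow 2)
  have hlogc : Continuous fun z => Real.log (nsq (X z)) :=
    hnc.log fun z => (zero_lt_one.trans_le (hns z)).ne'
  set g : ℂ → ℝ := fun z => (1 / 2 : ℝ) • Real.log (nsq (X z)) with hg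
  have hgc : Continuous g := by
    show Continuous fun z => (1 / 2 : ℝ) * Real.log (nsq (X z))
    exact continuous_const.mul hlogc
  have hg0 : ∀ z, 0 ≤ g z := fun z => by
    rw [hg]
    exact smul_nonneg (by norm_num) (Real.log_nonneg (hns z))
  have hfg : ∀ z, ‖X z i‖ ≤ Real.exp (g z) := by
    intro z
    have h2 : ‖X z i‖ ^ 2 ≤ Real.exp (g z) ^ 2 := by
      have h3 : Real.exp (g z) ^ 2 = nsq (X z) := by
        rw [← Real.exp_nat_mul, hg]
        simp only [smul_eq_mul, Nat.cast_ofNat]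
        rw [show (2 : ℝ) * (1 / 2 * Real.log (nsq (X z))) = Real.log (nsq (X z)) by ring,
          Real.exp_log (zero_lt_one.trans_le (hns z))]
      rw [h3]
      exact le_nsq (X z) i
    exact (pow_le_pow_iff_left₀ (norm_nonneg _) (Real.exp_pos _).le two_ne_zero).1 h2
  set L := Real.log (nsq (X 0)) with hL
  have hL0 : 0 ≤ L := Real.log_nonneg (hns 0)
  have havg : ∀ R : ℝ, 0 < R → Real.circleAverage g 0 R ≤ (L + A * R ^ 2) / 2 := by
    intro R hR
    have h2 := mean X 0 R (R + 1) A hR (by linarith) (fun k => (hX k).differentiableOn)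
      (fun z _ => hne z) (fun z _ => hE z)
    have h3 : Real.circleAverage g 0 R =
        (1 / 2 : ℝ) • Real.circleAverage (fun z => Real.log (nsq (X z))) 0 R := by
      rw [hg]
      exact Real.circleAverage_fun_smul
    rw [h3, smul_eq_mul]
    linarith
  have hre : ∀ R : ℝ, 0 < R → ∀ z, ‖z‖ ≤ R / 2 → (h z).re ≤ 3 * ((L + A * R ^ 2) / 2) := by
    intro R hR z hz
    have h2 := sup_le_avg (fun z => X z i) g R (R + 1) hR (by linarith)
      (hX i).differentiableOn hgc.continuousOn (fun z _ => hg0 z) (fun z _ => hfg z) z hz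
    have h3 : ‖X z i‖ = Real.exp (h z).re := by
      rw [hexp z, Complex.norm_exp]
    rw [h3] at h2
    have h4 := Real.exp_le_exp.1 h2
    have := havg R hR
    linarith
  have hbd : ∀ z, ‖h z‖ ≤ (3 * L + 2 + 3 * ‖h 0‖ + 96 * A) + 96 * A * ‖z‖ ^ 2 := by
    intro z
    -- R = 4 * (‖z‖ + 1)
    set R : ℝ := 4 * (‖z‖ + 1) with hR
    have hR0 : 0 < R := by positivity
    set M : ℝ := 3 * ((L + A * R ^ 2) / 2) + 1 with hM
    have hM0 : 0 < M := by positivity
    have hz : z ∈ ball (0 : ℂ) (R / 2) := by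
      rw [mem_ball_zero_iff, hR]
      have := norm_nonneg z
      linarith
    have h5 := Complex.borelCaratheodory (f := h) hM0 (R := R / 2) hh.differentiableOn
      (fun w hw => by
        have := hre R hR0 w (mem_ball_zero_iff.1 hw).le
        show (h w).re ≤ M
        rw [hM]
        linarith) (by positivity) hz
    have h6 : R / 2 - ‖z‖ ≥ R / 4 := by
      rw [hR]
      linarith [norm_nonneg z]
    have h7 : ‖z‖ ≤ R / 4 := by
      rw [hR]
      linarith
    have h8 : 0 < R / 2 - ‖z‖ := by linarith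
    have h9 : 2 * M * ‖z‖ / (R / 2 - ‖z‖) ≤ 2 * M := by
      rw [div_le_iff₀ h8]
      exact mul_le_mul_of_nonneg_left (by linarith) (by positivity)
    have h10 : ‖h 0‖ * (R / 2 + ‖z‖) / (R / 2 - ‖z‖) ≤ 3 * ‖h 0‖ := by
      rw [div_le_iff₀ h8]
      have := norm_nonneg (h 0)
      nlinarith
    have h11 : 2 * M = 3 * L + 3 * A * R ^ 2 + 2 := by
      rw [hM]
      ring
    have h12 : A * R ^ 2 = 16 * A * (‖z‖ + 1) ^ 2 := by
      rw [hR]
      ring
    have h13 : (‖z‖ + 1) ^ 2 ≤ 2 * ‖z‖ ^ 2 + 2 := by nlinarith [sq_nonneg (‖z‖ - 1)]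
    have h14 : 16 * A * (‖z‖ + 1) ^ 2 ≤ 16 * A * (2 * ‖z‖ ^ 2 + 2) :=
      mul_le_mul_of_nonneg_left h13 (by positivity)
    have h15 : ‖h z‖ ≤ 2 * M + 3 * ‖h 0‖ := h5.trans (add_le_add h9 h10)
    rw [h11, mul_assoc 3 A, h12] at h15
    linarith
  obtain ⟨a, b, c, habc⟩ := gro_poly hh (K := 3 * L + 2 + 3 * ‖h 0‖ + 96 * A) (B := 96 * A)
    (by positivity) (by positivity) hbd
  exact ⟨a, b, c, fun z => by rw [← habc z]; exact hexp z⟩

end LangKC
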