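import Pool.Agent.Lib_helper83.KC.Base

/-! Block HUR of the theorem on Kummer covers, by helper7. -/

/-! Block HUR of the theorem on Kummer covers. -/

open Complex Metric Filter Topology

namespace LangKC

theorem hurwitz {ι : Type*} {p : Filter ι} [p.NeBot] (f : ι → ℂ → ℂ) (F : ℂ → ℂ)
    (hF : Differentiable ℂ F) (hlim : TendstoLocallyUniformly f F p)
    (hd : ∀ r : ℝ, ∀ᶠ ν in p, DifferentiableOn ℂ (f ν) (ball 0 r))
    (h0 : ∀ r : ℝ, ∀ᶠ ν in p, ∀ z ∈ ball (0 : ℂ) r, f ν z ≠ 0) :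
    (∀ z, F z = 0) ∨ ∀ z, F z ≠ 0 := by
  by_contra hcon
  push Not at hcon
  obtain ⟨⟨b, hb⟩, a, ha⟩ := hcon
  have hFa : AnalyticOnNhd ℂ F Set.univ :=
    hF.differentiableOn.analyticOnNhd isOpen_univ
  have hpun : ∀ᶠ z in 𝓝[≠] a, F z ≠ 0 := by
    rcases (hFa a (Set.mem_univ a)).eventually_eq_zero_or_eventually_ne_zero with h | h
    · have h1 := hFa.eqOn_zero_of_preconnected_of_eventuallyEq_zero isPreconnected_univ
        (Set.mem_univ a) h
      exact absurd (h1 (Set.mem_univ b)) hb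
    · exact h
  obtain ⟨ε, hε, hball⟩ := Metric.mem_nhdsWithin_iff.1 hpun
  set ρ := ε / 2 with hρdef
  have hρ : 0 < ρ := by positivity
  have hne : ∀ z ∈ sphere a ρ, F z ≠ 0 := by
    intro z hz
    have hz' : dist z a = ρ := hz
    have h1 : z ∈ ball a ε ∩ {a}ᶜ := by
      refine ⟨?_, ?_⟩
      · rw [mem_ball, hz']
        linarith
      · rintro rfl
        rw [dist_self] at hz'
        exact hρ.ne hz'
    exact hball h1
  have hcomp : IsCompact (sphere a ρ) := isCompact_sphere a ρ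
  have hnonempty : (sphere a ρ).Nonempty := (NormedSpace.sphere_nonempty).2 hρ.le
  obtain ⟨w, hw, hmin⟩ := hcomp.exists_isMinOn hnonempty (hF.continuous.norm.continuousOn)
  set δ := ‖F w‖ with hδdef
  have hδ : 0 < δ := norm_pos_iff.2 (hne w hw)
  have hunif : TendstoUniformlyOn f F p (closedBall a ρ) :=
    (tendstoLocallyUniformly_iff_forall_isCompact.1 hlim) _ (isCompact_closedBall a ρ)
  have h1 := Metric.tendstoUniformlyOn_iff.1 hunif (δ / 2) (by positivity)
  obtain ⟨ν, h2, h3, h4⟩ := (h1.and ((hd (‖a‖ + ρ + 1)).and (h0 (‖a‖ + ρ + 1)))).exists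
  have hsub : closedBall a ρ ⊆ ball (0 : ℂ) (‖a‖ + ρ + 1) := by
    intro z hz
    rw [mem_closedBall, dist_eq_norm] at hz
    rw [mem_ball_zero_iff]
    have h5 := norm_add_le (z - a) a
    rw [sub_add_cancel] at h5
    linarith
  have hdiff : DiffContOnCl ℂ (fun z => (f ν z)⁻¹) (ball a ρ) := by
    apply DifferentiableOn.diffContOnCl
    rw [closure_ball a hρ.ne']
    exact (h3.mono hsub).inv fun z hz => h4 z (hsub hz)
  have hbound : ∀ z ∈ frontier (ball a ρ), ‖(f ν z)⁻¹‖ ≤ 2 / δ := by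
    intro z hz
    rw [frontier_ball a hρ.ne'] at hz
    have h5 : δ ≤ ‖F z‖ := hmin hz
    have h6 : dist (F z) (f ν z) < δ / 2 := h2 z (sphere_subset_closedBall hz)
    rw [dist_eq_norm] at h6
    have h7 : ‖F z‖ ≤ ‖F z - f ν z‖ + ‖f ν z‖ := by
      have := norm_add_le (F z - f ν z) (f ν z)
      rwa [sub_add_cancel] at this
    have h8 : δ / 2 ≤ ‖f ν z‖ := by linarith
    rw [norm_inv]
    calc ‖f ν z‖⁻¹ ≤ (δ / 2)⁻¹ := inv_anti₀ (by positivity) h8
      _ = 2 / δ := by rw [inv_div]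
  have h9 := norm_le_of_forall_mem_frontier_norm_le isBounded_ball hdiff hbound
    (subset_closure (mem_ball_self hρ))
  have h10 : dist (F a) (f ν a) < δ / 2 := h2 a (mem_closedBall_self hρ.le)
  rw [ha, dist_eq_norm, zero_sub, norm_neg] at h10
  have h11 : f ν a ≠ 0 := h4 a (hsub (mem_closedBall_self hρ.le))
  have h12 : 0 < ‖f ν a‖ := norm_pos_iff.2 h11
  rw [norm_inv] at h9
  have h13 : (δ / 2)⁻¹ < ‖f ν a‖⁻¹ := inv_strictAnti₀ h12 h10
  rw [inv_div] at h13
  linarith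

end LangKC
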