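import Pool.Agent.Lib_helper83.KC.Base

/-! Block JEN of the theorem on Kummer covers, by helper80. -/

open Complex Metric Filter Topology

namespace LangKC

/-- comparison of the average of `log ‖f‖` with a majorant -/
lemma jen_avg {f : ℂ → ℂ} {g : ℂ → ℝ} {c : ℂ} {R : ℝ} (hR : 0 < R)
    (hf : AnalyticOnNhd ℂ f (closedBall c |R|)) (h0 : f c ≠ 0)
    (hg : CircleIntegrable g c R) (hfg : ∀ z ∈ sphere c R, ‖f z‖ ≤ Real.exp (g z)) :
    Real.circleAverage (fun z => Real.log ‖f z‖) c R ≤ Real.circleAverage g c R := by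
  classical
  set f₂ : ℂ → ℝ := fun z => if f z = 0 then g z else Real.log ‖f z‖ with hf₂
  have hcod : (fun z => Real.log ‖f z‖) =ᶠ[codiscreteWithin (sphere c |R|)] f₂ := by
    rw [EventuallyEq, Filter.Eventually, mem_codiscreteWithin_iff_forall_mem_nhdsNE]
    intro x hx
    refine mem_of_superset ?_ Set.subset_union_left
    have hne : ∀ᶠ z in 𝓝[≠] x, f z ≠ 0 := by
      rcases (hf x (sphere_subset_closedBall hx)).eventually_eq_zero_or_eventually_ne_zero with h | h
      · exfalso
        have h1 := hf.eqOn_zero_of_preconnected_of_eventuallyEq_zero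
          (convex_closedBall c |R|).isPreconnected (sphere_subset_closedBall hx) h
        exact h0 (h1 (mem_closedBall_self (abs_nonneg R)))
      · exact h
    filter_upwards [hne] with z hz
    simp [hf₂, hz]
  have hint : CircleIntegrable (fun z => Real.log ‖f z‖) c R :=
    (hf.mono sphere_subset_closedBall).meromorphicOn.circleIntegrable_log_norm
  rw [Real.circleAverage_congr_codiscreteWithin hcod hR.ne']
  apply Real.circleAverage_mono (CircleIntegrable.congr_codiscreteWithin hcod hint) hg
  intro z hz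
  rw [abs_of_pos hR] at hz
  by_cases hz0 : f z = 0
  · simp [hf₂, hz0]
  · simp only [hf₂, hz0, if_false]
    rw [Real.log_le_iff_le_exp (norm_pos_iff.2 hz0)]
    exact hfg z hz

/-- JEN -/
theorem jensen_mult (f : ℂ → ℂ) (g : ℂ → ℝ) (c w : ℂ) (R R' : ℝ) (m : ℕ) (hR : 0 < R)
    (hRR : R < R') (hf : DifferentiableOn ℂ f (ball c R')) (h0 : f c ≠ 0)
    (hw : ‖w - c‖ ≤ R / 2) (hm : ∀ k < m, iteratedDeriv k f w = 0)
    (hg : ContinuousOn g (sphere c R)) (hfg : ∀ z ∈ sphere c R, ‖f z‖ ≤ Real.exp (g z)) :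
    Real.log ‖f c‖ + m * Real.log 2 ≤ Real.circleAverage g c R := by
  have hsub : closedBall c |R| ⊆ ball c R' := by
    rw [abs_of_pos hR]
    exact closedBall_subset_ball hRR
  have hfa : AnalyticOnNhd ℂ f (closedBall c |R|) := (hf.analyticOnNhd isOpen_ball).mono hsub
  have hgi : CircleIntegrable g c R := by
    apply ContinuousOn.circleIntegrable hR.le hg
  refine le_trans ?_ (jen_avg hR hfa h0 hgi hfg)
  rw [hfa.circleAverage_log_norm hR.ne' h0, add_comm]
  apply add_le_add_left
  set D := MeromorphicOn.divisor f (closedBall c |R|) with hD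
  have hD0 : ∀ u, 0 ≤ D u := fun u => MeromorphicOn.AnalyticOnNhd.divisor_nonneg hfa u
  have hterm : ∀ u, 0 ≤ (D u : ℝ) * Real.log (R * ‖c - u‖⁻¹) := by
    intro u
    by_cases hu : u ∈ closedBall c |R|
    · refine mul_nonneg (by exact_mod_cast hD0 u) ?_
      by_cases huc : u = c
      · simp [huc]
      · apply Real.log_nonneg
        rw [mem_closedBall, dist_eq_norm, abs_of_pos hR, norm_sub_rev] at hu
        have h1 : 0 < ‖c - u‖ := norm_pos_iff.2 (sub_ne_zero.2 (Ne.symm huc))
        rw [← div_eq_mul_inv, le_div_iff₀ h1, one_mul]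
        exact hu
    · have : D u = 0 := by
        rw [hD]
        exact Function.locallyFinsuppWithin.apply_eq_zero_of_notMem _ hu
      rw [this]
      simp
  have hfin : (fun u => (D u : ℝ) * Real.log (R * ‖c - u‖⁻¹)).HasFiniteSupport := by
    refine (D.finiteSupport (isCompact_closedBall ..)).subset ?_
    intro u hu
    rw [Function.mem_support] at hu ⊢
    intro h
    apply hu
    rw [h]
    simp
  refine le_trans ?_ (single_le_finsum w hfin hterm)
  rcases Nat.eq_zero_or_pos m with hm0 | hm0
  · rw [hm0]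
    simp only [Nat.cast_zero, zero_mul]
    exact hterm w
  have hfw : f w = 0 := by
    have := hm 0 hm0
    simpa using this
  have hwc : w ≠ c := by
    rintro rfl
    exact h0 hfw
  have hwm : w ∈ closedBall c |R| := by
    rw [mem_closedBall, dist_eq_norm, abs_of_pos hR]
    linarith
  have hord : (m : ℕ∞) ≤ analyticOrderAt f w :=
    (natCast_le_analyticOrderAt_iff_iteratedDeriv_eq_zero (hfa w hwm)).2 hm
  have hfinord : analyticOrderAt f w ≠ ⊤ := by
    intro h
    rw [analyticOrderAt_eq_top] at h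
    have h1 := hfa.eqOn_zero_of_preconnected_of_eventuallyEq_zero
      (convex_closedBall c |R|).isPreconnected hwm h
    exact h0 (h1 (mem_closedBall_self (abs_nonneg R)))
  have hDw : (m : ℝ) ≤ D w := by
    obtain ⟨k, hk⟩ := ENat.ne_top_iff_exists.1 hfinord
    rw [hD, MeromorphicOn.AnalyticOnNhd.divisor_apply hfa hwm, ← hk]
    rw [← hk] at hord
    have h1 : m ≤ k := by exact_mod_cast hord
    simp
    exact_mod_cast h1
  have hlog : Real.log 2 ≤ Real.log (R * ‖c - w‖⁻¹) := by
    have h1 : 0 < ‖c - w‖ := norm_pos_iff.2 (sub_ne_zero.2 (Ne.symm hwc))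
    apply Real.log_le_log two_pos
    rw [← div_eq_mul_inv, le_div_iff₀ h1, norm_sub_rev]
    linarith
  exact mul_le_mul hDw hlog (Real.log_nonneg one_le_two) (by exact_mod_cast hD0 w)

end LangKC
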