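import Pool.Agent.Lib_helper83.KC.Base
import Pool.Agent.Lib_helper83.KCA.EDA
import Pool.Agent.Lib_helper83.KCA.JEN
import Pool.Agent.Lib_helper83.KCA.LOG
import Pool.Agent.Lib_helper83.KCA.MEAN

/-! Block NRM of the theorem on Kummer covers, by helper92. -/

/-! Block NRM: normalisation of a lift. -/

open Complex Metric Filter Topology

namespace LangKC

variable {N n : ℕ} {S : Set (MvPolynomial (Fin (N + 1)) ℂ)}
  {s : Fin (n + 1) → MvPolynomial (Fin (N + 1)) ℂ} {e : ℕ}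

/-- the value of a polynomial along a holomorphic vector function is holomorphic -/
lemma nrm_diff_eval {x : ℂ → Fin (N + 1) → ℂ} {U : Set ℂ}
    (hx : ∀ j, DifferentiableOn ℂ (fun z => x z j) U) (F : MvPolynomial (Fin (N + 1)) ℂ) :
    DifferentiableOn ℂ (fun z => MvPolynomial.eval (x z) F) U := by
  induction F using MvPolynomial.induction_on with
  | C a => simp only [MvPolynomial.eval_C]; exact differentiableOn_const a
  | add p q hp hq => simp only [map_add]; exact hp.add hq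
  | mul_X p j hp => simp only [map_mul, MvPolynomial.eval_X]; exact hp.mul (hx j)

lemma nrm_sqrt_nsq {v : Fin (n + 1) → ℂ} (hv : v ≠ 0) (i : Fin (n + 1)) :
    ‖v i‖ ≤ Real.exp (1 / 2 * Real.log (nsq v)) := by
  have h1 := nsq_pos hv
  have h2 := le_nsq v i
  have h3 : Real.exp (1 / 2 * Real.log (nsq v)) = Real.sqrt (nsq v) := by
    rw [Real.sqrt_eq_rpow, Real.rpow_def_of_pos h1]
    ring_nf
  rw [h3]
  exact Real.le_sqrt_of_sq_le h2

/-- all derivatives of order `< m` of a product vanish if those of one factor do -/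
lemma nrm_mult {f g F : ℂ → ℂ} {w : ℂ} {m : ℕ} (hf : AnalyticAt ℂ f w) (hg : AnalyticAt ℂ g w)
    (hF : ∀ᶠ z in 𝓝 w, F z = g z * f z) (h : ∀ k < m, iteratedDeriv k f w = 0) :
    ∀ k < m, iteratedDeriv k F w = 0 := by
  have h1 : (m : ℕ∞) ≤ analyticOrderAt f w :=
    (natCast_le_analyticOrderAt_iff_iteratedDeriv_eq_zero hf).2 h
  have hgf : AnalyticAt ℂ (g * f) w := hg.mul hf
  have hF' : F =ᶠ[𝓝 w] g * f := hF
  have hFa : AnalyticAt ℂ F w := hgf.congr hF'.symm
  refine (natCast_le_analyticOrderAt_iff_iteratedDeriv_eq_zero hFa).1 ?_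
  rw [analyticOrderAt_congr hF', analyticOrderAt_mul hg hf]
  exact h1.trans le_add_self

/-- NRM -/
theorem normalize (h : Setup S s e) (m : ℕ) (R : ℝ) (hR : 0 < R)
    (hmR : Real.log (n + 1) / 2 + 8 * R ^ 2 < m * Real.log 2) (x : ℂ → Fin (N + 1) → ℂ)
    (hx : ∀ j, DifferentiableOn ℂ (fun z => x z j) (ball 0 (2 * R + 1)))
    (h0 : ∀ z ∈ ball (0 : ℂ) (2 * R + 1), x z ≠ 0 ∧ x z ∈ cone S)
    (hmult : ∀ i, ∀ w ∈ ball (0 : ℂ) (2 * R + 1), val s (x w) i = 0 →
        ∀ k < m, iteratedDeriv k (fun z => val s (x z) i) w = 0)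
    (hE : ∀ z ∈ ball (0 : ℂ) (2 * R + 1), E2 (fun z => val s (x z)) z ≤ 4)
    (hE0 : E2 (fun z => val s (x z)) 0 = 1) :
    ∃ (i₀ : Fin (n + 1)) (y : ℂ → Fin (N + 1) → ℂ),
      (∀ j, DifferentiableOn ℂ (fun z => y z j) (ball 0 R)) ∧
      (∀ z ∈ ball (0 : ℂ) R, y z ∈ cone S ∧ val s (y z) i₀ = 1) ∧
      (∀ i, ‖val s (y 0) i‖ ≤ 1) ∧
      (∀ i, ∀ w ∈ ball (0 : ℂ) R, val s (y w) i = 0 →
        ∀ k < m, iteratedDeriv k (fun z => val s (y z) i) w = 0) ∧
      (∀ z ∈ ball (0 : ℂ) R, E2 (fun z => val s (y z)) z ≤ 4) ∧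
      E2 (fun z => val s (y z)) 0 = 1 := by
  classical
  set V : ℂ → Fin (n + 1) → ℂ := fun z => val s (x z) with hVdef
  have hV : ∀ i, DifferentiableOn ℂ (fun z => V z i) (ball 0 (2 * R + 1)) :=
    fun i => nrm_diff_eval hx (s i)
  have hV0 : ∀ z ∈ ball (0 : ℂ) (2 * R + 1), V z ≠ 0 := fun z hz hz0 =>
    (h0 z hz).1 (h.fin _ (h0 z hz).2 hz0)
  have h0R : (0 : ℂ) ∈ ball (0 : ℂ) (2 * R + 1) := mem_ball_self (by linarith)
  -- the largest component
  obtain ⟨i₀, -, hi₀⟩ := Finset.exists_max_image (Finset.univ : Finset (Fin (n + 1)))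
    (fun i => ‖V 0 i‖) Finset.univ_nonempty
  have hi₀' : ∀ i, ‖V 0 i‖ ≤ ‖V 0 i₀‖ := fun i => hi₀ i (Finset.mem_univ i)
  have hVi₀ : V 0 i₀ ≠ 0 := by
    intro hz
    apply hV0 0 h0R
    funext i
    have := hi₀' i
    rw [hz, norm_zero] at this
    simpa using this
  have hpos : 0 < ‖V 0 i₀‖ := norm_pos_iff.2 hVi₀
  -- continuity of log nsq
  have hcont : ContinuousOn (fun z => Real.log (nsq (V z))) (ball 0 (2 * R + 1)) := by
    apply ContinuousOn.log
    · unfold nsq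
      exact continuousOn_finsetSum _ fun i _ => ((hV i).continuousOn.norm).pow 2
    · intro z hz
      exact (nsq_pos (hV0 z hz)).ne'
  have hmean := mean V 0 (2 * R) (2 * R + 1) 4 (by linarith) (by linarith) hV hV0 hE
  have hns : nsq (V 0) ≤ (n + 1) * ‖V 0 i₀‖ ^ 2 := by
    unfold nsq
    calc ∑ i, ‖V 0 i‖ ^ 2 ≤ ∑ _i : Fin (n + 1), ‖V 0 i₀‖ ^ 2 :=
          Finset.sum_le_sum fun i _ => by
            have := hi₀' i
            gcongr
      _ = _ := by simp
  have hlog : Real.log (nsq (V 0)) ≤ Real.log (n + 1) + 2 * Real.log ‖V 0 i₀‖ := by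
    calc Real.log (nsq (V 0)) ≤ Real.log ((n + 1) * ‖V 0 i₀‖ ^ 2) :=
          Real.log_le_log (nsq_pos (hV0 0 h0R)) hns
      _ = _ := by
        rw [Real.log_mul (by positivity) (by positivity), Real.log_pow]
        push_cast
        ring
  -- no zero of the component i₀
  have hnz : ∀ w ∈ ball (0 : ℂ) R, V w i₀ ≠ 0 := by
    intro w hw hz
    have hwR : ‖w‖ < R := by simpa using hw
    have hw' : w ∈ ball (0 : ℂ) (2 * R + 1) := by
      rw [mem_ball_zero_iff]; linarith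
    have hsub : sphere (0 : ℂ) (2 * R) ⊆ ball 0 (2 * R + 1) := by
      intro z hz
      rw [mem_sphere_zero_iff_norm] at hz
      rw [mem_ball_zero_iff]; linarith
    have hj := jensen_mult (fun z => V z i₀) (fun z => 1 / 2 * Real.log (nsq (V z))) 0 w (2 * R)
      (2 * R + 1) m (by linarith) (by linarith) (hV i₀) hVi₀ (by rw [sub_zero]; linarith)
      (hmult i₀ w hw' hz) ((hcont.mono hsub).const_smul (1 / 2 : ℝ))
      (fun z hz => nrm_sqrt_nsq (hV0 z (hsub hz)) i₀)
    have hav : Real.circleAverage (fun z => 1 / 2 * Real.log (nsq (V z))) 0 (2 * R) =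
        1 / 2 * Real.circleAverage (fun z => Real.log (nsq (V z))) 0 (2 * R) := by
      have := Real.circleAverage_fun_smul (a := (1 / 2 : ℝ)) (c := (0 : ℂ)) (R := 2 * R)
        (f := fun z => Real.log (nsq (V z)))
      simpa [smul_eq_mul] using this
    rw [hav] at hj
    have h5 : (2 * R) ^ 2 = 4 * R ^ 2 := by ring
    rw [h5] at hmean
    have h6 : Real.log ‖(fun z => V z i₀) 0‖ = Real.log ‖V 0 i₀‖ := rfl
    rw [h6] at hj
    linarith
  have hVR : ∀ i, DifferentiableOn ℂ (fun z => V z i) (ball 0 R) :=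
    fun i => (hV i).mono (ball_subset_ball (by linarith))
  obtain ⟨l, hl, hl'⟩ := exists_root (fun z => V z i₀) R e h.epos (hVR i₀) hnz
  have hsubR : ball (0 : ℂ) R ⊆ ball 0 (2 * R + 1) := ball_subset_ball (by linarith)
  set y : ℂ → Fin (N + 1) → ℂ := fun z => (l z)⁻¹ • x z with hy
  have hval : ∀ z ∈ ball (0 : ℂ) R, ∀ i, val s (y z) i = (V z i₀)⁻¹ * V z i := by
    intro z hz i
    rw [hy]
    simp only
    rw [h.val_smul, Pi.smul_apply, smul_eq_mul, inv_pow, (hl' z hz).2]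
  have h00 : (0 : ℂ) ∈ ball (0 : ℂ) R := mem_ball_self hR
  have hE2 : ∀ z ∈ ball (0 : ℂ) R, E2 (fun z => val s (y z)) z = E2 V z := by
    intro z hz
    have hnh : ball (0 : ℂ) R ∈ 𝓝 z := isOpen_ball.mem_nhds hz
    have hVz : ∀ i, ∀ᶠ w in 𝓝 z, DifferentiableAt ℂ (fun w => V w i) w := by
      intro i
      filter_upwards [hnh] with w hw
      exact (hVR i).differentiableAt (isOpen_ball.mem_nhds hw)
    refine E2_scale V (fun z => val s (y z)) z hVz ?_ (hV0 z (hsubR hz)) ?_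
    · intro i
      filter_upwards [hnh] with w hw
      have h7 : DifferentiableAt ℂ (fun w => (V w i₀)⁻¹ * V w i) w :=
        (((hVR i₀).differentiableAt (isOpen_ball.mem_nhds hw)).inv (hnz w hw)).mul
          ((hVR i).differentiableAt (isOpen_ball.mem_nhds hw))
      refine h7.congr_of_eventuallyEq ?_
      filter_upwards [isOpen_ball.mem_nhds hw] with u hu
      exact hval u hu i
    · filter_upwards [hnh] with w hw
      refine ⟨(V w i₀)⁻¹, inv_ne_zero (hnz w hw), ?_⟩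
      funext i
      rw [hval w hw i]
      rfl
  refine ⟨i₀, y, ?_, ?_, ?_, ?_, ?_, ?_⟩
  · intro j
    have : DifferentiableOn ℂ (fun z => (l z)⁻¹ * x z j) (ball 0 R) :=
      (hl.inv fun z hz => (hl' z hz).1).mul ((hx j).mono hsubR)
    exact this
  · intro z hz
    refine ⟨h.smul_mem (h0 z (hsubR hz)).2 _, ?_⟩
    rw [hval z hz i₀, inv_mul_cancel₀ (hnz z hz)]
  · intro i
    rw [hval 0 h00 i, norm_mul, norm_inv, inv_mul_le_iff₀ hpos, mul_one]
    exact hi₀' i
  · intro i w hw hz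
    rw [hval w hw i] at hz
    have hz' : V w i = 0 := by
      rcases mul_eq_zero.1 hz with h8 | h8
      · exact absurd h8 (inv_ne_zero (hnz w hw))
      · exact h8
    have hnw : ball (0 : ℂ) R ∈ 𝓝 w := isOpen_ball.mem_nhds hw
    have ha1 : AnalyticAt ℂ (fun z => V z i) w := (hVR i).analyticAt hnw
    have ha2 : AnalyticAt ℂ (fun z => V z i₀) w := (hVR i₀).analyticAt hnw
    refine nrm_mult (f := fun z => V z i) (g := fun z => (V z i₀)⁻¹) ha1 (ha2.inv (hnz w hw)) ?_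
      (hmult i w (hsubR hw) hz')
    filter_upwards [hnw] with u hu
    exact hval u hu i
  · intro z hz
    rw [hE2 z hz]
    exact hE z (hsubR hz)
  · rw [hE2 0 h00]
    exact hE0

end LangKC
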