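import Pool.Agent.Lib_helper83.KC.Base
import Pool.Agent.Lib_helper34.LangH1
import Pool.Agent.Lib_helper59.Lang.Bdd

/-! Block LIF of the theorem on Kummer covers, by helper92. -/

/-! Block LIF: lifts of holomorphic maps to projective space on discs. -/

open Complex Metric Filter Topology

namespace LangKC

variable {N n : ℕ} {S : Set (MvPolynomial (Fin (N + 1)) ℂ)}
  {s : Fin (n + 1) → MvPolynomial (Fin (N + 1)) ℂ} {e : ℕ}

open LangFC in
/-- only finitely many points of a compact set lie in the divisors -/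
lemma lif_finite {ι : Type*} (I : Finset ι) (u : ι → ℂ → ℂ) {K : Set ℂ} (hK : IsCompact K) :
    {z ∈ K | ¬ ∀ i ∈ I, dv (u i) z = 0}.Finite := by
  by_contra hinf
  obtain ⟨a, -, ha⟩ := Set.Infinite.exists_accPt_of_subset_isCompact hinf hK (Set.sep_subset _ _)
  rw [accPt_iff_frequently_nhdsNE] at ha
  obtain ⟨z, hz1, hz2⟩ := (ha.and_eventually (h1_eventually_good I u a)).exists
  exact hz1.2 hz2

open LangFC in
/-- LIF -/
theorem lift (φ : ℂ → PS N) (hφ : LangFC.IsHolo φ) (R : ℝ) :
    ∃ x : ℂ → Fin (N + 1) → ℂ, (∀ j, DifferentiableOn ℂ (fun z => x z j) (ball 0 R)) ∧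
      ∀ z ∈ ball (0 : ℂ) R, ∃ h : x z ≠ 0, φ z = Projectivization.mk ℂ (x z) h := by
  classical
  obtain ⟨I, u, hnice, hu0, hmk, -⟩ := exists_ratios_pr φ hφ
  have hI : I.Nonempty := by
    obtain ⟨z, hz⟩ := exists_good_point_pr I u hnice
    obtain ⟨h, -⟩ := hmk z hz
    obtain ⟨i, hi⟩ := Function.ne_iff.1 h
    refine ⟨i, ?_⟩
    by_contra hcon
    exact hi (hu0 i hcon z)
  set D : ℂ → ℤ := fun p => if p ∈ closedBall (0 : ℂ) R then
    - I.inf' hI (fun i => dv (u i) p) else 0 with hD
  have hDfin : D.HasFiniteSupport := by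
    refine (lif_finite I u (isCompact_closedBall (0 : ℂ) R)).subset ?_
    intro p hp
    rw [Function.mem_support] at hp
    by_cases hpK : p ∈ closedBall (0 : ℂ) R
    · refine ⟨hpK, fun hall => hp ?_⟩
      simp only [hD, hpK, if_true]
      rw [neg_eq_zero]
      obtain ⟨i, hi, hi2⟩ := Finset.exists_mem_eq_inf' hI (fun i => dv (u i) p)
      rw [hi2]
      exact hall i hi
    · refine absurd ?_ hp
      simp only [hD]
      rw [if_neg hpK]
  set Q : ℂ → ℂ := ∏ᶠ p, (· - p) ^ D p with hQ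
  have hQmer : ∀ z, MeromorphicAt Q z := fun z =>
    (Function.FactorizedRational.meromorphicNFOn_univ D (Set.mem_univ z)).meromorphicAt
  have hQord : ∀ z, meromorphicOrderAt Q z = D z := fun z =>
    Function.FactorizedRational.meromorphicOrderAt_eq D hDfin
  have hgmer : ∀ i, i ∈ I → MeromorphicOn (u i * Q) Set.univ := fun i hi z _ =>
    ((hnice i hi).meromorphic z).mul (hQmer z)
  set x : ℂ → Fin (N + 1) → ℂ := fun z i =>
    if i ∈ I then toMeromorphicNFOn (u i * Q) Set.univ z else 0 with hx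
  have hxI : ∀ i ∈ I, (fun z => x z i) = toMeromorphicNFOn (u i * Q) Set.univ := by
    intro i hi
    funext z
    simp [hx, hi]
  have hxeq : ∀ i a, ∀ᶠ z in 𝓝[≠] a, x z i = u i z * Q z := by
    intro i a
    by_cases hi : i ∈ I
    · have h1 := (hgmer i hi).toMeromorphicNFOn_eq_self_on_nhdsNE (Set.mem_univ a)
      filter_upwards [h1] with z hz
      have h2 : x z i = toMeromorphicNFOn (u i * Q) Set.univ z := by simp [hx, hi]
      rw [h2, hz, Pi.mul_apply]
    · refine Filter.Eventually.of_forall fun z => ?_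
      rw [hu0 i hi, zero_mul]
      simp [hx, hi]
  have hxnf : ∀ i ∈ I, ∀ a, MeromorphicNFAt (fun z => x z i) a := by
    intro i hi a
    rw [hxI i hi]
    exact meromorphicNFOn_toMeromorphicNFOn _ _ (Set.mem_univ a)
  have hxord : ∀ i ∈ I, ∀ a, meromorphicOrderAt (fun z => x z i) a =
      ((dv (u i) a + D a : ℤ) : WithTop ℤ) := by
    intro i hi a
    rw [hxI i hi, meromorphicOrderAt_toMeromorphicNFOn (hgmer i hi) (Set.mem_univ a),
      meromorphicOrderAt_mul ((hnice i hi).meromorphic a) (hQmer a), (hnice i hi).order_eq, hQord]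
    norm_cast
  have hDball : ∀ a ∈ ball (0 : ℂ) R, D a = - I.inf' hI (fun i => dv (u i) a) := by
    intro a ha
    simp only [hD]
    rw [if_pos (ball_subset_closedBall ha)]
  have hxan : ∀ i, ∀ a ∈ ball (0 : ℂ) R, AnalyticAt ℂ (fun z => x z i) a := by
    intro i a ha
    by_cases hi : i ∈ I
    · apply (hxnf i hi a).meromorphicOrderAt_nonneg_iff_analyticAt.1
      rw [hxord i hi a, hDball a ha]
      have : I.inf' hI (fun i => dv (u i) a) ≤ dv (u i) a :=
        Finset.inf'_le (fun i => dv (u i) a) hi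
      exact_mod_cast (by linarith : 0 ≤ dv (u i) a + - I.inf' hI (fun i => dv (u i) a))
    · have : (fun z => x z i) = fun _ => 0 := by
        funext z
        simp [hx, hi]
      rw [this]
      exact analyticAt_const
  refine ⟨x, fun i a ha => (hxan i a ha).differentiableAt.differentiableWithinAt, fun a ha => ?_⟩
  obtain ⟨k, hk, hk2⟩ := Finset.exists_mem_eq_inf' hI (fun i => dv (u i) a)
  have hxk : x a k ≠ 0 := by
    apply (hxnf k hk a).meromorphicOrderAt_eq_zero_iff.1
    rw [hxord k hk a, hDball a ha, hk2]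
    simp
  have hx0 : x a ≠ 0 := fun hcon => hxk (by rw [hcon]; rfl)
  refine ⟨hx0, ?_⟩
  obtain ⟨h, han, ⟨h0, hfa⟩, hev⟩ := h1_lift hφ a
  have hprop : ∀ i j, x a i * h a j = x a j * h a i := by
    intro i j
    have h1 : Tendsto (fun z => x z i * h z j) (𝓝[≠] a) (𝓝 (x a i * h a j)) :=
      (((hxan i a ha).continuousAt.mul (han j).continuousAt).tendsto).mono_left nhdsWithin_le_nhds
    have h2 : Tendsto (fun z => x z j * h z i) (𝓝[≠] a) (𝓝 (x a j * h a i)) :=
      (((hxan j a ha).continuousAt.mul (han i).continuousAt).tendsto).mono_left nhdsWithin_le_nhds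
    refine tendsto_nhds_unique (h1.congr' ?_) h2
    filter_upwards [hxeq i a, hxeq j a, h1_eventually_good I u a,
      hev.filter_mono nhdsWithin_le_nhds] with z hz1 hz2 hz3 hz4
    obtain ⟨c, hc, hci⟩ := hz4
    obtain ⟨hne, hmkz⟩ := hmk z hz3
    obtain ⟨d, hd⟩ := Projectivization.exists_smul_eq_mk_rep ℂ (fun i => u i z) hne
    have hrep : ∀ i, (φ z).rep i = (d : ℂ) * u i z := by
      intro i
      rw [hmkz, ← hd]
      simp [Units.smul_def]
    rw [hz1, hz2, hci i, hci j, hrep i, hrep j]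
    ring
  rw [hfa, Projectivization.mk_eq_mk_iff']
  refine ⟨h a k / x a k, ?_⟩
  funext j
  rw [Pi.smul_apply, smul_eq_mul, div_mul_eq_mul_div, div_eq_iff hxk, mul_comm (h a k),
    mul_comm (h a j)]
  exact hprop j k

end LangKC
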