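import Pool.Agent.Lib_helper83.KC.Base
import Pool.Agent.Lib_helper83.KCA.BRP
import Pool.Agent.Lib_helper83.KCA.CST
import Pool.Agent.Lib_helper83.KCA.EDA
import Pool.Agent.Lib_helper83.KCA.LIF

/-! Block STG of the theorem on Kummer covers, by helper67. -/

open Complex Metric Filter Topology

namespace LangKC

variable {N n : ℕ} {S : Set (MvPolynomial (Fin (N + 1)) ℂ)}
  {s : Fin (n + 1) → MvPolynomial (Fin (N + 1)) ℂ} {e : ℕ}

lemma stg_iter (F : ℂ → ℂ) (a t : ℂ) (k : ℕ) :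
    iteratedDeriv k (fun z => F (a + t * z)) = fun w => t ^ k * iteratedDeriv k F (a + t * w) := by
  induction k with
  | zero => simp
  | succ k ih =>
    rw [iteratedDeriv_succ, ih]
    funext w
    rw [deriv_const_mul_field]
    have h1 : deriv (fun y => iteratedDeriv k F (a + t * y)) w =
        t * deriv (iteratedDeriv k F) (a + t * w) := by
      have h2 := deriv_comp_mul_left t (fun u => iteratedDeriv k F (a + u)) w
      rw [smul_eq_mul] at h2
      rw [h2, deriv_comp_const_add]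
    rw [h1, iteratedDeriv_succ, pow_succ]
    ring

lemma stg_diff_val {x : ℂ → Fin (N + 1) → ℂ} {U : Set ℂ}
    (hx : ∀ j, DifferentiableOn ℂ (fun z => x z j) U) (F : MvPolynomial (Fin (N + 1)) ℂ) :
    DifferentiableOn ℂ (fun z => MvPolynomial.eval (x z) F) U := by
  have : (fun z => MvPolynomial.eval (x z) F) =
      fun z => ∑ d ∈ F.support, F.coeff d * ∏ i, x z i ^ d i := by
    funext z
    rw [MvPolynomial.eval_eq']
  rw [this]
  apply DifferentiableOn.fun_sum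
  intro d _
  apply DifferentiableOn.const_mul
  apply DifferentiableOn.fun_finsetProd
  intro i _
  exact (hx i).pow _

theorem stage (h : Setup S s e) (m : ℕ) (hm : ¬ OrbifoldHyperbolic m S s) (R : ℝ) (hR : 0 < R) :
    ∃ x : ℂ → Fin (N + 1) → ℂ, (∀ j, DifferentiableOn ℂ (fun z => x z j) (ball 0 R)) ∧
      (∀ z ∈ ball (0 : ℂ) R, x z ≠ 0 ∧ x z ∈ cone S) ∧
      (∀ i, ∀ w ∈ ball (0 : ℂ) R, val s (x w) i = 0 →
        ∀ k < m, iteratedDeriv k (fun z => val s (x z) i) w = 0) ∧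
      (∀ z ∈ ball (0 : ℂ) R, E2 (fun z => val s (x z)) z ≤ 4) ∧
      E2 (fun z => val s (x z)) 0 = 1 := by
  unfold OrbifoldHyperbolic at hm
  push Not at hm
  obtain ⟨φ, hφ, hφS, hram, p, p', hpp⟩ := hm
  have hlift : ∀ ρ : ℝ, ∃ x : ℂ → Fin (N + 1) → ℂ,
      (∀ j, DifferentiableOn ℂ (fun z => x z j) (ball 0 ρ)) ∧
      (∀ z ∈ ball (0 : ℂ) ρ, x z ≠ 0 ∧ x z ∈ cone S) ∧
      ∀ z ∈ ball (0 : ℂ) ρ, ∃ h : x z ≠ 0, φ z = Projectivization.mk ℂ (x z) h := by
    intro ρ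
    obtain ⟨x, hx1, hx2⟩ := lift φ hφ ρ
    refine ⟨x, hx1, fun z hz => ?_, hx2⟩
    obtain ⟨hne, heq⟩ := hx2 z hz
    refine ⟨hne, ?_⟩
    obtain ⟨a, ha⟩ := Projectivization.exists_smul_eq_mk_rep ℂ (x z) hne
    have h1 : x z = ((a⁻¹ : ℂˣ) : ℂ) • (φ z).rep := by
      rw [heq, ← ha]
      change x z = a⁻¹ • a • x z
      rw [inv_smul_smul]
    rw [h1]
    exact h.smul_mem (hφS z) _
  set ρ0 : ℝ := ‖p‖ + ‖p'‖ + 1 with hρ0
  obtain ⟨x0, hx0, hx0S, hx0φ⟩ := hlift ρ0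
  have hpb : p ∈ ball (0 : ℂ) ρ0 := by
    rw [mem_ball_zero_iff]
    have := norm_nonneg p'
    linarith
  have hpb' : p' ∈ ball (0 : ℂ) ρ0 := by
    rw [mem_ball_zero_iff]
    have := norm_nonneg p
    linarith
  have hex : ∃ a0 ∈ ball (0 : ℂ) ρ0, E2 (fun z => val s (x0 z)) a0 ≠ 0 := by
    by_contra hcon
    push Not at hcon
    obtain ⟨l, hl, hl2⟩ := const_of_E2 h x0 ρ0 hx0 (fun z hz => (hx0S z hz).1)
      (fun z hz => (hx0S z hz).2) hcon p hpb p' hpb'
    obtain ⟨h1, h2⟩ := hx0φ p hpb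
    obtain ⟨h3, h4⟩ := hx0φ p' hpb'
    apply hpp
    rw [h2, h4, Projectivization.mk_eq_mk_iff']
    refine ⟨l⁻¹, ?_⟩
    rw [hl2, smul_smul, inv_mul_cancel₀ hl, one_smul]
  obtain ⟨a0, ha0, hE0⟩ := hex
  set E0 := E2 (fun z => val s (x0 z)) a0 with hE0def
  have hE0pos : 0 < E0 := lt_of_le_of_ne (E2_nonneg _ _) (Ne.symm hE0)
  have hs0 : 0 < Real.sqrt E0 := Real.sqrt_pos.2 hE0pos
  set ρ : ℝ := 2 * R / Real.sqrt E0 with hρ
  have hρpos : 0 < ρ := by positivity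
  obtain ⟨x1, hx1, hx1S, hx1φ⟩ := hlift (ρ0 + ρ + 1)
  have hVd : ∀ i, DifferentiableOn ℂ (fun z => val s (x1 z) i) (ball 0 (ρ0 + ρ + 1)) :=
    fun i => stg_diff_val hx1 (s i)
  have hV0 : ∀ z ∈ ball (0 : ℂ) (ρ0 + ρ + 1), val s (x1 z) ≠ 0 := fun z hz h1 =>
    (hx1S z hz).1 (h.fin _ (hx1S z hz).2 h1)
  have ha0' : ‖a0‖ < ρ0 := mem_ball_zero_iff.1 ha0
  have ha1 : a0 ∈ ball (0 : ℂ) (ρ0 + ρ + 1) := by
    rw [mem_ball_zero_iff]
    linarith
  have hEq : E2 (fun z => val s (x1 z)) a0 = E0 := by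
    rw [hE0def]
    apply E2_scale
    · intro i
      filter_upwards [isOpen_ball.mem_nhds ha0] with w hw
      exact (stg_diff_val hx0 (s i)).differentiableAt (isOpen_ball.mem_nhds hw)
    · intro i
      filter_upwards [isOpen_ball.mem_nhds ha1] with w hw
      exact (hVd i).differentiableAt (isOpen_ball.mem_nhds hw)
    · exact fun h1 => (hx0S a0 ha0).1 (h.fin _ (hx0S a0 ha0).2 h1)
    · filter_upwards [isOpen_ball.mem_nhds ha0, isOpen_ball.mem_nhds ha1] with w hw hw'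
      obtain ⟨h1, h2⟩ := hx0φ w hw
      obtain ⟨h3, h4⟩ := hx1φ w hw'
      rw [h2, Projectivization.mk_eq_mk_iff'] at h4
      obtain ⟨l, hl⟩ := h4
      have hl0 : l ≠ 0 := by
        rintro rfl
        rw [zero_smul] at hl
        exact h1 hl.symm
      refine ⟨l⁻¹ ^ e, pow_ne_zero _ (inv_ne_zero hl0), ?_⟩
      have h5 : x1 w = l⁻¹ • x0 w := by
        rw [← hl, smul_smul, inv_mul_cancel₀ hl0, one_smul]
      rw [h5]
      exact h.val_smul _ _
  have hsub : closedBall a0 ρ ⊆ ball (0 : ℂ) (ρ0 + ρ + 1) := by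
    intro z hz
    rw [mem_closedBall_iff_norm] at hz
    rw [mem_ball_zero_iff]
    calc ‖z‖ = ‖(z - a0) + a0‖ := by rw [sub_add_cancel]
      _ ≤ ‖z - a0‖ + ‖a0‖ := norm_add_le _ _
      _ < ρ0 + ρ + 1 := by linarith
  obtain ⟨a, ha, hga, hgz⟩ := brody_point (fun z => Real.sqrt (E2 (fun z => val s (x1 z)) z)) a0 ρ R
    hR hρpos (((E2_continuousOn (fun z => val s (x1 z)) isOpen_ball hVd hV0).mono hsub).sqrt)
    (fun z _ => Real.sqrt_nonneg _) (by
      rw [hEq, hρ, div_mul_cancel₀ _ hs0.ne'])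
  set G := Real.sqrt (E2 (fun z => val s (x1 z)) a) with hG
  have hG2 : G ^ 2 = E2 (fun z => val s (x1 z)) a := Real.sq_sqrt (E2_nonneg _ _)
  set t : ℂ := ((G⁻¹ : ℝ) : ℂ) with ht
  have htn : ‖t‖ = G⁻¹ := by
    rw [ht, Complex.norm_real, Real.norm_of_nonneg (by positivity)]
  have hdom : ∀ z ∈ ball (0 : ℂ) R, a + t * z ∈ ball a0 ρ ∧
      Real.sqrt (E2 (fun z => val s (x1 z)) (a + t * z)) ≤ 2 * G := by
    intro z hz
    rw [mem_ball_zero_iff] at hz
    apply hgz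
    rw [add_sub_cancel_left, norm_mul, htn, div_eq_inv_mul]
    exact mul_lt_mul_of_pos_left hz (by positivity)
  have hdom' : ∀ z ∈ ball (0 : ℂ) R, a + t * z ∈ ball (0 : ℂ) (ρ0 + ρ + 1) := fun z hz =>
    hsub (ball_subset_closedBall (hdom z hz).1)
  have haff : ∀ z ∈ ball (0 : ℂ) R, E2 (fun z => val s (x1 (a + t * z))) z =
      ‖t‖ ^ 2 * E2 (fun z => val s (x1 z)) (a + t * z) := by
    intro z hz
    exact E2_affine (fun z => val s (x1 z)) a t z fun i =>
      (hVd i).differentiableAt (isOpen_ball.mem_nhds (hdom' z hz))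
  have h0R : (0 : ℂ) ∈ ball (0 : ℂ) R := mem_ball_self hR
  refine ⟨fun z => x1 (a + t * z), fun j => ?_, fun z hz => hx1S _ (hdom' z hz), ?_, ?_, ?_⟩
  · intro z hz
    have h1 : DifferentiableAt ℂ (fun z => x1 z j) (a + t * z) :=
      (hx1 j).differentiableAt (isOpen_ball.mem_nhds (hdom' z hz))
    have h2 : DifferentiableAt ℂ (fun z : ℂ => a + t * z) z := by fun_prop
    exact (DifferentiableAt.comp z h1 h2).differentiableWithinAt
  · intro i w hw hzero k hk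
    have hw' := hdom' w hw
    have h1 := hram i (a + t * w) x1 (by
      filter_upwards [isOpen_ball.mem_nhds hw'] with z hz
      rw [differentiableAt_pi]
      exact fun j => (hx1 j).differentiableAt (isOpen_ball.mem_nhds hz)) (by
      filter_upwards [isOpen_ball.mem_nhds hw'] with z hz
      exact hx1φ z hz) hzero k hk
    have h2 := congrFun (stg_iter (fun z => MvPolynomial.eval (x1 z) (s i)) a t k) w
    change iteratedDeriv k (fun z => MvPolynomial.eval (x1 (a + t * z)) (s i)) w = 0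
    rw [h2, h1, mul_zero]
  · intro z hz
    rw [haff z hz, htn]
    have h1 := (hdom z hz).2
    have h2 : E2 (fun z => val s (x1 z)) (a + t * z) ≤ (2 * G) ^ 2 := by
      rw [← Real.sq_sqrt (E2_nonneg (fun z => val s (x1 z)) (a + t * z))]
      exact pow_le_pow_left₀ (Real.sqrt_nonneg _) h1 2
    calc G⁻¹ ^ 2 * E2 (fun z => val s (x1 z)) (a + t * z) ≤ G⁻¹ ^ 2 * (2 * G) ^ 2 :=
          mul_le_mul_of_nonneg_left h2 (by positivity)
      _ = 4 := by
          field_simp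
          norm_num
  · rw [haff 0 h0R, htn, mul_zero, add_zero, ← hG2]
    field_simp

end LangKC
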