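import Pool.Agent.Lib_helper83.KC.Base

/-! Block ULT of the theorem on Kummer covers, by helper7. -/

/-! Block ULT of the theorem on Kummer covers. -/

open Complex Metric Filter Topology

namespace LangKC

/-- Cauchy's estimate gives a Lipschitz bound. -/
lemma ult_lip {f : ℂ → ℂ} {r C : ℝ} (hd : DifferentiableOn ℂ f (ball 0 (r + 1)))
    (hb : ∀ z ∈ ball (0 : ℂ) (r + 1), ‖f z‖ ≤ C) :
    ∀ x ∈ ball (0 : ℂ) r, ∀ y ∈ ball (0 : ℂ) r, ‖f y - f x‖ ≤ 2 * C * ‖y - x‖ := by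
  intro x hx y hy
  have hsub : ball (0 : ℂ) r ⊆ ball (0 : ℂ) (r + 1) := ball_subset_ball (by linarith)
  refine Convex.norm_image_sub_le_of_norm_deriv_le (s := ball (0 : ℂ) r) (fun z hz => ?_)
    (fun z hz => ?_) (convex_ball 0 r) hx hy
  · exact hd.differentiableAt (isOpen_ball.mem_nhds (hsub hz))
  · have hz' : ‖z‖ < r := by simpa using hz
    have hcl : closedBall z (1 / 2) ⊆ ball (0 : ℂ) (r + 1) := by
      intro w hw
      rw [mem_closedBall, dist_eq_norm] at hw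
      rw [mem_ball_zero_iff]
      have h5 := norm_add_le (w - z) z
      rw [sub_add_cancel] at h5
      linarith
    have h1 := norm_deriv_le_of_forall_mem_sphere_norm_le (c := z) (R := 1 / 2) (C := C) (f := f)
      (by norm_num)
      (by
        apply DifferentiableOn.diffContOnCl
        rw [closure_ball z (by norm_num)]
        exact hd.mono hcl)
      (fun w hw => hb w (hcl (sphere_subset_closedBall hw)))
    linarith

theorem ultra_limit {ι : Type*} (U : Ultrafilter ι) (f : ι → ℂ → ℂ)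
    (hd : ∀ r : ℝ, ∀ᶠ ν in (U : Filter ι), DifferentiableOn ℂ (f ν) (ball 0 r))
    (hb : ∀ r : ℝ, ∃ C : ℝ, ∀ᶠ ν in (U : Filter ι), ∀ z ∈ ball (0 : ℂ) r, ‖f ν z‖ ≤ C) :
    ∃ F : ℂ → ℂ, Differentiable ℂ F ∧ TendstoLocallyUniformly f F (U : Filter ι) ∧
      (∀ z, Tendsto (fun ν => f ν z) U (𝓝 (F z))) ∧
      ∀ z, Tendsto (fun ν => deriv (f ν) z) U (𝓝 (deriv F z)) := by
  have hpt : ∀ z : ℂ, ∃ w : ℂ, Tendsto (fun ν => f ν z) U (𝓝 w) := by
    intro z
    obtain ⟨C, hC⟩ := hb (‖z‖ + 1)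
    have h1 : ∀ᶠ ν in (U : Filter ι), f ν z ∈ closedBall (0 : ℂ) C := by
      filter_upwards [hC] with ν hν
      rw [mem_closedBall_zero_iff]
      exact hν z (by rw [mem_ball_zero_iff]; linarith)
    obtain ⟨w, -, hw⟩ := (isCompact_closedBall (0 : ℂ) C).ultrafilter_le_nhds
      (U.map fun ν => f ν z) (by
        rw [le_principal_iff]
        exact h1)
    exact ⟨w, hw⟩
  choose F hF using hpt
  have hlip : ∀ r : ℝ, ∃ C : ℝ, 0 < C ∧ (∀ᶠ ν in (U : Filter ι), ∀ x ∈ ball (0 : ℂ) r,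
      ∀ y ∈ ball (0 : ℂ) r, ‖f ν y - f ν x‖ ≤ C * ‖y - x‖) := by
    intro r
    obtain ⟨C, hC⟩ := hb (r + 1)
    refine ⟨2 * |C| + 1, by positivity, ?_⟩
    filter_upwards [hC, hd (r + 1)] with ν h1 h2 x hx y hy
    have h3 := ult_lip h2 h1 x hx y hy
    have h4 : 2 * C ≤ 2 * |C| + 1 := by
      have := le_abs_self C
      linarith
    exact h3.trans (mul_le_mul_of_nonneg_right h4 (norm_nonneg _))
  have hlim : TendstoLocallyUniformly f F (U : Filter ι) := by
    rw [Metric.tendstoLocallyUniformly_iff]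
    intro ε hε x
    obtain ⟨C, hC0, hC⟩ := hlip (‖x‖ + 1)
    have hxm : x ∈ ball (0 : ℂ) (‖x‖ + 1) := by
      rw [mem_ball_zero_iff]; linarith
    have hη : 0 < ε / (3 * C) := by positivity
    refine ⟨ball x (ε / (3 * C)) ∩ ball (0 : ℂ) (‖x‖ + 1),
      inter_mem (ball_mem_nhds x hη) (isOpen_ball.mem_nhds hxm), ?_⟩
    have h1 : ∀ᶠ ν in (U : Filter ι), dist (f ν x) (F x) < ε / 3 :=
      (Metric.tendsto_nhds.1 (hF x)) (ε / 3) (by positivity)
    filter_upwards [h1, hC] with ν h2 h3 y hy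
    have h4 : ‖f ν y - f ν x‖ ≤ C * ‖y - x‖ := h3 x hxm y hy.2
    have h5 : ‖F y - F x‖ ≤ C * ‖y - x‖ := by
      refine le_of_tendsto ((hF y).sub (hF x)).norm ?_
      filter_upwards [hC] with μ hμ
      exact hμ x hxm y hy.2
    have h6 : ‖y - x‖ < ε / (3 * C) := by
      have := hy.1
      rwa [mem_ball, dist_eq_norm] at this
    have h7 : C * ‖y - x‖ < ε / 3 := by
      calc C * ‖y - x‖ < C * (ε / (3 * C)) := mul_lt_mul_of_pos_left h6 hC0
        _ = ε / 3 := by field_simp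
    rw [dist_eq_norm] at h2 ⊢
    have h8 : F y - f ν y = (F y - F x) - (f ν x - F x) - (f ν y - f ν x) := by ring
    calc ‖F y - f ν y‖ = ‖(F y - F x) - (f ν x - F x) - (f ν y - f ν x)‖ := by rw [h8]
      _ ≤ ‖(F y - F x) - (f ν x - F x)‖ + ‖f ν y - f ν x‖ := norm_sub_le _ _
      _ ≤ ‖F y - F x‖ + ‖f ν x - F x‖ + ‖f ν y - f ν x‖ := by
        gcongr
        exact norm_sub_le _ _
      _ < ε := by linarith
  have hlimr : ∀ r : ℝ, TendstoLocallyUniformlyOn f F (U : Filter ι) (ball 0 r) := fun r =>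
    (tendstoLocallyUniformlyOn_univ.2 hlim).mono (Set.subset_univ _)
  have hdiffr : ∀ r : ℝ, DifferentiableOn ℂ F (ball 0 r) := fun r =>
    (hlimr r).differentiableOn (hd r) isOpen_ball
  refine ⟨F, fun z => ?_, hlim, hF, fun z => ?_⟩
  · exact (hdiffr (‖z‖ + 1)).differentiableAt (isOpen_ball.mem_nhds (by
      rw [mem_ball_zero_iff]; linarith))
  · have h1 := (hlimr (‖z‖ + 1)).deriv (hd (‖z‖ + 1)) isOpen_ball
    exact h1.tendsto_at (by rw [mem_ball_zero_iff]; linarith)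

end LangKC
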