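import Pool.Agent.Lib_helper83.KC.Base
import Pool.Agent.Lib_helper83.KCA.BND
import Pool.Agent.Lib_helper83.KCA.CBD
import Pool.Agent.Lib_helper83.KCA.EDA
import Pool.Agent.Lib_helper83.KCA.HUR
import Pool.Agent.Lib_helper83.KCA.JEN
import Pool.Agent.Lib_helper83.KCA.NRM
import Pool.Agent.Lib_helper83.KCA.STG
import Pool.Agent.Lib_helper83.KCA.ULT

/-! Block LIM of the theorem on Kummer covers, by helper83. -/

/-! Block LIM: the limit curve. -/

open Complex Metric Filter Topology

namespace LangKC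

variable {N n : ℕ} {S : Set (MvPolynomial (Fin (N + 1)) ℂ)}
  {s : Fin (n + 1) → MvPolynomial (Fin (N + 1)) ℂ} {e : ℕ}

/-- the normalised curves -/
lemma lim_data (h : Setup S s e) (hm : ∀ m₀ : ℕ, ∃ m ≥ m₀, ¬ OrbifoldHyperbolic m S s) (ν : ℕ) :
    ∃ (m : ℕ) (i₀ : Fin (n + 1)) (y : ℂ → Fin (N + 1) → ℂ), ν ≤ m ∧
      (∀ j, DifferentiableOn ℂ (fun z => y z j) (ball 0 ((ν : ℝ) + 1))) ∧
      (∀ z ∈ ball (0 : ℂ) ((ν : ℝ) + 1), y z ∈ cone S ∧ val s (y z) i₀ = 1) ∧
      (∀ i, ‖val s (y 0) i‖ ≤ 1) ∧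
      (∀ i, ∀ w ∈ ball (0 : ℂ) ((ν : ℝ) + 1), val s (y w) i = 0 →
        ∀ k < m, iteratedDeriv k (fun z => val s (y z) i) w = 0) ∧
      (∀ z ∈ ball (0 : ℂ) ((ν : ℝ) + 1), E2 (fun z => val s (y z)) z ≤ 4) ∧
      E2 (fun z => val s (y z)) 0 = 1 := by
  set R : ℝ := (ν : ℝ) + 1 with hR
  have hRpos : 0 < R := by positivity
  have hlog : 0 < Real.log 2 := Real.log_pos one_lt_two
  obtain ⟨K, hK⟩ := exists_nat_gt ((Real.log (n + 1) / 2 + 8 * R ^ 2) / Real.log 2)
  obtain ⟨m, hmge, hmo⟩ := hm (max ν K)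
  obtain ⟨x, h1, h2, h3, h4, h5⟩ := stage h m hmo (2 * R + 1) (by positivity)
  have hmR : Real.log (n + 1) / 2 + 8 * R ^ 2 < m * Real.log 2 := by
    rw [div_lt_iff₀ hlog] at hK
    have h6 : (K : ℝ) ≤ m := by exact_mod_cast (le_max_right ν K).trans hmge
    nlinarith
  obtain ⟨i₀, y, g1, g2, g3, g4, g5, g6⟩ := normalize h m R hRpos hmR x h1 h2 h3 h4 h5
  exact ⟨m, i₀, y, (le_max_left ν K).trans hmge, g1, g2, g3, g4, g5, g6⟩

theorem limit_curve (h : Setup S s e)
    (hm : ∀ m₀ : ℕ, ∃ m ≥ m₀, ¬ OrbifoldHyperbolic m S s) :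
    ∃ (i₀ : Fin (n + 1)) (y : ℂ → Fin (N + 1) → ℂ), (∀ j, Differentiable ℂ (fun z => y z j)) ∧
      (∀ z, y z ∈ cone S ∧ val s (y z) i₀ = 1) ∧
      (∀ i, (∀ z, val s (y z) i = 0) ∨ ∀ z, val s (y z) i ≠ 0) ∧
      (∀ z, E2 (fun z => val s (y z)) z ≤ 4) ∧ E2 (fun z => val s (y z)) 0 = 1 := by
  classical
  choose m i y hνm hdiff hcone h0 hmult hE hE0 using lim_data h hm
  obtain ⟨C₀, hC₀, hbd⟩ := cone_bound h
  let U : Ultrafilter ℕ := hyperfilter ℕ
  have hU : ∀ {P : ℕ → Prop}, (∀ᶠ ν in atTop, P ν) → ∀ᶠ ν in (U : Filter ℕ), P ν := by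
    intro P hP
    have h1 : (U : Filter ℕ) ≤ atTop := by
      rw [← Nat.cofinite_eq_atTop]
      exact hyperfilter_le_cofinite
    exact h1 hP
  -- large indices
  have hlarge : ∀ r : ℝ, ∀ᶠ ν : ℕ in (U : Filter ℕ), r < (ν : ℝ) + 1 := by
    intro r
    apply hU
    obtain ⟨k, hk⟩ := exists_nat_gt r
    filter_upwards [eventually_ge_atTop k] with ν hν
    have : (k : ℝ) ≤ ν := by exact_mod_cast hν
    linarith
  -- constant index
  obtain ⟨i₀, hi₀⟩ : ∃ i₀, ∀ᶠ ν in (U : Filter ℕ), i ν = i₀ := by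
    obtain ⟨i₀, hi₀⟩ := Ultrafilter.eq_pure_of_finite (U.map i)
    refine ⟨i₀, ?_⟩
    have h1 : ({i₀} : Set (Fin (n + 1))) ∈ U.map i := by
      rw [hi₀]
      exact Set.mem_singleton i₀
    exact h1
  let X : ℕ → ℂ → Fin (n + 1) → ℂ := fun ν z => val s (y ν z)
  let B : ℝ → ℝ := fun r => 3 * (Real.log (n + 1) / 2 + 8 * r ^ 2)
  -- bounds
  have hXb : ∀ (r : ℝ) (ν : ℕ), 0 < r → 2 * r < (ν : ℝ) + 1 → ∀ z : ℂ, ‖z‖ ≤ r → ∀ k,
      ‖X ν z k‖ ≤ Real.exp (B r) := by
    intro r ν hr hrν z hz k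
    exact bound (X ν) (i ν) ((ν : ℝ) + 1) r hr hrν (fun z hz => (hcone ν z hz).2)
      (fun k => differentiableOn_val s (hdiff ν) k) (hE ν) (h0 ν) z hz k
  have hyb : ∀ (r : ℝ) (ν : ℕ), 0 < r → 2 * r < (ν : ℝ) + 1 → ∀ z : ℂ, ‖z‖ ≤ r → ∀ j,
      ‖y ν z j‖ ≤ 1 + C₀ * ((n + 1) * Real.exp (B r)) := by
    intro r ν hr hrν z hz j
    have hzb : z ∈ ball (0 : ℂ) ((ν : ℝ) + 1) := by
      rw [mem_ball_zero_iff]
      linarith
    have h1 := hbd (y ν z) (hcone ν z hzb).1 j
    have h2 : ∑ k, ‖val s (y ν z) k‖ ≤ (n + 1) * Real.exp (B r) := by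
      have h3 : ∑ k : Fin (n + 1), ‖val s (y ν z) k‖ ≤ ∑ _k : Fin (n + 1), Real.exp (B r) :=
        Finset.sum_le_sum fun k _ => hXb r ν hr hrν z hz k
      simpa using h3
    have h4 : C₀ * ∑ k, ‖val s (y ν z) k‖ ≤ C₀ * ((n + 1) * Real.exp (B r)) :=
      mul_le_mul_of_nonneg_left h2 hC₀.le
    rcases le_total ‖y ν z j‖ 1 with h8 | h8
    · have : 0 ≤ C₀ * ((n + 1) * Real.exp (B r)) := by positivity
      linarith
    · have : ‖y ν z j‖ ^ 1 ≤ ‖y ν z j‖ ^ e := pow_le_pow_right₀ h8 h.epos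
      rw [pow_one] at this
      linarith
  -- limits of the coordinates
  have hballsub : ∀ r : ℝ, ∀ ν : ℕ, r < (ν : ℝ) + 1 →
      ball (0 : ℂ) r ⊆ ball (0 : ℂ) ((ν : ℝ) + 1) := fun r ν hr => ball_subset_ball hr.le
  have hlimy : ∀ j, ∃ F : ℂ → ℂ, Differentiable ℂ F ∧
      ∀ z, Tendsto (fun ν => y ν z j) U (𝓝 (F z)) := by
    intro j
    obtain ⟨F, hF1, -, hF3, -⟩ := ultra_limit U (fun ν z => y ν z j)
      (fun r => by
        filter_upwards [hlarge r] with ν hν
        exact (hdiff ν j).mono (hballsub r ν hν))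
      (fun r => by
        refine ⟨1 + C₀ * ((n + 1) * Real.exp (B (|r| + 1))), ?_⟩
        filter_upwards [hlarge (2 * (|r| + 1))] with ν hν
        intro z hz
        rw [mem_ball_zero_iff] at hz
        exact hyb (|r| + 1) ν (by positivity) hν z
          (by have := le_abs_self r; linarith) j)
    exact ⟨F, hF1, hF3⟩
  choose Y hYd hYlim using hlimy
  let y' : ℂ → Fin (N + 1) → ℂ := fun z j => Y j z
  have hy'lim : ∀ z, Tendsto (fun ν => y ν z) U (𝓝 (y' z)) := by
    intro z
    rw [tendsto_pi_nhds]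
    exact fun j => hYlim j z
  have hXlim : ∀ z k, Tendsto (fun ν => X ν z k) U (𝓝 (val s (y' z) k)) := by
    intro z k
    have h1 : Tendsto (fun ν => val s (y ν z)) U (𝓝 (val s (y' z))) :=
      ((continuous_val s).tendsto (y' z)).comp (hy'lim z)
    exact (tendsto_pi_nhds.1 h1) k
  have hXk : ∀ k, TendstoLocallyUniformly (fun ν z => X ν z k) (fun z => val s (y' z) k)
      (U : Filter ℕ) ∧ ∀ z, Tendsto (fun ν => deriv (fun w => X ν w k) z) U
        (𝓝 (deriv (fun w => val s (y' w) k) z)) := by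
    intro k
    obtain ⟨F, -, hF2, hF3, hF4⟩ := ultra_limit U (fun ν z => X ν z k)
      (fun r => by
        filter_upwards [hlarge r] with ν hν
        exact (differentiableOn_val s (hdiff ν) k).mono (hballsub r ν hν))
      (fun r => by
        refine ⟨Real.exp (B (|r| + 1)), ?_⟩
        filter_upwards [hlarge (2 * (|r| + 1))] with ν hν
        intro z hz
        rw [mem_ball_zero_iff] at hz
        exact hXb (|r| + 1) ν (by positivity) hν z
          (by have := le_abs_self r; linarith) k)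
    have hF : F = fun z => val s (y' z) k := by
      funext z
      exact tendsto_nhds_unique (hF3 z) (hXlim z k)
    rw [hF] at hF2 hF4
    exact ⟨hF2, hF4⟩
  have hmem : ∀ z : ℂ, ∀ᶠ ν : ℕ in (U : Filter ℕ), z ∈ ball (0 : ℂ) ((ν : ℝ) + 1) := by
    intro z
    filter_upwards [hlarge ‖z‖] with ν hν
    rw [mem_ball_zero_iff]
    exact hν
  have hone : ∀ z, val s (y' z) i₀ = 1 := by
    intro z
    have h1 : ∀ᶠ ν in (U : Filter ℕ), X ν z i₀ = 1 := by
      filter_upwards [hmem z, hi₀] with ν h2 h3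
      have h4 := (hcone ν z h2).2
      rw [h3] at h4
      exact h4
    have h2 : Tendsto (fun ν => X ν z i₀) U (𝓝 1) :=
      tendsto_const_nhds.congr' (h1.mono fun ν hν => hν.symm)
    exact tendsto_nhds_unique (hXlim z i₀) h2
  have hne : ∀ z, val s (y' z) ≠ 0 := by
    intro z hz
    have := congrFun hz i₀
    rw [hone z] at this
    exact one_ne_zero this
  have hElim : ∀ z, Tendsto (fun ν => E2 (X ν) z) U (𝓝 (E2 (fun z => val s (y' z)) z)) := by
    intro z
    exact E2_tendsto X (fun z => val s (y' z)) z (fun k => hXlim z k) (fun k => (hXk k).2 z)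
      (hne z)
  refine ⟨i₀, y', hYd, fun z => ⟨?_, hone z⟩, ?_, ?_, ?_⟩
  · exact (isClosed_cone S).mem_of_tendsto (hy'lim z)
      ((hmem z).mono fun ν hν => (hcone ν z hν).1)
  · -- zero-free or zero
    intro k
    by_cases hk : ∀ z, val s (y' z) k = 0
    · exact Or.inl hk
    · right
      push Not at hk
      obtain ⟨ζ, hζ⟩ := hk
      have hkd : Differentiable ℂ fun z => val s (y' z) k :=
        (differentiable_val s k).comp (differentiable_pi.2 hYd)
      have hcl := hurwitz (p := (U : Filter ℕ)) (fun ν z => X ν z k) (fun z => val s (y' z) k) hkd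
        (hXk k).1
        (fun r => by
          filter_upwards [hlarge r] with ν hν
          exact (differentiableOn_val s (hdiff ν) k).mono (hballsub r ν hν))
        (fun r => by
          -- parameters
          set ρ : ℝ := 2 * (|r| + ‖ζ‖) + 2 with hρ
          have hρ0 : 0 < ρ := by positivity
          set r' : ℝ := ρ + ‖ζ‖ with hr'
          have hr'0 : 0 < r' := by positivity
          have hδ : 0 < ‖val s (y' ζ) k‖ / 2 := by
            have : 0 < ‖val s (y' ζ) k‖ := norm_pos_iff.2 hζ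
            positivity
          have hev1 : ∀ᶠ ν in (U : Filter ℕ), ‖val s (y' ζ) k‖ / 2 < ‖X ν ζ k‖ := by
            have h1 : Tendsto (fun ν => ‖X ν ζ k‖) U (𝓝 ‖val s (y' ζ) k‖) := (hXlim ζ k).norm
            exact h1.eventually (lt_mem_nhds (by linarith))
          have hlog2 : 0 < Real.log 2 := Real.log_pos one_lt_two
          have hev2 : ∀ᶠ ν : ℕ in (U : Filter ℕ),
              B r' - Real.log (‖val s (y' ζ) k‖ / 2) < (ν : ℝ) * Real.log 2 := by
            apply hU
            obtain ⟨q, hq⟩ := exists_nat_gt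
              ((B r' - Real.log (‖val s (y' ζ) k‖ / 2)) / Real.log 2)
            filter_upwards [eventually_ge_atTop q] with ν hν
            rw [div_lt_iff₀ hlog2] at hq
            have : (q : ℝ) ≤ ν := by exact_mod_cast hν
            nlinarith
          filter_upwards [hev1, hev2, hlarge (2 * r'), hlarge (r' + 1)] with ν h1 h2 h3 h4
          intro z hz h5
          rw [mem_ball_zero_iff] at hz
          have hzball : z ∈ ball (0 : ℂ) ((ν : ℝ) + 1) := by
            rw [mem_ball_zero_iff]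
            have h6 := le_abs_self r
            have h7 := norm_nonneg ζ
            have h8 : r ≤ r' := by rw [hr', hρ]; linarith
            linarith
          have h6 := jensen_mult (fun z => X ν z k) (fun _ => B r') ζ z ρ (ρ + 1) (m ν) hρ0
            (by linarith)
            ((differentiableOn_val s (hdiff ν) k).mono (by
              intro w hw
              rw [mem_ball_iff_norm] at hw
              rw [mem_ball_zero_iff]
              have h7 : ‖w‖ ≤ ‖w - ζ‖ + ‖ζ‖ := by
                calc ‖w‖ = ‖(w - ζ) + ζ‖ := by ring_nf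
                  _ ≤ _ := norm_add_le _ _
              rw [hr'] at h4
              linarith))
            (by
              intro h7
              rw [h7, norm_zero] at h1
              linarith)
            (by
              have h7 : ‖z - ζ‖ ≤ ‖z‖ + ‖ζ‖ := norm_sub_le _ _
              have h8 := le_abs_self r
              rw [hρ]
              linarith)
            (fun q hq => hmult ν k z hzball h5 q hq)
            continuousOn_const
            (by
              intro w hw
              rw [mem_sphere_iff_norm] at hw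
              apply hXb r' ν hr'0 h3 w _ k
              calc ‖w‖ = ‖(w - ζ) + ζ‖ := by ring_nf
                _ ≤ ‖w - ζ‖ + ‖ζ‖ := norm_add_le _ _
                _ = r' := by rw [hw])
          rw [Real.circleAverage_const] at h6
          have h7 : Real.log (‖val s (y' ζ) k‖ / 2) ≤ Real.log ‖X ν ζ k‖ :=
            Real.log_le_log hδ h1.le
          have h8 : (ν : ℝ) ≤ m ν := by exact_mod_cast hνm ν
          have h9 : (ν : ℝ) * Real.log 2 ≤ m ν * Real.log 2 :=
            mul_le_mul_of_nonneg_right h8 hlog2.le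
          linarith)
      rcases hcl with h1 | h1
      · exact absurd (h1 ζ) hζ
      · exact h1
  · intro z
    refine le_of_tendsto (hElim z) ?_
    filter_upwards [hmem z] with ν hν
    exact hE ν z hν
  · have h1 : Tendsto (fun ν => E2 (X ν) 0) U (𝓝 1) := by
      apply tendsto_const_nhds.congr
      intro ν
      exact (hE0 ν).symm
    exact tendsto_nhds_unique (hElim 0) h1

end LangKC
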