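import Pool.Agent.Lib_helper83.KC.Base

/-! Block ORB of the theorem on Kummer covers, by helper76. -/

/-! Block ORB. -/

open Complex Metric Filter Topology

namespace LangKC

variable {N n : ℕ} {S : Set (MvPolynomial (Fin (N + 1)) ℂ)}
  {s : Fin (n + 1) → MvPolynomial (Fin (N + 1)) ℂ} {e : ℕ}

lemma orb_rep {k : ℕ} {p : PS k} {v : Fin (k + 1) → ℂ} {hv : v ≠ 0}
    (h : p = Projectivization.mk ℂ v hv) : ∃ a : ℂ, a ≠ 0 ∧ p.rep = a • v := by
  obtain ⟨a, ha⟩ := Projectivization.exists_smul_eq_mk_rep ℂ v hv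
  refine ⟨(a : ℂ), a.ne_zero, ?_⟩
  rw [h, ← ha]
  rfl

lemma orb_mem (h : Setup S s e) {m : ℕ} {p : PS N} {q : PS n} (hpq : (p, q) ∈ kummer m S s)
    {x : Fin (N + 1) → ℂ} {u : Fin (n + 1) → ℂ} {hx : x ≠ 0} {hu : u ≠ 0}
    (hp : p = Projectivization.mk ℂ x hx) (hq : q = Projectivization.mk ℂ u hu) :
    x ∈ cone S ∧ ∀ i j, val s x i * u j ^ m = val s x j * u i ^ m := by
  obtain ⟨a, ha, ha'⟩ := orb_rep hp
  obtain ⟨b, hb, hb'⟩ := orb_rep hq
  obtain ⟨h1, h2⟩ := hpq
  simp only at h1 h2
  constructor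
  · have h3 := h.smul_mem h1 a⁻¹
    rwa [ha', smul_smul, inv_mul_cancel₀ ha, one_smul] at h3
  · intro i j
    have h3 := h2 i j
    rw [ha', hb', h.val_smul] at h3
    simp only [Pi.smul_apply, smul_eq_mul, mul_pow] at h3
    have h4 : a ^ e * b ^ m ≠ 0 := mul_ne_zero (pow_ne_zero _ ha) (pow_ne_zero _ hb)
    apply mul_left_cancel₀ h4
    linear_combination h3

lemma orb_ram (h : Setup S s e) (m : ℕ) (φ : ℂ → PS N) (ψ : ℂ → PS n)
    (hψ : LangFC.IsHolo ψ) (hZ : ∀ z, (φ z, ψ z) ∈ kummer m S s) (i : Fin (n + 1)) :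
    RamifiedAlong m (s i) φ := by
  intro a x hx1 hx2 h0 k hk
  obtain ⟨u, hu1, hu2⟩ := hψ a
  have hrel : ∀ᶠ z in 𝓝 a, x z ∈ cone S ∧
      ∀ i j, val s (x z) i * u z j ^ m = val s (x z) j * u z i ^ m := by
    filter_upwards [hx2, hu2] with z hz1 hz2
    obtain ⟨p1, p2⟩ := hz1
    obtain ⟨q1, q2⟩ := hz2
    exact orb_mem h (hZ z) p2 q2
  obtain ⟨hxa, -⟩ := hx2.self_of_nhds
  obtain ⟨hua, -⟩ := hu2.self_of_nhds
  obtain ⟨j, hj⟩ := Function.ne_iff.1 hua
  have hj' : u a j ≠ 0 := hj
  have hval : ∀ i, AnalyticAt ℂ (fun z => val s (x z) i) a := by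
    intro i
    rw [Complex.analyticAt_iff_eventually_differentiableAt]
    filter_upwards [hx1] with z hz
    exact (differentiable_val s i (x z)).comp (f := x) (g := fun y => val s y i) z hz
  have huan : ∀ i, AnalyticAt ℂ (fun z => u z i) a := by
    intro i
    rw [Complex.analyticAt_iff_eventually_differentiableAt]
    filter_upwards [hu1] with z hz
    exact differentiableAt_pi.1 hz i
  have hra := hrel.self_of_nhds
  have hi0 : val s (x a) i = 0 := h0
  have hui : u a i = 0 := by
    have h1 := hra.2 i j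
    rw [hi0, zero_mul] at h1
    rcases mul_eq_zero.1 h1.symm with h2 | h2
    · exfalso
      apply hxa
      apply h.fin _ hra.1
      funext l
      have h3 := hra.2 l j
      rw [h2, zero_mul] at h3
      exact (mul_eq_zero.1 h3).resolve_right (pow_ne_zero _ hj')
    · exact pow_eq_zero_iff (by
        rintro rfl
        simp at h2) |>.1 h2
  have hw : AnalyticAt ℂ (fun z => val s (x z) j / u z j ^ m) a :=
    (hval j).div ((huan j).pow m) (pow_ne_zero _ hj')
  have hev : (fun z => val s (x z) i) =ᶠ[𝓝 a]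
      ((fun z => val s (x z) j / u z j ^ m) * (fun z => u z i) ^ m) := by
    have hne : ∀ᶠ z in 𝓝 a, u z j ≠ 0 := (huan j).continuousAt.eventually_ne hj'
    filter_upwards [hrel, hne] with z hz1 hz2
    simp only [Pi.mul_apply, Pi.pow_apply]
    have h1 := hz1.2 i j
    field_simp
    exact h1
  have h1 : (m : ℕ∞) ≤ analyticOrderAt (fun z => val s (x z) i) a := by
    rw [analyticOrderAt_congr hev, analyticOrderAt_mul hw ((huan i).pow m),
      analyticOrderAt_pow (huan i)]
    have h2 : (1 : ℕ∞) ≤ analyticOrderAt (fun z => u z i) a := by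
      rw [Order.one_le_iff_ne_zero]
      exact ((huan i).analyticOrderAt_ne_zero).2 hui
    calc (m : ℕ∞) = m • (1 : ℕ∞) := by simp
      _ ≤ m • analyticOrderAt (fun z => u z i) a := nsmul_le_nsmul_right h2 m
      _ ≤ _ := le_add_self
  exact (natCast_le_analyticOrderAt_iff_iteratedDeriv_eq_zero (hval i)).1 h1 k hk

/-- ORB -/
theorem orb_brody (h : Setup S s e) (m : ℕ) (hm : 0 < m) (ho : OrbifoldHyperbolic m S s) :
    BrodyHyperbolic (kummer m S s) := by
  intro φ ψ hφ hψ hZ
  have hc : ∀ z z', φ z = φ z' := ho φ hφ (fun z => (hZ z).1) (fun i => orb_ram h m φ ψ hψ hZ i)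
  set x := (φ 0).rep with hx
  have hx0 : x ≠ 0 := (φ 0).rep_nonzero
  have hφx : ∀ z, φ z = Projectivization.mk ℂ x hx0 := by
    intro z
    rw [hc z 0]
    exact (Projectivization.mk_rep (φ 0)).symm
  have hxS : x ∈ cone S := (hZ 0).1
  have hv : val s x ≠ 0 := fun hv => hx0 (h.fin x hxS hv)
  obtain ⟨j, hj⟩ := Function.ne_iff.1 hv
  have hj' : val s x j ≠ 0 := hj
  -- the relation
  have hrel : ∀ z i, val s x i * (ψ z).rep j ^ m = val s x j * (ψ z).rep i ^ m := by
    intro z i
    have := orb_mem h (hZ z) (hφx z) (hx := hx0) (hu := (ψ z).rep_nonzero)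
      (Projectivization.mk_rep (ψ z)).symm
    exact this.2 i j
  have hne : ∀ z, (ψ z).rep j ≠ 0 := by
    intro z h0
    apply (ψ z).rep_nonzero
    funext i
    have h1 := hrel z i
    rw [h0, zero_pow hm.ne', mul_zero] at h1
    have h2 := (mul_eq_zero.1 h1.symm).resolve_left hj'
    exact (pow_eq_zero_iff hm.ne').1 h2
  -- the ratios
  have hr : ∀ i, Continuous fun z => (ψ z).rep i / (ψ z).rep j := by
    intro i
    rw [continuous_iff_continuousAt]
    intro a
    obtain ⟨u, hu1, hu2⟩ := hψ a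
    have hcu : ContinuousAt u a := hu1.self_of_nhds.continuousAt
    have hev : (fun z => u z i / u z j) =ᶠ[𝓝 a] fun z => (ψ z).rep i / (ψ z).rep j := by
      filter_upwards [hu2] with z hz
      obtain ⟨p1, p2⟩ := hz
      obtain ⟨b, hb, hb'⟩ := orb_rep p2
      rw [hb']
      simp only [Pi.smul_apply, smul_eq_mul]
      rw [mul_div_mul_left _ _ hb]
    have hja : u a j ≠ 0 := by
      obtain ⟨p1, p2⟩ := hu2.self_of_nhds
      obtain ⟨b, hb, hb'⟩ := orb_rep p2
      have := hne a
      rw [hb'] at this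
      simp only [Pi.smul_apply, smul_eq_mul] at this
      exact right_ne_zero_of_mul this
    refine ContinuousAt.congr ?_ hev
    exact ContinuousAt.div ((continuous_apply i).continuousAt.comp hcu)
      ((continuous_apply j).continuousAt.comp hcu) hja
  have hconst : ∀ i z z', (ψ z).rep i / (ψ z).rep j = (ψ z').rep i / (ψ z').rep j := by
    intro i z z'
    have hfin : {w : ℂ | w ^ m = val s x i / val s x j}.Finite := by
      have h1 : {w : ℂ | w ^ m = val s x i / val s x j} ⊆
          ((Polynomial.X ^ m - Polynomial.C (val s x i / val s x j)).roots.toFinset :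
            Finset ℂ) := by
        intro w hw
        have h2 : (Polynomial.X ^ m - Polynomial.C (val s x i / val s x j) : Polynomial ℂ) ≠ 0 :=
          Polynomial.X_pow_sub_C_ne_zero hm _
        simp only [Finset.mem_coe, Multiset.mem_toFinset, Polynomial.mem_roots h2,
          Polynomial.IsRoot, Polynomial.eval_sub, Polynomial.eval_pow, Polynomial.eval_X,
          Polynomial.eval_C]
        rw [Set.mem_ofPred_eq] at hw
        rw [hw, sub_self]
      exact (Finset.finite_toSet _).subset h1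
    have hpre : IsPreconnected (Set.range fun z => (ψ z).rep i / (ψ z).rep j) :=
      isPreconnected_range (hr i)
    have hsub : (Set.range fun z => (ψ z).rep i / (ψ z).rep j) ⊆
        {w : ℂ | w ^ m = val s x i / val s x j} := by
      rintro _ ⟨z, rfl⟩
      simp only [Set.mem_ofPred_eq]
      have h1 := hrel z i
      have h2 := hne z
      rw [div_pow, div_eq_div_iff (pow_ne_zero _ h2) hj']
      linear_combination -h1
    exact hfin.countable.isTotallyDisconnected _ hsub hpre ⟨z, rfl⟩ ⟨z', rfl⟩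
  intro z z'
  rw [Prod.mk.injEq]
  refine ⟨hc z z', ?_⟩
  rw [← Projectivization.mk_rep (ψ z), ← Projectivization.mk_rep (ψ z'),
    Projectivization.mk_eq_mk_iff']
  refine ⟨(ψ z).rep j / (ψ z').rep j, ?_⟩
  funext i
  have h1 := hconst i z z'
  have h2 := hne z
  have h3 := hne z'
  simp only [Pi.smul_apply, smul_eq_mul]
  rw [div_eq_div_iff h2 h3] at h1
  field_simp
  linear_combination -h1

end LangKC
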