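import Pool.Agent.Lib_helper83.KC.Base
import Pool.Agent.Lib_helper83.KCA.EDA
import Pool.Agent.Lib_helper83.KCA.TIE

/-! Block QUA of the theorem on Kummer covers, by helper95. -/

/-! KC, block QUA. -/

open Complex Metric Filter Topology

namespace LangKC

variable {n : ℕ}

theorem qua_large (a b c : Fin (n + 1) → ℂ) (A : ℝ) : ∀ᶠ r : ℝ in atTop,
    ∀ i j : Fin (n + 1), a i ≠ a j →
      ‖b i - b j‖ * r + ‖c i - c j‖ < ‖a i - a j‖ * r ^ 2 ∧
      Real.sqrt A * (n + 1) < 2 * ‖a i - a j‖ * r - ‖b i - b j‖ := by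
  rw [Filter.eventually_all]
  intro i
  rw [Filter.eventually_all]
  intro j
  by_cases h : a i = a j
  · exact Eventually.of_forall fun r hr => absurd h hr
  have hd : 0 < ‖a i - a j‖ := norm_pos_iff.2 (sub_ne_zero.2 h)
  filter_upwards [eventually_gt_atTop ((‖b i - b j‖ + ‖c i - c j‖) / ‖a i - a j‖),
    eventually_ge_atTop 1,
    eventually_gt_atTop ((Real.sqrt A * (n + 1) + ‖b i - b j‖) / (2 * ‖a i - a j‖))]
    with r h1 h2 h3 _
  rw [div_lt_iff₀ hd] at h1
  rw [div_lt_iff₀ (by positivity)] at h3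
  have hb := norm_nonneg (b i - b j)
  have hc := norm_nonneg (c i - c j)
  refine ⟨?_, by linarith⟩
  calc ‖b i - b j‖ * r + ‖c i - c j‖ ≤ (‖b i - b j‖ + ‖c i - c j‖) * r := by nlinarith
    _ < (r * ‖a i - a j‖) * r := mul_lt_mul_of_pos_right h1 (by linarith)
    _ = ‖a i - a j‖ * r ^ 2 := by ring

theorem quad (I : Finset (Fin (n + 1))) (a b c : Fin (n + 1) → ℂ) (A : ℝ)
    (hE : ∀ z, E2 (fun w i => if i ∈ I then Complex.exp (a i * w ^ 2 + b i * w + c i) else 0) z
      ≤ A) : ∀ i ∈ I, ∀ j ∈ I, a i = a j := by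
  by_contra hcon
  push Not at hcon
  obtain ⟨i0, hi0, j0, hj0, hne⟩ := hcon
  have hA : 0 ≤ A := (E2_nonneg _ 0).trans (hE 0)
  obtain ⟨r, hr, hr0⟩ := ((qua_large a b c A).and (eventually_gt_atTop (0 : ℝ))).exists
  have hZ : IsPreconnected (sphere (0 : ℂ) r) := by
    refine isPreconnected_sphere ?_ 0 r
    rw [Complex.rank_real_complex]
    exact Cardinal.one_lt_two
  set g : Fin (n + 1) → ℂ → ℝ := fun k z => (a k * z ^ 2 + b k * z + c k).re with hg
  obtain ⟨k0, hk0, hmax⟩ := I.exists_max_image (fun k => g k r) ⟨i0, hi0⟩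
  have hrz : (r : ℂ) ∈ sphere (0 : ℂ) r := by
    rw [mem_sphere_zero_iff_norm, norm_real, Real.norm_eq_abs, abs_of_pos hr0]
  have h2 : ∃ z ∈ sphere (0 : ℂ) r, ∃ i ∈ I, ¬ (a i = a k0) ∧ ∀ k ∈ I, g k z ≤ g i z := by
    by_contra hcon
    push Not at hcon
    obtain ⟨k1, hk1, hk1a⟩ : ∃ k1 ∈ I, a k1 ≠ a k0 := by
      by_cases h : a i0 = a k0
      · exact ⟨j0, hj0, fun h' => hne (h.trans h'.symm)⟩
      · exact ⟨i0, hi0, h⟩
    set d := a k1 - a k0 with hd
    have hd0 : d ≠ 0 := sub_ne_zero.2 hk1a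
    have hdn : 0 < ‖d‖ := norm_pos_iff.2 hd0
    obtain ⟨w, hw⟩ := IsAlgClosed.exists_pow_nat_eq (starRingEnd ℂ d / (‖d‖ : ℂ)) (n := 2) two_pos
    have hw1 : ‖w‖ = 1 := by
      have h3 : ‖w‖ ^ 2 = 1 := by
        rw [← norm_pow, hw, norm_div, RCLike.norm_conj, norm_real, norm_norm, div_self hdn.ne']
      exact (pow_eq_one_iff_of_nonneg (norm_nonneg w) two_ne_zero).1 h3
    have hz : (r : ℂ) * w ∈ sphere (0 : ℂ) r := by
      rw [mem_sphere_zero_iff_norm, norm_mul, norm_real, hw1, Real.norm_eq_abs, abs_of_pos hr0,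
        mul_one]
    obtain ⟨m, hm, hmm⟩ := I.exists_max_image (fun k => g k (r * w)) ⟨i0, hi0⟩
    have hma : a m = a k0 := by
      by_contra h
      obtain ⟨k', hk', hlt⟩ := hcon _ hz m hm h
      exact absurd (hmm k' hk') (not_le.2 hlt)
    have h4 := hmm k1 hk1
    have h5 := (hr m k1 (by rw [hma]; exact hk1a.symm)).1
    have h6 : (d * ((r : ℂ) * w) ^ 2) = ((‖d‖ * r ^ 2 : ℝ) : ℂ) := by
      rw [mul_pow, hw]
      have h7 : d * starRingEnd ℂ d = ((‖d‖ ^ 2 : ℝ) : ℂ) := by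
        rw [mul_conj, normSq_eq_norm_sq]
      have hdc : (‖d‖ : ℂ) ≠ 0 := by exact_mod_cast hdn.ne'
      calc d * ((r : ℂ) ^ 2 * (starRingEnd ℂ d / (‖d‖ : ℂ)))
          = (d * starRingEnd ℂ d) * (r : ℂ) ^ 2 / (‖d‖ : ℂ) := by ring
        _ = _ := by
          rw [h7]
          push_cast
          field_simp
    have h8 : g k1 (r * w) - g m (r * w) = ‖d‖ * r ^ 2 +
        ((b k1 - b m) * ((r : ℂ) * w) + (c k1 - c m)).re := by
      have : g k1 (r * w) - g m (r * w) = (d * ((r : ℂ) * w) ^ 2 +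
        ((b k1 - b m) * ((r : ℂ) * w) + (c k1 - c m))).re := by
        rw [hg, hd, ← hma]
        show (a k1 * ((r : ℂ) * w) ^ 2 + b k1 * ((r : ℂ) * w) + c k1).re -
          (a m * ((r : ℂ) * w) ^ 2 + b m * ((r : ℂ) * w) + c m).re = _
        rw [← sub_re]
        congr 1
        ring
      rw [this, add_re, h6, ofReal_re]
    have h9 : |((b k1 - b m) * ((r : ℂ) * w) + (c k1 - c m)).re| ≤
        ‖b m - b k1‖ * r + ‖c m - c k1‖ := by
      refine (abs_re_le_norm _).trans ((norm_add_le _ _).trans ?_)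
      rw [norm_mul, mem_sphere_zero_iff_norm.1 hz, norm_sub_rev (b k1), norm_sub_rev (c k1)]
    have h10 : ‖a m - a k1‖ = ‖d‖ := by
      rw [hma, hd, norm_sub_rev]
    rw [h10] at h5
    have h11 := (abs_le.1 h9).1
    linarith
  obtain ⟨z, hz, i, hi, j, hj, hPi, hPj, he, hm⟩ := tie hZ I g
    (fun i _ => by
      simp only [hg]
      fun_prop) (fun k => a k = a k0) ⟨r, hrz, k0, hk0, rfl, hmax⟩ h2
  have hzr : ‖z‖ = r := mem_sphere_zero_iff_norm.1 hz
  set V : ℂ → Fin (n + 1) → ℂ :=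
    fun w i => if i ∈ I then Complex.exp (a i * w ^ 2 + b i * w + c i) else 0 with hV
  set M : ℝ := Real.exp (g i z) with hM
  have hM0 : 0 < M := Real.exp_pos _
  have hVle : ∀ k, ‖V z k‖ ≤ M := by
    intro k
    by_cases hk : k ∈ I
    · have : V z k = Complex.exp (a k * z ^ 2 + b k * z + c k) := by
        simp only [hV, if_pos hk]
      rw [this, Complex.norm_exp]
      exact Real.exp_le_exp.2 (hm k hk)
    · have : V z k = 0 := by simp only [hV, if_neg hk]
      rw [this, norm_zero]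
      exact hM0.le
  have hns : nsq (V z) ≤ (n + 1) * M ^ 2 := by
    have : nsq (V z) ≤ ∑ k : Fin (n + 1), M ^ 2 :=
      Finset.sum_le_sum fun k _ => pow_le_pow_left₀ (norm_nonneg _) (hVle k) 2
    rw [Finset.sum_const, Finset.card_univ, Fintype.card_fin, nsmul_eq_mul] at this
    exact_mod_cast this
  have hval : ∀ k ∈ I, V z k = Complex.exp (a k * z ^ 2 + b k * z + c k) := fun k hk => by
    simp only [hV, if_pos hk]
  have hder : ∀ k ∈ I, deriv (fun w => V w k) z = (2 * a k * z + b k) * V z k := by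
    intro k hk
    have e : (fun w => V w k) = fun w => Complex.exp (a k * w ^ 2 + b k * w + c k) := by
      funext w
      simp only [hV, if_pos hk]
    rw [e, hval k hk]
    have h3 : HasDerivAt (fun w : ℂ => a k * w ^ 2 + b k * w + c k) (2 * a k * z + b k) z := by
      have h4 := (((hasDerivAt_pow 2 z).const_mul (a k)).add
        ((hasDerivAt_id z).const_mul (b k))).add_const (c k)
      refine h4.congr_deriv ?_
      simp
      ring
    rw [h3.cexp.deriv]
    ring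
  have hnorm : ‖V z i‖ = M ∧ ‖V z j‖ = M := by
    rw [hval i hi, hval j hj, Complex.norm_exp, Complex.norm_exp]
    exact ⟨rfl, congrArg Real.exp he.symm⟩
  have hmain := E2_le_imp V z A (hE z) i j
  rw [hder i hi, hder j hj] at hmain
  have e1 : V z i * ((2 * a j * z + b j) * V z j) - V z j * ((2 * a i * z + b i) * V z i) =
      V z i * V z j * (2 * (a j - a i) * z + (b j - b i)) := by ring
  rw [e1, norm_mul, norm_mul, hnorm.1, hnorm.2] at hmain
  have hij : a i ≠ a j := by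
    rw [hPi]
    exact fun h => hPj h.symm
  have h5 := (hr i j hij).2
  have h6 : 2 * ‖a i - a j‖ * r - ‖b i - b j‖ ≤ ‖2 * (a j - a i) * z + (b j - b i)‖ := by
    have h7 := norm_sub_norm_le (2 * (a j - a i) * z) (-(b j - b i))
    rw [norm_neg, sub_neg_eq_add, norm_mul, norm_mul, hzr, norm_ofNat, norm_sub_rev (a j),
      norm_sub_rev (b j)] at h7
    exact h7
  set t := ‖2 * (a j - a i) * z + (b j - b i)‖ with ht
  have h8 : Real.sqrt A * (n + 1) < t := h5.trans_le h6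
  have h9 : A * (n + 1) ^ 2 < t ^ 2 := by
    have h10 : (Real.sqrt A * (n + 1)) ^ 2 = A * (n + 1) ^ 2 := by
      rw [mul_pow, Real.sq_sqrt hA]
    rw [← h10]
    exact pow_lt_pow_left₀ h8 (by positivity) two_ne_zero
  have h11 : A * nsq (V z) ^ 2 ≤ A * ((n + 1) * M ^ 2) ^ 2 :=
    mul_le_mul_of_nonneg_left (pow_le_pow_left₀ (nsq_nonneg _) hns 2) hA
  have h12 : (M * M * t) ^ 2 = M ^ 4 * t ^ 2 := by ring
  have h13 : A * (((n : ℝ) + 1) * M ^ 2) ^ 2 = M ^ 4 * (A * (n + 1) ^ 2) := by ring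
  have h14 : M ^ 4 * (A * (n + 1) ^ 2) < M ^ 4 * t ^ 2 :=
    mul_lt_mul_of_pos_left h9 (by positivity)
  linarith

end LangKC
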