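import Pool.Agent.Lib_helper83.KC.Base
import Pool.Agent.Lib_helper83.KCA.CBD
import Pool.Agent.Lib_helper83.KCA.EDG
import Pool.Agent.Lib_helper83.KCA.ULT

/-! Block RED of the theorem on Kummer covers, by helper92. -/

/-! Block RED: reduction to real frequencies. -/

open Complex Metric Filter Topology

namespace LangKC

variable {N n : ℕ} {S : Set (MvPolynomial (Fin (N + 1)) ℂ)}
  {s : Fin (n + 1) → MvPolynomial (Fin (N + 1)) ℂ} {e : ℕ}

/-- scaling by an exponential -/
lemma red_scale (h : Setup S s e) (v : Fin (N + 1) → ℂ) (t : ℂ) :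
    val s (Complex.exp (t / e) • v) = Complex.exp t • val s v := by
  have he : (e : ℂ) ≠ 0 := Nat.cast_ne_zero.2 h.epos.ne'
  rw [h.val_smul, ← Complex.exp_nat_mul, mul_div_cancel₀ _ he]

/-- RED -/
theorem reduce_to_real (h : Setup S s e) (y : ℂ → Fin (N + 1) → ℂ)
    (hy : ∀ j, Differentiable ℂ (fun z => y z j)) (hS : ∀ z, y z ∈ cone S)
    (c b : Fin (n + 1) → ℂ) (hv : ∀ z i, val s (y z) i = c i * Complex.exp (b i * z))
    (hne : ∃ i j, c i ≠ 0 ∧ c j ≠ 0 ∧ b i ≠ b j) :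
    ∃ (y' : ℂ → Fin (N + 1) → ℂ) (c' : Fin (n + 1) → ℂ) (σ : Fin (n + 1) → NNReal),
      (∀ j, Differentiable ℂ (fun z => y' z j)) ∧ (∀ z, y' z ∈ cone S) ∧
      (∀ z i, val s (y' z) i = c' i * Complex.exp (Complex.I * (σ i : ℝ) * z)) ∧
      ∃ i j, c' i ≠ 0 ∧ c' j ≠ 0 ∧ σ i ≠ σ j := by
  classical
  obtain ⟨ω, hω, i1, hi1, j1, hj1, hbne, hre, hmax⟩ :=
    edge (Finset.univ.filter fun i => c i ≠ 0) b (by
      obtain ⟨i, j, hi, hj, hb⟩ := hne
      exact ⟨i, by simp [hi], j, by simp [hj], hb⟩)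
  have hi1' : c i1 ≠ 0 := by simpa using hi1
  have hj1' : c j1 ≠ 0 := by simpa using hj1
  set β : Fin (n + 1) → ℂ := fun i => (b i - b i1) * ω with hβ
  have hβre : ∀ i, c i ≠ 0 → (β i).re ≤ 0 := by
    intro i hi
    have h1 := hmax i (by simp [hi])
    have h2 : β i = b i * ω - b i1 * ω := by simp only [hβ]; ring
    rw [h2, Complex.sub_re]
    linarith
  have hβi1 : β i1 = 0 := by simp [hβ]
  have hβj1 : (β j1).re = 0 := by
    have h2 : β j1 = b j1 * ω - b i1 * ω := by simp only [hβ]; ring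
    rw [h2, Complex.sub_re, hre, sub_self]
  have hω0 : ω ≠ 0 := by
    intro h0; rw [h0, norm_zero] at hω; exact zero_ne_one hω
  have hβj1' : β j1 ≠ 0 := by
    simp only [hβ]
    exact mul_ne_zero (sub_ne_zero.2 hbne.symm) hω0
  -- the translates
  set x : ℕ → ℂ → Fin (N + 1) → ℂ := fun ν z =>
    Complex.exp ((-(b i1 * ω * (z + ν))) / e) • y (ω * (z + ν)) with hx
  have hxval : ∀ ν z i, val s (x ν z) i = c i * Complex.exp (β i * (z + ν)) := by
    intro ν z i
    simp only [hx]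
    rw [red_scale h, Pi.smul_apply, smul_eq_mul, hv, mul_left_comm, ← Complex.exp_add]
    congr 2
    simp only [hβ]
    ring
  have hxS : ∀ ν z, x ν z ∈ cone S := fun ν z => h.smul_mem (hS _) _
  have hxd : ∀ ν j, Differentiable ℂ (fun z => x ν z j) := by
    intro ν j
    have h1 : Differentiable ℂ (fun z => y (ω * (z + ν)) j) :=
      (hy j).comp (by fun_prop : Differentiable ℂ fun z : ℂ => ω * (z + ν))
    have h2 : Differentiable ℂ (fun z : ℂ => Complex.exp ((-(b i1 * ω * (z + ν))) / e)) := by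
      fun_prop
    exact h2.mul h1
  obtain ⟨C, hC, hCb⟩ := cone_bound h
  have hxb : ∀ r : ℝ, ∃ C' : ℝ, ∀ ν, ∀ z ∈ ball (0 : ℂ) r, ∀ j, ‖x ν z j‖ ≤ C' := by
    intro r
    refine ⟨1 + C * ∑ i, ‖c i‖ * Real.exp (‖β i‖ * |r|), fun ν z hz j => ?_⟩
    have h1 := hCb (x ν z) (hxS ν z) j
    have h2 : ∑ i, ‖val s (x ν z) i‖ ≤ ∑ i, ‖c i‖ * Real.exp (‖β i‖ * |r|) := by
      apply Finset.sum_le_sum
      intro i _
      rw [hxval, norm_mul, Complex.norm_exp]
      by_cases hci : c i = 0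
      · simp [hci]
      apply mul_le_mul_of_nonneg_left _ (norm_nonneg _)
      apply Real.exp_le_exp.2
      have h3 : (β i * (z + ν)).re = (β i * z).re + ν * (β i).re := by
        rw [mul_add, Complex.add_re]
        congr 1
        simp [mul_comm]
      rw [h3]
      have h4 : (β i * z).re ≤ ‖β i‖ * |r| := by
        refine (Complex.re_le_norm _).trans ?_
        rw [norm_mul]
        apply mul_le_mul_of_nonneg_left _ (norm_nonneg _)
        rw [mem_ball_zero_iff] at hz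
        exact hz.le.trans (le_abs_self r)
      have h5 : (ν : ℝ) * (β i).re ≤ 0 :=
        mul_nonpos_of_nonneg_of_nonpos (Nat.cast_nonneg _) (hβre i hci)
      linarith
    have h3 : ‖x ν z j‖ ^ e ≤ C * ∑ i, ‖c i‖ * Real.exp (‖β i‖ * |r|) :=
      h1.trans (mul_le_mul_of_nonneg_left h2 hC.le)
    rcases le_total ‖x ν z j‖ 1 with h4 | h4
    · have : 0 ≤ C * ∑ i, ‖c i‖ * Real.exp (‖β i‖ * |r|) :=
        (by positivity : (0 : ℝ) ≤ ‖x ν z j‖ ^ e).trans h3
      linarith
    · have : ‖x ν z j‖ ≤ ‖x ν z j‖ ^ e := le_self_pow₀ h4 h.epos.ne'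
      linarith
  have hlim : ∀ j, ∃ F : ℂ → ℂ, Differentiable ℂ F ∧
      ∀ z, Tendsto (fun ν => x ν z j) (Filter.hyperfilter ℕ : Ultrafilter ℕ) (𝓝 (F z)) := by
    intro j
    obtain ⟨F, hF, -, hF2, -⟩ := ultra_limit (Filter.hyperfilter ℕ) (fun ν z => x ν z j)
      (fun r => Filter.Eventually.of_forall fun ν => (hxd ν j).differentiableOn)
      (fun r => by
        obtain ⟨C', hC'⟩ := hxb r
        exact ⟨C', Filter.Eventually.of_forall fun ν z hz => hC' ν z hz j⟩)
    exact ⟨F, hF, hF2⟩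
  choose F hF hFlim using hlim
  set y0 : ℂ → Fin (N + 1) → ℂ := fun z j => F j z with hy0
  have hy0lim : ∀ z, Tendsto (fun ν => x ν z) (Filter.hyperfilter ℕ : Ultrafilter ℕ)
      (𝓝 (y0 z)) := fun z => tendsto_pi_nhds.2 fun j => hFlim j z
  have hy0S : ∀ z, y0 z ∈ cone S := fun z =>
    (isClosed_cone S).mem_of_tendsto (hy0lim z) (Filter.Eventually.of_forall fun ν => hxS ν z)
  have hvlim : ∀ z, Tendsto (fun ν => val s (x ν z)) (Filter.hyperfilter ℕ : Ultrafilter ℕ)
      (𝓝 (val s (y0 z))) := fun z => ((continuous_val s).tendsto (y0 z)).comp (hy0lim z)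
  have hvlim' : ∀ z i, Tendsto (fun ν => val s (x ν z) i) (Filter.hyperfilter ℕ : Ultrafilter ℕ)
      (𝓝 (val s (y0 z) i)) := fun z i => (tendsto_pi_nhds.1 (hvlim z)) i
  -- the limit values
  have hval0 : ∀ z i, val s (y0 z) i = Complex.exp (β i * z) * val s (y0 0) i := by
    intro z i
    have h1 : Tendsto (fun ν => Complex.exp (β i * z) * val s (x ν 0) i)
        (Filter.hyperfilter ℕ : Ultrafilter ℕ)
        (𝓝 (Complex.exp (β i * z) * val s (y0 0) i)) := (hvlim' 0 i).const_mul _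
    refine tendsto_nhds_unique (hvlim' z i) (h1.congr fun ν => ?_)
    rw [hxval, hxval, mul_left_comm, ← Complex.exp_add]
    congr 2
    ring
  have hnorm0 : ∀ i, Tendsto (fun ν : ℕ => ‖c i‖ * Real.exp (ν * (β i).re))
      (Filter.hyperfilter ℕ : Ultrafilter ℕ) (𝓝 ‖val s (y0 0) i‖) := by
    intro i
    refine (hvlim' 0 i).norm.congr fun ν => ?_
    rw [hxval, norm_mul, Complex.norm_exp]
    congr 2
    simp [mul_comm]
  have hc1 : ∀ i, (β i).re = 0 → ‖val s (y0 0) i‖ = ‖c i‖ := by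
    intro i hi
    refine tendsto_nhds_unique (hnorm0 i) ?_
    simp only [hi, mul_zero, Real.exp_zero, mul_one]
    exact tendsto_const_nhds
  have hc2 : ∀ i, val s (y0 0) i ≠ 0 → (β i).re = 0 := by
    intro i hi
    by_contra hcon
    apply hi
    rw [← norm_eq_zero]
    by_cases hci : c i = 0
    · refine tendsto_nhds_unique (hnorm0 i) ?_
      simp [hci]
    have hlt : (β i).re < 0 := lt_of_le_of_ne (hβre i hci) hcon
    refine tendsto_nhds_unique (hnorm0 i) ?_
    have h1 : Tendsto (fun ν : ℕ => ‖c i‖ * Real.exp (ν * (β i).re)) atTop (𝓝 (‖c i‖ * 0)) := by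
      apply Tendsto.const_mul
      apply Real.tendsto_exp_atBot.comp
      exact tendsto_natCast_atTop_atTop.atTop_mul_const_of_neg hlt
    rw [mul_zero] at h1
    exact h1.mono_left Nat.hyperfilter_le_atTop
  -- smallest frequency
  set J : Finset (Fin (n + 1)) := Finset.univ.filter fun i => val s (y0 0) i ≠ 0 with hJ
  have hi1J : i1 ∈ J := by
    simp only [hJ, Finset.mem_filter, Finset.mem_univ, true_and]
    rw [← norm_ne_zero_iff, hc1 i1 (by rw [hβi1]; rfl)]
    exact norm_ne_zero_iff.2 hi1'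
  have hj1J : j1 ∈ J := by
    simp only [hJ, Finset.mem_filter, Finset.mem_univ, true_and]
    rw [← norm_ne_zero_iff, hc1 j1 hβj1]
    exact norm_ne_zero_iff.2 hj1'
  obtain ⟨k, hk, hkmin⟩ := Finset.exists_min_image J (fun i => (β i).im) ⟨i1, hi1J⟩
  set τ : ℝ := (β k).im with hτ
  refine ⟨fun z => Complex.exp ((-(Complex.I * τ * z)) / e) • y0 z, val s (y0 0),
    fun i => Real.toNNReal ((β i).im - τ), ?_, fun z => h.smul_mem (hy0S z) _, ?_,
    i1, j1, ?_, ?_, ?_⟩
  · intro j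
    have h2 : Differentiable ℂ (fun z : ℂ => Complex.exp ((-(Complex.I * τ * z)) / e)) := by
      fun_prop
    exact h2.mul (hF j)
  · intro z i
    rw [red_scale h, Pi.smul_apply, smul_eq_mul, hval0]
    by_cases hi : val s (y0 0) i = 0
    · simp [hi]
    have hiJ : i ∈ J := by simp [hJ, hi]
    have h1 : 0 ≤ (β i).im - τ := sub_nonneg.2 (hkmin i hiJ)
    have h2 : β i = Complex.I * ((β i).im : ℝ) := by
      apply Complex.ext
      · simp [hc2 i hi]
      · simp
    have h3 : ((Real.toNNReal ((β i).im - τ) : NNReal) : ℝ) = (β i).im - τ :=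
      Real.coe_toNNReal _ h1
    rw [← mul_assoc, ← Complex.exp_add, mul_comm]
    congr 2
    rw [h3]
    nth_rewrite 1 [h2]
    push_cast
    ring
  · simpa [hJ] using hi1J
  · simpa [hJ] using hj1J
  · intro hcon
    have h1 : 0 ≤ (β i1).im - τ := sub_nonneg.2 (hkmin i1 hi1J)
    have h2 : 0 ≤ (β j1).im - τ := sub_nonneg.2 (hkmin j1 hj1J)
    have h3 : (β i1).im - τ = (β j1).im - τ := (Real.toNNReal_eq_toNNReal_iff h1 h2).1 hcon
    apply hβj1'
    apply Complex.ext
    · simpa using hβj1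
    · have : (β i1).im = 0 := by rw [hβi1]; rfl
      rw [Complex.zero_im]
      linarith

end LangKC
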