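import Pool.Agent.Lib_helper83.KC.Base
import Pool.Agent.Lib_helper83.KCA.APX

/-! Block RIT of the theorem on Kummer covers, by helper10. -/

open Complex Metric Filter Topology

namespace LangKC

lemma rit_norm (μ : NNReal) (z : ℂ) :
    ‖Complex.exp (Complex.I * (μ : ℝ) * z)‖ = Real.exp (-(μ : ℝ) * z.im) := by
  rw [Complex.norm_exp]
  congr 1
  simp

/-- splitting of an exponential sum into low and high frequencies -/
lemma rit_split (f : RS) (M : NNReal) : ∃ g h : RS, f = g + h ∧ h ∈ Jd M ∧
    ∀ μ, g.coeff μ ≠ 0 → μ < M := by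
  classical
  set g : RS := ∑ μ ∈ f.coeff.support.filter (fun μ => μ < M),
    AddMonoidAlgebra.single μ (f.coeff μ) with hg
  have hgc : ∀ μ, g.coeff μ = if μ < M then f.coeff μ else 0 := by
    intro μ
    rw [hg]
    have h1 : (∑ ν ∈ f.coeff.support.filter (fun ν => ν < M),
        AddMonoidAlgebra.single ν (f.coeff ν)).coeff μ =
        ∑ ν ∈ f.coeff.support.filter (fun ν => ν < M),
          (AddMonoidAlgebra.single ν (f.coeff ν)).coeff μ := by
      simp
    rw [h1]
    simp only [AddMonoidAlgebra.coeff_single, Finsupp.single_apply]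
    rw [Finset.sum_ite_eq']
    by_cases h2 : μ < M
    · by_cases h3 : f.coeff μ = 0
      · simp [h2, h3]
      · simp [h2, h3]
    · simp [h2]
  refine ⟨g, f - g, by ring, ?_, ?_⟩
  · intro μ hμ
    by_contra h
    push Not at h
    apply hμ
    have h1 : (f - g).coeff μ = f.coeff μ - g.coeff μ := by simp
    rw [h1, hgc, if_pos h, sub_self]
  · intro μ hμ
    by_contra h
    apply hμ
    rw [hgc, if_neg h]

theorem ritt (P : Polynomial RS) (hP : P.Monic) (Y : ℂ → ℂ) (hY : Differentiable ℂ Y)
    (hrel : ∀ z, (P.map (ev z).toRingHom).eval (Y z) = 0) (C T : ℝ) (hT : 0 ≤ T)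
    (hgrow : ∀ z : ℂ, ‖Y z‖ ≤ C * (1 + Real.exp (-T * z.im))) :
    ∃ f : RS, ∀ z, Y z = ev z f := by
  have hd : 0 < P.natDegree := by
    by_contra h
    have h0 : P.natDegree = 0 := by omega
    have h1 := hrel 0
    rw [hP.natDegree_eq_zero.1 h0] at h1
    simp at h1
  have hdr : (0 : ℝ) < P.natDegree := by exact_mod_cast hd
  have hC : 0 ≤ C := by
    have h1 := (norm_nonneg _).trans (hgrow 0)
    have h2 : 0 < 1 + Real.exp (-T * (0 : ℂ).im) := by positivity
    by_contra h
    push Not at h
    have := mul_neg_of_neg_of_pos h h2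
    linarith
  set M : NNReal := ⟨T + 1, by linarith⟩ with hM
  have hMr : (M : ℝ) = T + 1 := rfl
  obtain ⟨f, C1, y1, hy1, hf⟩ := approx P.natDegree hd P hP rfl (P.natDegree * (T + 1))
    (by positivity) Y 0 0 hY.continuous.continuousOn (fun z _ => by rw [hrel z]; simp)
  have hdiv : (P.natDegree * (T + 1)) / (P.natDegree : ℝ) = T + 1 := by field_simp
  rw [hdiv] at hf
  obtain ⟨g, h, hgh, hh, hg⟩ := rit_split f M
  obtain ⟨C2, hC2, hhb⟩ := ev_bound hh
  -- the entire function
  set G : ℂ → ℂ := fun z => (Y z - ev z g) * Complex.exp (-(Complex.I * (M : ℝ) * z)) with hG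
  have hevg : Differentiable ℂ fun z => ev z g := by
    simp only [ev_apply, Finsupp.sum]
    fun_prop
  have hGd : Differentiable ℂ G := (hY.sub hevg).mul (by fun_prop)
  have hexp : ∀ z : ℂ, ‖Complex.exp (-(Complex.I * (M : ℝ) * z))‖ = Real.exp ((T + 1) * z.im) := by
    intro z
    rw [Complex.norm_exp]
    congr 1
    simp [hMr]
  set D : ℝ := ∑ μ ∈ g.coeff.support, ‖g.coeff μ‖ * Real.exp ((T + 1 - μ) * y1) with hD
  have hb : ∀ z, ‖G z‖ ≤ max (C1 + C2) (C * (Real.exp ((T + 1) * y1) + Real.exp y1) + D) := by
    intro z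
    rw [hG]
    simp only
    rw [norm_mul, hexp]
    rcases le_total y1 z.im with hz | hz
    · apply le_max_of_le_left
      have h1 := hf z hz
      have h2 := hhb z (hy1.trans hz)
      rw [hMr] at h2
      have h3 : Y z - ev z g = (Y z - ev z f) + ev z h := by
        rw [hgh, map_add]
        ring
      have h4 : ‖Y z - ev z g‖ ≤ (C1 + C2) * Real.exp (-(T + 1) * z.im) := by
        rw [h3]
        refine (norm_add_le _ _).trans ?_
        linarith
      calc ‖Y z - ev z g‖ * Real.exp ((T + 1) * z.im)
          ≤ ((C1 + C2) * Real.exp (-(T + 1) * z.im)) * Real.exp ((T + 1) * z.im) :=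
            mul_le_mul_of_nonneg_right h4 (Real.exp_pos _).le
        _ = C1 + C2 := by
            rw [mul_assoc, ← Real.exp_add]
            have : -(T + 1) * z.im + (T + 1) * z.im = 0 := by ring
            rw [this, Real.exp_zero, mul_one]
    · apply le_max_of_le_right
      have h1 : ‖Y z‖ * Real.exp ((T + 1) * z.im) ≤
          C * (Real.exp ((T + 1) * y1) + Real.exp y1) := by
        calc ‖Y z‖ * Real.exp ((T + 1) * z.im)
            ≤ (C * (1 + Real.exp (-T * z.im))) * Real.exp ((T + 1) * z.im) :=
              mul_le_mul_of_nonneg_right (hgrow z) (Real.exp_pos _).le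
          _ = C * (Real.exp ((T + 1) * z.im) + Real.exp z.im) := by
              rw [mul_assoc, add_mul, one_mul, ← Real.exp_add]
              congr 3
              ring
          _ ≤ C * (Real.exp ((T + 1) * y1) + Real.exp y1) := by
              apply mul_le_mul_of_nonneg_left _ hC
              apply add_le_add
              · apply Real.exp_le_exp.2
                nlinarith
              · exact Real.exp_le_exp.2 hz
      have h2 : ‖ev z g‖ * Real.exp ((T + 1) * z.im) ≤ D := by
        rw [ev_apply, Finsupp.sum]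
        calc ‖∑ μ ∈ g.coeff.support, g.coeff μ * Complex.exp (Complex.I * (μ : ℝ) * z)‖ *
            Real.exp ((T + 1) * z.im)
            ≤ (∑ μ ∈ g.coeff.support, ‖g.coeff μ‖ * Real.exp (-(μ : ℝ) * z.im)) *
              Real.exp ((T + 1) * z.im) := by
              apply mul_le_mul_of_nonneg_right _ (Real.exp_pos _).le
              refine (norm_sum_le _ _).trans (Finset.sum_le_sum fun μ _ => ?_)
              rw [norm_mul, rit_norm]
          _ = ∑ μ ∈ g.coeff.support, ‖g.coeff μ‖ * Real.exp ((T + 1 - μ) * z.im) := by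
              rw [Finset.sum_mul]
              apply Finset.sum_congr rfl
              intro μ _
              rw [mul_assoc, ← Real.exp_add]
              congr 2
              ring
          _ ≤ D := by
              apply Finset.sum_le_sum
              intro μ hμ
              apply mul_le_mul_of_nonneg_left _ (norm_nonneg _)
              apply Real.exp_le_exp.2
              have h3 : (μ : ℝ) < T + 1 := by
                have := hg μ (Finsupp.mem_support_iff.1 hμ)
                have h4 : (μ : ℝ) < M := by exact_mod_cast this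
                rwa [hMr] at h4
              apply mul_le_mul_of_nonneg_left hz
              linarith
      calc ‖Y z - ev z g‖ * Real.exp ((T + 1) * z.im)
          ≤ (‖Y z‖ + ‖ev z g‖) * Real.exp ((T + 1) * z.im) :=
            mul_le_mul_of_nonneg_right (norm_sub_le _ _) (Real.exp_pos _).le
        _ ≤ _ := by
            rw [add_mul]
            exact add_le_add h1 h2
  obtain ⟨c, hc⟩ := hGd.exists_const_forall_eq_of_bounded (isBounded_iff_forall_norm_le.2
    ⟨_, by rintro _ ⟨z, rfl⟩; exact hb z⟩)
  refine ⟨g + AddMonoidAlgebra.single M c, fun z => ?_⟩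
  rw [map_add, ev_single]
  have h1 := hc z
  rw [hG] at h1
  simp only at h1
  have h2 : (Y z - ev z g) * Complex.exp (-(Complex.I * (M : ℝ) * z)) *
      Complex.exp (Complex.I * (M : ℝ) * z) = c * Complex.exp (Complex.I * (M : ℝ) * z) := by
    rw [h1]
  rw [mul_assoc, ← Complex.exp_add, neg_add_cancel, Complex.exp_zero, mul_one] at h2
  rw [← h2]
  ring

end LangKC
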