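import Pool.Agent.Lib_helper83.KC.Base
import Pool.Agent.Lib_helper83.KCA.RAT

/-! Block TOR of the theorem on Kummer covers, by helper71. -/

/-! Block TOR of MP_45e720_ag. -/

open Complex Metric Filter Topology

namespace LangKC

variable {N n : ℕ} {S : Set (MvPolynomial (Fin (N + 1)) ℂ)}
  {s : Fin (n + 1) → MvPolynomial (Fin (N + 1)) ℂ} {e : ℕ}

/-- the character `z ↦ exp (I μ z)` -/
noncomputable def torChar (μ : NNReal) : Multiplicative ℂ →* ℂ where
  toFun z := Complex.exp (Complex.I * (μ : ℝ) * Multiplicative.toAdd z)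
  map_one' := by simp
  map_mul' := by
    intro a b
    rw [toAdd_mul, mul_add, Complex.exp_add]

lemma torChar_injective : Function.Injective torChar := by
  intro μ ν h
  have h1 := DFunLike.congr_fun h (Multiplicative.ofAdd (-Complex.I))
  simp only [torChar, MonoidHom.coe_mk, OneHom.coe_mk, toAdd_ofAdd] at h1
  have h2 : ∀ x : ℝ, Complex.exp (Complex.I * (x : ℂ) * (-Complex.I)) = (Real.exp x : ℝ) := by
    intro x
    rw [Complex.ofReal_exp]
    congr 1
    linear_combination (-(x : ℂ)) * Complex.I_mul_I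
  rw [h2, h2] at h1
  have h3 : Real.exp (μ : ℝ) = Real.exp (ν : ℝ) := by exact_mod_cast h1
  exact NNReal.coe_injective (Real.exp_injective h3)

/-- exponential sums are determined by their values -/
lemma tor_ext {f g : RS} (h : ∀ z, ev z f = ev z g) : f = g := by
  have h1 : LinearIndependent ℂ fun μ : NNReal => (torChar μ : Multiplicative ℂ → ℂ) :=
    (linearIndependent_monoidHom (Multiplicative ℂ) ℂ).comp torChar torChar_injective
  rw [← sub_eq_zero]
  have h2 : Finsupp.linearCombination ℂ (fun μ : NNReal => (torChar μ : Multiplicative ℂ → ℂ))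
      (f - g).coeff = 0 := by
    funext z
    have h3 : ev (Multiplicative.toAdd z) (f - g) = 0 := by
      rw [map_sub, h, sub_self]
    rw [ev_apply] at h3
    rw [Finsupp.linearCombination_apply, Finsupp.sum, Finset.sum_apply]
    exact h3
  have h3 := linearIndependent_iff.1 h1 _ h2
  exact AddMonoidAlgebra.coeff_injective h3

lemma tor_aeval (f : Fin (N + 1) → RS) (θ : RS →ₐ[ℂ] ℂ) (F : MvPolynomial (Fin (N + 1)) ℂ) :
    θ (MvPolynomial.aeval f F) = MvPolynomial.eval (fun j => θ (f j)) F := by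
  have h1 : (θ.comp (MvPolynomial.aeval f)).toRingHom = MvPolynomial.eval fun j => θ (f j) := by
    apply MvPolynomial.ringHom_ext
    · intro r
      simp
    · intro i
      simp
  exact congrArg (fun g => g F) h1

/-- common denominator -/
lemma tor_denom (φ : ℝ →ₗ[ℚ] ℚ) (T : Finset NNReal) :
    ∃ D : ℕ, 0 < D ∧ ∀ μ ∈ T, ∃ l : ℤ, (l : ℚ) = D * φ (μ : ℝ) := by
  classical
  induction T using Finset.induction_on with
  | empty => exact ⟨1, one_pos, by simp⟩
  | insert a T _ ih =>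
    obtain ⟨D, hD, hl⟩ := ih
    refine ⟨D * (φ (a : ℝ)).den, Nat.mul_pos hD (φ (a : ℝ)).den_pos, ?_⟩
    intro μ hμ
    rcases Finset.mem_insert.1 hμ with rfl | hμ
    · refine ⟨D * (φ (μ : ℝ)).num, ?_⟩
      push_cast
      have := Rat.mul_den_eq_num (φ (μ : ℝ))
      rw [← this]
      ring
    · obtain ⟨l, hl'⟩ := hl μ hμ
      refine ⟨l * (φ (a : ℝ)).den, ?_⟩
      push_cast
      rw [hl']
      ring

/-- evaluation of an exponential sum after replacing the frequencies by their images under a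
functional -/
noncomputable def torEv (D : ℕ) (φ : ℝ →ₗ[ℚ] ℚ) (t : ℂ) : RS →ₐ[ℂ] ℂ :=
  AddMonoidAlgebra.lift ℂ ℂ NNReal
    { toFun := fun μ =>
        Complex.exp ((((D : ℚ) * φ ((Multiplicative.toAdd μ : NNReal) : ℝ) : ℚ) : ℂ) * t)
      map_one' := by simp
      map_mul' := by
        intro a b
        simp only [toAdd_mul]
        rw [← Complex.exp_add]
        congr 1
        rw [NNReal.coe_add, map_add]
        push_cast
        ring }

lemma torEv_single (D : ℕ) (φ : ℝ →ₗ[ℚ] ℚ) (t : ℂ) (μ : NNReal) (a : ℂ) :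
    torEv D φ t (AddMonoidAlgebra.single μ a) =
      a * Complex.exp ((((D : ℚ) * φ (μ : ℝ) : ℚ) : ℂ) * t) := by
  simp [torEv]

lemma torEv_apply (D : ℕ) (φ : ℝ →ₗ[ℚ] ℚ) (t : ℂ) (f : RS) :
    torEv D φ t f = f.coeff.sum fun μ a =>
      a * Complex.exp ((((D : ℚ) * φ (μ : ℝ) : ℚ) : ℂ) * t) := by
  simp [torEv, AddMonoidAlgebra.lift_apply]

lemma tor_poly_ext {p q : Polynomial ℂ}
    (h : ∀ t : ℂ, p.eval (Complex.exp t) = q.eval (Complex.exp t)) : p = q := by
  apply Polynomial.eq_of_infinite_eval_eq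
  have h1 : ({0}ᶜ : Set ℂ).Infinite := (Set.finite_singleton (0 : ℂ)).infinite_compl
  refine h1.mono ?_
  intro w hw
  have hw' : w ≠ 0 := hw
  have := h (Complex.log w)
  rw [Complex.exp_log hw'] at this
  exact this

/-- TOR -/
theorem toric_of_sums (h : Setup S s e) (f : Fin (N + 1) → RS) (c : Fin (n + 1) → ℂ)
    (σ : Fin (n + 1) → NNReal) (hS : ∀ z, (fun j => ev z (f j)) ∈ cone S)
    (hs : ∀ z i, val s (fun j => ev z (f j)) i = c i * Complex.exp (Complex.I * (σ i : ℝ) * z))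
    (hne : ∃ i j, c i ≠ 0 ∧ c j ≠ 0 ∧ σ i ≠ σ j) : ToricCurve S s := by
  classical
  obtain ⟨i₀, j₀, hi₀, hj₀, hij⟩ := hne
  -- identities in the ring of exponential sums
  have hS' : ∀ F ∈ S, MvPolynomial.aeval f F = 0 := by
    intro F hF
    apply tor_ext
    intro z
    rw [tor_aeval, map_zero]
    exact hS z F hF
  have hs' : ∀ i, MvPolynomial.aeval f (s i) = AddMonoidAlgebra.single (σ i) (c i) := by
    intro i
    apply tor_ext
    intro z
    rw [tor_aeval, ev_single]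
    exact hs z i
  -- the functional
  obtain ⟨φ, hφ⟩ : ∃ φ : ℝ →ₗ[ℚ] ℚ, φ ((σ i₀ : ℝ) - (σ j₀ : ℝ)) ≠ 0 := by
    by_contra hcon
    push Not at hcon
    have h1 := (Module.forall_dual_apply_eq_zero_iff ℚ ((σ i₀ : ℝ) - (σ j₀ : ℝ))).1 hcon
    exact hij (NNReal.coe_injective (sub_eq_zero.1 h1))
  let T : Finset NNReal := (Finset.univ.biUnion fun j => (f j).coeff.support) ∪
    Finset.univ.image σ
  obtain ⟨D, hD, hDT⟩ := tor_denom φ T
  choose! ℓ hℓ using hDT
  have hTf : ∀ j, ∀ μ ∈ (f j).coeff.support, μ ∈ T := fun j μ hμ =>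
    Finset.mem_union_left _ (Finset.mem_biUnion.2 ⟨j, Finset.mem_univ j, hμ⟩)
  have hTσ : ∀ i, σ i ∈ T := fun i =>
    Finset.mem_union_right _ (Finset.mem_image.2 ⟨i, Finset.mem_univ i, rfl⟩)
  let K : ℕ := T.sup fun μ => (ℓ μ).natAbs
  have hK : ∀ μ ∈ T, 0 ≤ (K : ℤ) + ℓ μ := by
    intro μ hμ
    have h1 : (ℓ μ).natAbs ≤ K := Finset.le_sup (f := fun μ => (ℓ μ).natAbs) hμ
    omega
  let P : Fin (N + 1) → Polynomial ℂ := fun j =>
    ∑ μ ∈ (f j).coeff.support, Polynomial.C ((f j).coeff μ) * Polynomial.X ^ ((K : ℤ) + ℓ μ).toNat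
  have hP : ∀ t : ℂ, (fun j => (P j).eval (Complex.exp t)) =
      Complex.exp (K * t) • fun j => torEv D φ t (f j) := by
    intro t
    funext j
    simp only [P, Pi.smul_apply, smul_eq_mul]
    rw [Polynomial.eval_finsetSum, torEv_apply, Finsupp.sum, Finset.mul_sum]
    apply Finset.sum_congr rfl
    intro μ hμ
    simp only [Polynomial.eval_mul, Polynomial.eval_C, Polynomial.eval_pow, Polynomial.eval_X]
    rw [← Complex.exp_nat_mul, ← hℓ μ (hTf j μ hμ)]
    have h1 : ((((K : ℤ) + ℓ μ).toNat : ℕ) : ℂ) = (K : ℂ) + (ℓ μ : ℂ) := by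
      have h2 : ((((K : ℤ) + ℓ μ).toNat : ℕ) : ℤ) = (K : ℤ) + ℓ μ :=
        Int.toNat_of_nonneg (hK μ (hTf j μ hμ))
      exact_mod_cast congrArg (Int.cast : ℤ → ℂ) h2
    rw [h1, add_mul, Complex.exp_add]
    push_cast
    ring
  have hPF : ∀ F ∈ S, MvPolynomial.aeval P F = 0 := by
    intro F hF
    apply tor_poly_ext
    intro t
    obtain ⟨d, hd⟩ := h.homS F hF
    rw [← rat_eval_aeval, hP, LangFC.eval_smul_homog hd, ← tor_aeval, hS' F hF, map_zero,
      mul_zero, Polynomial.eval_zero]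
  have hPs : ∀ i, ∀ t : ℂ, (MvPolynomial.aeval P (s i)).eval (Complex.exp t) =
      c i * Complex.exp ((((K : ℤ) * e + ℓ (σ i) : ℤ) : ℂ) * t) := by
    intro i t
    rw [← rat_eval_aeval, hP, LangFC.eval_smul_homog (h.homs i), ← tor_aeval, hs' i,
      torEv_single, ← hℓ _ (hTσ i), ← Complex.exp_nat_mul]
    push_cast
    rw [add_mul, Complex.exp_add]
    ring_nf
  have hnn : ∀ i, c i ≠ 0 → 0 ≤ (K : ℤ) * e + ℓ (σ i) := by
    intro i hi
    by_contra hneg
    push Not at hneg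
    set q : ℕ := (-((K : ℤ) * e + ℓ (σ i))).toNat with hq
    have hq1 : (q : ℤ) = -((K : ℤ) * e + ℓ (σ i)) := Int.toNat_of_nonneg (by omega)
    have hq0 : q ≠ 0 := by omega
    have h1 : Polynomial.X ^ q * MvPolynomial.aeval P (s i) = Polynomial.C (c i) := by
      apply tor_poly_ext
      intro t
      rw [Polynomial.eval_mul, hPs i t, Polynomial.eval_pow, Polynomial.eval_X,
        Polynomial.eval_C, ← Complex.exp_nat_mul]
      have h2 : (q : ℂ) = -(((K : ℤ) * e + ℓ (σ i) : ℤ) : ℂ) := by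
        exact_mod_cast congrArg (Int.cast : ℤ → ℂ) hq1
      rw [h2, mul_comm, mul_assoc, ← Complex.exp_add]
      ring_nf
      simp
    have h2 := congrArg (Polynomial.eval 0) h1
    rw [Polynomial.eval_mul, Polynomial.eval_pow, Polynomial.eval_X, Polynomial.eval_C,
      zero_pow hq0, zero_mul] at h2
    exact hi h2.symm
  let a : Fin (n + 1) → ℕ := fun i => if c i = 0 then 0 else ((K : ℤ) * e + ℓ (σ i)).toNat
  have ha : ∀ i, c i ≠ 0 → (a i : ℤ) = (K : ℤ) * e + ℓ (σ i) := by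
    intro i hi
    simp only [a, if_neg hi]
    exact Int.toNat_of_nonneg (hnn i hi)
  refine ⟨P, c, a, hPF, ?_, i₀, j₀, hi₀, hj₀, ?_⟩
  · intro i
    apply tor_poly_ext
    intro t
    rw [hPs i t, Polynomial.eval_mul, Polynomial.eval_C, Polynomial.eval_pow, Polynomial.eval_X]
    by_cases hi : c i = 0
    · rw [hi, zero_mul, zero_mul]
    · rw [← Complex.exp_nat_mul]
      have h2 : (a i : ℂ) = (((K : ℤ) * e + ℓ (σ i) : ℤ) : ℂ) := by
        exact_mod_cast congrArg (Int.cast : ℤ → ℂ) (ha i hi)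
      rw [h2]
  · intro hcon
    have h1 := ha i₀ hi₀
    have h2 := ha j₀ hj₀
    rw [hcon, h2] at h1
    have h3 : ℓ (σ i₀) = ℓ (σ j₀) := by omega
    have h4 : (D : ℚ) * φ (σ i₀ : ℝ) = D * φ (σ j₀ : ℝ) := by
      rw [← hℓ _ (hTσ i₀), ← hℓ _ (hTσ j₀), h3]
    have h5 : φ (σ i₀ : ℝ) = φ (σ j₀ : ℝ) :=
      mul_left_cancel₀ (Nat.cast_ne_zero.2 hD.ne') h4
    apply hφ
    rw [map_sub, h5, sub_self]

end LangKC
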