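import Pool.Agent.Lib_helper83.KC.Base
import Pool.Agent.Lib_helper83.KCA.BRA

/-! Block TRS of the theorem on Kummer covers, by helper71. -/

/-! Block TRS of MP_45e720_ag. -/

open Complex Metric Filter Topology

namespace LangKC

open LangFC.BlockH2 (cs vec cs_of_mem ct_of_mem cs_of_notMem ct_of_notMem cs_ct mk_congr
  mk_smul vec_ne_zero vec_smul)

variable {N n : ℕ} {S : Set (MvPolynomial (Fin (N + 1)) ℂ)}
  {s : Fin (n + 1) → MvPolynomial (Fin (N + 1)) ℂ} {e : ℕ}

/-- composition of the Weierstrass function with a homogeneous map from the projective line -/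
lemma trs_holo {k : ℕ} (L : PeriodPair) (P : ℂ → ℂ → Fin (k + 1) → ℂ) (W : ℕ)
    (hP : Differentiable ℂ (fun x : ℂ × ℂ => P x.1 x.2))
    (hhom : ∀ c s t, P (c * s) (c * t) = c ^ W • P s t)
    (hne : ∀ s t, (s ≠ 0 ∨ t ≠ 0) → P s t ≠ 0) :
    LangFC.IsHolo fun z =>
      Projectivization.mk ℂ (P (cs L z) (LangFC.BlockH2.ct L z)) (hne _ _ (cs_ct L z)) := by
  intro z0
  by_cases hz0 : z0 ∈ L.lattice
  · set g : ℂ → ℂ := fun z => (z - z0) ^ 2 * L.weierstrassPExcept z0 z + 1 -
      (z - z0) ^ 2 / z0 ^ 2 with hg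
    have hg1 : ∀ z, (if z = z0 then 1 else (z - z0) ^ 2 * L.weierstrassP z) = g z :=
      fun z => L.ite_eq_one_sub_sq_mul_weierstrassP z0 hz0 z
    have hgan : AnalyticAt ℂ g z0 := by
      have h1 : AnalyticAt ℂ (L.weierstrassPExcept z0) z0 :=
        L.analyticOnNhd_weierstrassPExcept z0 z0 (by simp)
      have h2 : AnalyticAt ℂ (fun z : ℂ => (z - z0)) z0 := analyticAt_id.sub analyticAt_const
      have h3 : AnalyticAt ℂ (fun z : ℂ => (z - z0) ^ 2 / z0 ^ 2) z0 := by
        simp only [div_eq_mul_inv]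
        exact (h2.pow 2).mul analyticAt_const
      exact (((h2.pow 2).mul h1).add analyticAt_const).sub h3
    have hgz0 : g z0 = 1 := by rw [← hg1 z0, if_pos rfl]
    have hgne : ∀ᶠ z in 𝓝 z0, g z ≠ 0 := by
      apply hgan.continuousAt.eventually_ne
      rw [hgz0]; exact one_ne_zero
    refine ⟨fun z => P (g z) ((z - z0) ^ 2), ?_, ?_⟩
    · filter_upwards [hgan.eventually_analyticAt] with z hz
      have h1 : DifferentiableAt ℂ (fun z => (g z, (z - z0) ^ 2)) z := by
        have := hz.differentiableAt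
        fun_prop
      exact (hP (g z, (z - z0) ^ 2)).comp z h1
    · filter_upwards [hgne, L.compl_lattice_sdiff_singleton_mem_nhds z0] with z hz1 hz2
      have hne1 : P (g z) ((z - z0) ^ 2) ≠ 0 := hne _ _ (Or.inl hz1)
      refine ⟨hne1, ?_⟩
      by_cases hzz : z = z0
      · subst hzz
        apply mk_congr
        rw [cs_of_mem hz0, ct_of_mem hz0, hgz0, sub_self, zero_pow two_ne_zero]
      · have hzL : z ∉ L.lattice := fun h => hz2 ⟨h, hzz⟩
        have h2 : P (g z) ((z - z0) ^ 2) =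
            ((z - z0) ^ 2) ^ W • P (cs L z) (LangFC.BlockH2.ct L z) := by
          rw [← hhom, cs_of_notMem hzL, ct_of_notMem hzL, mul_one, ← hg1 z,
            if_neg hzz]
        rw [mk_congr h2 hne1 (h2 ▸ hne1)]
        rw [mk_smul]
  · have hopen : ∀ᶠ z in 𝓝 z0, z ∉ L.lattice :=
      L.isClosed_lattice.isOpen_compl.mem_nhds hz0
    refine ⟨fun z => P (L.weierstrassP z) 1, ?_, ?_⟩
    · filter_upwards [hopen] with z hz
      have h1 : DifferentiableAt ℂ L.weierstrassP z :=
        (L.analyticOnNhd_weierstrassP z hz).differentiableAt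
      have h2 : DifferentiableAt ℂ (fun z => (L.weierstrassP z, (1 : ℂ))) z := by
        fun_prop
      exact (hP (L.weierstrassP z, 1)).comp z h2
    · filter_upwards [hopen] with z hz
      refine ⟨hne _ _ (Or.inr one_ne_zero), ?_⟩
      apply mk_congr
      rw [cs_of_notMem hz, ct_of_notMem hz]

lemma trs_periodic {L : PeriodPair} {l : ℂ} (hl : l ∈ L.lattice) (z : ℂ) :
    cs L (z + l) = cs L z ∧ LangFC.BlockH2.ct L (z + l) = LangFC.BlockH2.ct L z := by
  by_cases hz : z ∈ L.lattice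
  · have hz' : z + l ∈ L.lattice := add_mem hz hl
    rw [cs_of_mem hz, cs_of_mem hz', ct_of_mem hz, ct_of_mem hz']
    exact ⟨rfl, rfl⟩
  · have hz' : z + l ∉ L.lattice := by
      intro h
      apply hz
      have := sub_mem h hl
      simpa using this
    rw [cs_of_notMem hz, cs_of_notMem hz', ct_of_notMem hz, ct_of_notMem hz']
    exact ⟨L.weierstrassP_add_coe z ⟨l, hl⟩, rfl⟩

/-- homogenization of a polynomial curve -/
lemma trs_homog {k : ℕ} (Q : Fin (k + 1) → Polynomial ℂ)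
    (hQ : ∀ t : ℂ, (fun i => (Q i).eval t) ≠ 0) :
    ∃ (A : ℂ → ℂ → Fin (k + 1) → ℂ) (W : ℕ),
      Differentiable ℂ (fun x : ℂ × ℂ => A x.1 x.2) ∧
      (∀ c s t, A (c * s) (c * t) = c ^ W • A s t) ∧
      (∀ s t, (s ≠ 0 ∨ t ≠ 0) → A s t ≠ 0) ∧
      ∀ s t, t ≠ 0 → A s t = t ^ W • fun i => (Q i).eval (s / t) := by
  classical
  have hT : (Finset.univ.filter fun i => Q i ≠ 0).Nonempty := by
    obtain ⟨i, hi⟩ := Function.ne_iff.1 (hQ 0)
    refine ⟨i, Finset.mem_filter.2 ⟨Finset.mem_univ i, ?_⟩⟩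
    intro h0
    apply hi
    simp [h0]
  obtain ⟨i₀, hi₀T, hi₀⟩ := (Finset.univ.filter fun i => Q i ≠ 0).exists_max_image
    (fun i => (Q i).natDegree) hT
  set W := (Q i₀).natDegree with hW
  have hWi : ∀ i, (Q i).natDegree ≤ W := by
    intro i
    by_cases hi : Q i = 0
    · rw [hi, Polynomial.natDegree_zero]
      exact Nat.zero_le _
    · exact hi₀ i (Finset.mem_filter.2 ⟨Finset.mem_univ i, hi⟩)
  have hlead : (Q i₀).coeff W ≠ 0 :=
    Polynomial.leadingCoeff_ne_zero.2 (Finset.mem_filter.1 hi₀T).2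
  have hform : ∀ s t, t ≠ 0 → (fun i => ∑ l ∈ Finset.range (W + 1),
      (Q i).coeff l * (s ^ l * t ^ (W - l))) = t ^ W • fun i => (Q i).eval (s / t) := by
    intro s t ht
    funext i
    simp only [Pi.smul_apply, smul_eq_mul]
    rw [Polynomial.eval_eq_sum_range' (Nat.lt_succ_of_le (hWi i)), Finset.mul_sum]
    apply Finset.sum_congr rfl
    intro l hl
    have hl' : l ≤ W := Nat.lt_succ_iff.1 (Finset.mem_range.1 hl)
    have h1 : t ^ W = t ^ (W - l) * t ^ l := by rw [← pow_add, Nat.sub_add_cancel hl']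
    rw [h1, div_pow]
    field_simp
  refine ⟨fun s t i => ∑ l ∈ Finset.range (W + 1), (Q i).coeff l * (s ^ l * t ^ (W - l)), W,
    ?_, ?_, ?_, hform⟩
  · rw [differentiable_pi]
    intro i
    fun_prop
  · intro c s t
    funext i
    simp only [Pi.smul_apply, smul_eq_mul]
    rw [Finset.mul_sum]
    apply Finset.sum_congr rfl
    intro l hl
    have hl' : l ≤ W := Nat.lt_succ_iff.1 (Finset.mem_range.1 hl)
    have h1 : c ^ W = c ^ (W - l) * c ^ l := by rw [← pow_add, Nat.sub_add_cancel hl']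
    rw [h1, mul_pow, mul_pow]
    ring
  · intro s t hst
    by_cases ht : t = 0
    · subst ht
      have hs : s ≠ 0 := by
        rcases hst with h | h
        · exact h
        · exact absurd rfl h
      intro h0
      have h1 : ∑ l ∈ Finset.range (W + 1), (Q i₀).coeff l * (s ^ l * (0 : ℂ) ^ (W - l)) = 0 :=
        congrFun h0 i₀
      rw [Finset.sum_eq_single_of_mem W (Finset.mem_range.2 (Nat.lt_succ_self W))] at h1
      · simp [hlead, hs] at h1
      · intro l hl hlW
        have hl' : l < W := lt_of_le_of_ne (Nat.lt_succ_iff.1 (Finset.mem_range.1 hl)) hlW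
        rw [zero_pow (Nat.sub_ne_zero_of_lt hl'), mul_zero, mul_zero]
    · show (fun i => ∑ l ∈ Finset.range (W + 1),
        (Q i).coeff l * (s ^ l * t ^ (W - l))) ≠ 0
      rw [hform s t ht]
      exact smul_ne_zero (pow_ne_zero _ ht) (hQ _)

/-- TRS -/
theorem torus_of_toric (h : Setup S s e) (m : ℕ) (hm : 0 < m) (ht : ToricCurve S s) :
    ¬ NoTorusMaps (kummer m S s) := by
  classical
  obtain ⟨P, c, a, hP, hs, i₀, j₀, hi₀, hj₀, hij⟩ := ht
  have hroot : ∀ i, ∃ γ : ℂ, γ ^ m = c i := fun i => IsAlgClosed.exists_pow_nat_eq (c i) hm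
  choose γ hγ using hroot
  have hγ0 : ∀ i, c i ≠ 0 → γ i ≠ 0 := by
    intro i hi h0
    apply hi
    rw [← hγ i, h0, zero_pow hm.ne']
  have hcurve := rat_curve (S := S) m hP hs hγ
  -- the first curve, without base points
  have hexp : ∀ z : ℂ, (fun k => (Polynomial.expand ℂ m (P k)).eval z) =
      fun k => (P k).eval (z ^ m) := by
    intro z; funext k
    rw [Polynomial.expand_eval]
  have hne1 : (fun k => (Polynomial.expand ℂ m (P k)).eval (1 : ℂ)) ≠ 0 := by
    rw [hexp]
    apply h.ne_zero_of_val (i := i₀)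
    rw [val, rat_eval_aeval, hs i₀]
    simp [hi₀]
  obtain ⟨g, Q, hg, hQ, hPQ⟩ := bra_div (fun k => Polynomial.expand ℂ m (P k)) 1 hne1
  obtain ⟨A, W, hA1, hA2, hA3, hA4⟩ := trs_homog Q hQ
  -- the support and the extreme weights
  let T : Finset (Fin (n + 1)) := Finset.univ.filter fun i => γ i ≠ 0
  have hT : ∀ i, i ∈ T ↔ γ i ≠ 0 := by intro i; simp [T]
  have hTne : T.Nonempty := ⟨i₀, (hT _).2 (hγ0 i₀ hi₀)⟩
  obtain ⟨p, hpT, hp⟩ := T.exists_min_image a hTne
  obtain ⟨q, hqT, hq⟩ := T.exists_max_image a hTne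
  have hpq : a p < a q := by
    have h1 := hp i₀ ((hT _).2 (hγ0 i₀ hi₀))
    have h2 := hp j₀ ((hT _).2 (hγ0 j₀ hj₀))
    have h3 := hq i₀ ((hT _).2 (hγ0 i₀ hi₀))
    have h4 := hq j₀ ((hT _).2 (hγ0 j₀ hj₀))
    omega
  let B := a q - a p
  let b : Fin (n + 1) → ℕ := fun i => if i ∈ T then a i - a p else 0
  have hbT : ∀ i, i ∈ T → b i = a i - a p := fun i hi => by simp [b, hi]
  have hbB : ∀ i, b i ≤ B := by
    intro i
    by_cases hi : i ∈ T
    · rw [hbT i hi]
      have := hq i hi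
      simp only [B]; omega
    · simp [b, hi]
  have hb0 : ∃ i, γ i ≠ 0 ∧ b i = 0 := ⟨p, (hT p).1 hpT, by rw [hbT p hpT]; simp⟩
  have hb1 : ∃ i, γ i ≠ 0 ∧ b i = B := ⟨q, (hT q).1 hqT, by rw [hbT q hqT]⟩
  -- the points lie in the cover
  have hmem1 : ∀ z : ℂ, RatMem m S s (fun i => (Q i).eval z) (fun i => γ i * z ^ a i) := by
    have hdense : Dense {z : ℂ | g.eval z ≠ 0} := by
      have : {z : ℂ | g.eval z ≠ 0} = ((g.rootSet ℂ)ᶜ : Set ℂ) := by
        ext x
        simp [Polynomial.mem_rootSet, hg]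
      rw [this]
      exact (Set.Finite.countable (g.rootSet_finite ℂ)).dense_compl ℝ
    apply ratmem_of_dense hdense
    · exact continuous_pi fun i => (Q i).continuous
    · fun_prop
    · intro z hz
      have hz' : g.eval z ≠ 0 := hz
      have h2 := (hcurve z).smul h (g.eval z)⁻¹ 1
      rw [← hexp z, hPQ z, smul_smul, inv_mul_cancel₀ hz', one_smul, one_smul] at h2
      exact h2
  have hmem : ∀ x : ℂ × ℂ, RatMem m S s (A x.1 x.2) (vec γ b B x.1 x.2) := by
    have hD : Dense (({0}ᶜ : Set ℂ) ×ˢ ({0}ᶜ : Set ℂ)) :=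
      (dense_compl_singleton (0 : ℂ)).prod (dense_compl_singleton (0 : ℂ))
    apply ratmem_of_dense hD hA1.continuous (by unfold vec; fun_prop)
    rintro ⟨σ, t⟩ ⟨hσ, ht⟩
    have hσ' : σ ≠ 0 := hσ
    have ht' : t ≠ 0 := ht
    have h1 := (hmem1 (σ / t)).smul h (t ^ W) (t ^ B * (σ / t)⁻¹ ^ a p)
    have h2 : vec γ b B σ t = (t ^ B * (σ / t)⁻¹ ^ a p) • fun i => γ i * (σ / t) ^ a i := by
      funext i
      simp only [vec, Pi.smul_apply, smul_eq_mul]
      by_cases hi : i ∈ T
      · have h3 : a i = b i + a p := by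
          rw [hbT i hi]
          have := hp i hi
          omega
        have h4 : B = (B - b i) + b i := by
          have := hbB i
          omega
        set r : ℂ := σ / t with hr
        have hs2 : σ = r * t := by rw [hr]; field_simp
        have hr0 : r ≠ 0 := by rw [hr]; exact div_ne_zero hσ' ht'
        have h5 : r⁻¹ ^ a p * r ^ a p = 1 := by rw [← mul_pow, inv_mul_cancel₀ hr0, one_pow]
        have h6 : t ^ B = t ^ (B - b i) * t ^ b i := by rw [← pow_add, ← h4]
        rw [h3, hs2, h6, pow_add, mul_pow]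
        linear_combination (-(t ^ (B - b i) * t ^ b i * r ^ b i * γ i)) * h5
      · have : γ i = 0 := by
          by_contra h5
          exact hi ((hT i).2 h5)
        simp [this]
    simp only
    rw [hA4 σ t ht', h2]
    exact h1
  intro hno
  let L : PeriodPair := ⟨1, Complex.I, by
    have : ![(1 : ℂ), Complex.I] = Complex.basisOneI := by
      funext i; fin_cases i <;> simp
    rw [this]
    exact Complex.basisOneI.linearIndependent⟩
  have hv3 : ∀ s t : ℂ, (s ≠ 0 ∨ t ≠ 0) → vec γ b B s t ≠ 0 :=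
    fun s t hst => vec_ne_zero hb0 hb1 hst
  have hv1 : Differentiable ℂ (fun x : ℂ × ℂ => vec γ b B x.1 x.2) := by
    rw [differentiable_pi]
    intro i
    simp only [vec]
    fun_prop
  have hφ := trs_holo L A W hA1 hA2 hA3
  have hψ := trs_holo L (vec γ b B) B hv1 (vec_smul hbB) hv3
  have hcon := hno ℂ L.lattice _ _ hφ hψ
    (fun z => (rat_mem_mk h (hA3 _ _ (cs_ct L z)) (hv3 _ _ (cs_ct L z))).2
      (hmem (cs L z, LangFC.BlockH2.ct L z)))
    (fun l hl z => by
      obtain ⟨h1, h2⟩ := trs_periodic hl z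
      apply Prod.ext
      · apply mk_congr
        rw [h1, h2]
      · apply mk_congr
        rw [h1, h2]) (L.ω₁ / 2) 0
  have hcon2 := congrArg Prod.snd hcon
  simp only at hcon2
  rw [Projectivization.mk_eq_mk_iff'] at hcon2
  obtain ⟨r, hr⟩ := hcon2
  have hz0 : (0 : ℂ) ∈ L.lattice := zero_mem _
  have hz1 := L.ω₁_div_two_notMem_lattice
  obtain ⟨i, hγi, hbi⟩ := hb0
  have h1 := congrFun hr i
  rw [cs_of_mem hz0, ct_of_mem hz0, cs_of_notMem hz1, ct_of_notMem hz1] at h1
  have hB : B ≠ 0 := by simp only [B]; omega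
  simp only [vec, hbi, Pi.smul_apply, smul_eq_mul, pow_zero, one_pow, one_mul,
    Nat.sub_zero, zero_pow hB, zero_mul, mul_zero] at h1
  exact hγi h1.symm

end LangKC
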