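import Pool.Agent.Lib_helper83.KCA.CBD
import Pool.Agent.Lib_helper83.KCA.INT
import Pool.Agent.Lib_helper83.KCA.RIT
import Pool.Agent.Lib_helper83.KCA.TOR
import Pool.Agent.Lib_helper83.KCA.LIM
import Pool.Agent.Lib_helper83.KCA.GRO
import Pool.Agent.Lib_helper83.KCA.QUA
import Pool.Agent.Lib_helper83.KCA.RED
import Pool.Agent.Lib_helper83.KCA.ORB
import Pool.Agent.Lib_helper83.KCA.TRS
import Pool.Agent.Lib_helper83.KCA.RAT
import Pool.Agent.Lib_helper83.KCA.BRA
import Pool.Agent.Lib_helper83.KC.Strata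

/-! Assembly of the theorem on Kummer covers. -/

open Complex Metric Filter Topology

namespace LangKC

variable {N n : ℕ} {S : Set (MvPolynomial (Fin (N + 1)) ℂ)}
  {s : Fin (n + 1) → MvPolynomial (Fin (N + 1)) ℂ} {e : ℕ}

/-- exponential sums from a curve over exponentials with real frequencies -/
theorem toric_of_real (h : Setup S s e) (y : ℂ → Fin (N + 1) → ℂ)
    (hy : ∀ j, Differentiable ℂ (fun z => y z j)) (hS : ∀ z, y z ∈ cone S)
    (c : Fin (n + 1) → ℂ) (σ : Fin (n + 1) → NNReal)
    (hv : ∀ z i, val s (y z) i = c i * Complex.exp (Complex.I * (σ i : ℝ) * z))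
    (hne : ∃ i j, c i ≠ 0 ∧ c j ≠ 0 ∧ σ i ≠ σ j) : ToricCurve S s := by
  classical
  obtain ⟨C, hC, hbd⟩ := cone_bound h
  set T : ℝ := ∑ i, (σ i : ℝ) with hT
  have hT0 : 0 ≤ T := Finset.sum_nonneg fun i _ => (σ i).2
  have hgrow : ∀ j, ∀ z : ℂ, ‖y z j‖ ≤ (1 + 2 * C * ∑ i, ‖c i‖) * (1 + Real.exp (-T * z.im)) := by
    intro j z
    have h1 := hbd (y z) (hS z) j
    have h2 : ∑ i, ‖val s (y z) i‖ ≤ (∑ i, ‖c i‖) * (1 + Real.exp (-T * z.im)) := by
      rw [Finset.sum_mul]
      apply Finset.sum_le_sum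
      intro i _
      rw [hv z i, norm_mul]
      apply mul_le_mul_of_nonneg_left _ (norm_nonneg _)
      rw [Complex.norm_exp]
      have h3 : (Complex.I * ((σ i : ℝ) : ℂ) * z).re = -(σ i : ℝ) * z.im := by simp
      rw [h3]
      rcases le_total 0 z.im with h4 | h4
      · have h5 : Real.exp (-(σ i : ℝ) * z.im) ≤ 1 := by
          rw [Real.exp_le_one_iff]
          have := (σ i).2
          nlinarith [mul_nonneg this h4]
        have := Real.exp_pos (-T * z.im)
        linarith
      · have h5 : Real.exp (-(σ i : ℝ) * z.im) ≤ Real.exp (-T * z.im) := by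
          apply Real.exp_le_exp.2
          have h6 : (σ i : ℝ) ≤ T := Finset.single_le_sum (f := fun i => (σ i : ℝ))
            (fun i _ => (σ i).2) (Finset.mem_univ i)
          nlinarith
        linarith
    have hpos : 0 < Real.exp (-T * z.im) := Real.exp_pos _
    have hsum : 0 ≤ ∑ i, ‖c i‖ := Finset.sum_nonneg fun _ _ => norm_nonneg _
    have h7 : ‖y z j‖ ≤ 1 + ‖y z j‖ ^ e := by
      rcases le_total ‖y z j‖ 1 with h8 | h8
      · have : 0 ≤ ‖y z j‖ ^ e := by positivity
        linarith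
      · have : ‖y z j‖ ^ 1 ≤ ‖y z j‖ ^ e := pow_le_pow_right₀ h8 h.epos
        rw [pow_one] at this
        linarith
    have h9 : C * ∑ i, ‖val s (y z) i‖ ≤ C * ((∑ i, ‖c i‖) * (1 + Real.exp (-T * z.im))) :=
      mul_le_mul_of_nonneg_left h2 hC.le
    have h10 : 0 ≤ C * (∑ i, ‖c i‖) * (1 + Real.exp (-T * z.im)) := by positivity
    nlinarith
  have hex : ∀ j, ∃ f : RS, ∀ z, y z j = ev z f := by
    intro j
    obtain ⟨P, hP, hrel⟩ := integrality h j
    let g : MvPolynomial (Fin (n + 1)) ℂ →ₐ[ℂ] RS :=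
      MvPolynomial.aeval fun i => AddMonoidAlgebra.single (σ i) (c i)
    refine ritt (P.map g.toRingHom) (hP.map _) (fun z => y z j) (hy j) ?_ _ T hT0 (hgrow j)
    intro z
    have h1 := hrel (y z) (hS z)
    rw [Polynomial.map_map]
    have h2 : ((ev z).toRingHom.comp g.toRingHom) = MvPolynomial.eval (val s (y z)) := by
      apply MvPolynomial.ringHom_ext
      · intro a
        have h3 : g (MvPolynomial.C a) = algebraMap ℂ RS a := by
          simp only [g]
          exact MvPolynomial.aeval_C _ a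
        simp only [AlgHom.toRingHom_eq_coe, RingHom.coe_comp, RingHom.coe_coe,
          Function.comp_apply, MvPolynomial.eval_C]
        rw [h3, AlgHom.commutes]
        rfl
      · intro i
        simp only [AlgHom.toRingHom_eq_coe, RingHom.coe_comp, RingHom.coe_coe,
          Function.comp_apply, MvPolynomial.eval_X, g, MvPolynomial.aeval_X, ev_single, hv z i]
    rw [h2]
    exact h1
  choose f hf using hex
  have hfun : ∀ z, (fun j => ev z (f j)) = y z := fun z => funext fun j => (hf j z).symm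
  refine toric_of_sums h f c σ ?_ ?_ hne
  · intro z
    rw [hfun]
    exact hS z
  · intro z i
    rw [hfun]
    exact hv z i

/-- the analytic core -/
theorem toric_of_not_hyperbolic (h : Setup S s e)
    (hm : ∀ m₀ : ℕ, ∃ m ≥ m₀, ¬ OrbifoldHyperbolic m S s) : ToricCurve S s := by
  classical
  obtain ⟨i₀, y, hy, hS, hz, hE, hE0⟩ := limit_curve h hm
  set X : ℂ → Fin (n + 1) → ℂ := fun z => val s (y z) with hX
  have hXd : ∀ i, Differentiable ℂ (fun z => X z i) := by
    intro i
    exact (differentiable_val s i).comp (differentiable_pi.2 hy)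
  let I : Finset (Fin (n + 1)) := Finset.univ.filter fun i => ∀ z, X z i ≠ 0
  have hI : ∀ i, i ∈ I ↔ ∀ z, X z i ≠ 0 := by intro i; simp [I]
  have hi₀ : i₀ ∈ I := by
    rw [hI]; intro z; rw [hX]; simp only; rw [(hS z).2]; exact one_ne_zero
  have hIc : ∀ i, i ∉ I → ∀ z, X z i = 0 := by
    intro i hi
    rcases hz i with h1 | h1
    · exact h1
    · exact absurd ((hI i).2 h1) hi
  have hex : ∀ i, ∃ a b c : ℂ, i ∈ I → ∀ z, X z i = Complex.exp (a * z ^ 2 + b * z + c) := by
    intro i
    by_cases hi : i ∈ I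
    · obtain ⟨a, b, c, habc⟩ := grow X i₀ 4 (fun z => (hS z).2) hXd hE i ((hI i).1 hi)
      exact ⟨a, b, c, fun _ => habc⟩
    · exact ⟨0, 0, 0, fun h => absurd h hi⟩
  choose a b c habc using hex
  have hXeq : X = fun w i => if i ∈ I then Complex.exp (a i * w ^ 2 + b i * w + c i) else 0 := by
    funext w i
    by_cases hi : i ∈ I
    · rw [if_pos hi]; exact habc i hi w
    · rw [if_neg hi]; exact hIc i hi w
  have hquad := quad I a b c 4 (fun z => by rw [← hXeq]; exact hE z)
  -- normal form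
  let C : Fin (n + 1) → ℂ := fun i => if i ∈ I then Complex.exp (c i - c i₀) else 0
  let B : Fin (n + 1) → ℂ := fun i => if i ∈ I then b i - b i₀ else 0
  have hCI : ∀ i ∈ I, C i = Complex.exp (c i - c i₀) := fun i hi => by simp [C, hi]
  have hBI : ∀ i ∈ I, B i = b i - b i₀ := fun i hi => by simp [B, hi]
  have hv : ∀ z i, val s (y z) i = C i * Complex.exp (B i * z) := by
    intro z i
    by_cases hi : i ∈ I
    · have h1 : X z i = Complex.exp (a i * z ^ 2 + b i * z + c i) := habc i hi z
      have h2 : X z i₀ = Complex.exp (a i₀ * z ^ 2 + b i₀ * z + c i₀) := habc i₀ hi₀ z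
      have h3 : X z i₀ = 1 := (hS z).2
      rw [h3] at h2
      have h4 : val s (y z) i = X z i := rfl
      rw [h4, h1, hCI i hi, hBI i hi, hquad i hi i₀ hi₀]
      have h5 : Complex.exp (a i₀ * z ^ 2 + b i * z + c i) =
          (Complex.exp (c i - c i₀) * Complex.exp ((b i - b i₀) * z)) *
            Complex.exp (a i₀ * z ^ 2 + b i₀ * z + c i₀) := by
        rw [← Complex.exp_add, ← Complex.exp_add]
        congr 1
        ring
      rw [h5, ← h2, mul_one]
    · have h4 : val s (y z) i = X z i := rfl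
      rw [h4, hIc i hi z]
      simp [C, hi]
  have hne : ∃ i j, C i ≠ 0 ∧ C j ≠ 0 ∧ B i ≠ B j := by
    by_contra hcon
    push Not at hcon
    have hB0 : ∀ i ∈ I, B i = 0 := by
      intro i hi
      have h1 := hcon i i₀ (by rw [hCI i hi]; exact Complex.exp_ne_zero _)
        (by rw [hCI i₀ hi₀]; exact Complex.exp_ne_zero _)
      rw [h1, hBI i₀ hi₀, sub_self]
    have hconst : ∀ z i, X z i = C i := by
      intro z i
      have h4 : X z i = val s (y z) i := rfl
      rw [h4, hv z i]
      by_cases hi : i ∈ I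
      · rw [hB0 i hi, zero_mul, Complex.exp_zero, mul_one]
      · simp [C, hi]
    have hd : ∀ i, deriv (fun w => X w i) 0 = 0 := by
      intro i
      have : (fun w => X w i) = fun _ => C i := funext fun w => hconst w i
      rw [this]
      simp
    have h0 : E2 X 0 = 0 := by
      unfold E2
      simp [hd]
    rw [h0] at hE0
    exact zero_ne_one hE0
  obtain ⟨y', c', σ, h1, h2, h3, h4⟩ := reduce_to_real h y hy (fun z => (hS z).1) C B hv hne
  exact toric_of_real h y' h1 h2 c' σ h3 h4

theorem brody_torus {Z : Set (PS N × PS n)} (h : BrodyHyperbolic Z) : NoTorusMaps Z := by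
  intro V _ _ _ Λ _ _ φ ψ hφ hψ hX _ z z'
  have := h _ _ (hφ.comp_affine z (z' - z)) (hψ.comp_affine z (z' - z)) (fun t => hX _) 0 1
  simpa using this

/-- monotonicity -/
lemma OrbifoldHyperbolic.mono {m m' : ℕ} (hmm : m ≤ m') (h : OrbifoldHyperbolic m S s) :
    OrbifoldHyperbolic m' S s := by
  intro φ h1 h2 h3
  refine h φ h1 h2 fun i a g hg1 hg2 hg3 k hk => ?_
  exact h3 i a g hg1 hg2 hg3 k (lt_of_lt_of_le hk hmm)

theorem main_thm (h : Setup S s e) :
    (∀ m, 0 < m → NoTorusMaps (kummer m S s) → ¬ ToricCurve S s) ∧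
    (∀ m, 0 < m → NoRationalCurves (kummer m S s) → ¬ ToricCurve S s) ∧
    ∃ m₀, ∀ m, m₀ ≤ m → List.TFAE [OrbifoldHyperbolic m S s, BrodyHyperbolic (kummer m S s),
      NoTorusMaps (kummer m S s), NoRationalCurves (kummer m S s), StrataHyperbolic S s,
      ¬ ToricCurve S s] := by
  refine ⟨fun m hm h1 h2 => torus_of_toric h m hm h2 h1,
    fun m hm h1 h2 => rational_of_toric h m hm h2 h1, ?_⟩
  by_cases ht : ToricCurve S s
  · refine ⟨1, fun m hm => ?_⟩
    have hm0 : 0 < m := hm
    have f3 : ¬ NoTorusMaps (kummer m S s) := torus_of_toric h m hm0 ht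
    have f4 : ¬ NoRationalCurves (kummer m S s) := rational_of_toric h m hm0 ht
    have f2 : ¬ BrodyHyperbolic (kummer m S s) := fun hb => f3 (brody_torus hb)
    have f1 : ¬ OrbifoldHyperbolic m S s := fun ho => f2 (orb_brody h m hm0 ho)
    have f5 : ¬ StrataHyperbolic S s := fun hs => strata_toric h hs ht
    tfae_have 1 → 2 := fun x => absurd x f1
    tfae_have 2 → 3 := fun x => absurd x f2
    tfae_have 3 → 4 := fun x => absurd x f3
    tfae_have 4 → 5 := fun x => absurd x f4
    tfae_have 5 → 6 := fun x => absurd x f5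
    tfae_have 6 → 1 := fun x => absurd ht x
    tfae_finish
  · have hex : ∃ m₁ : ℕ, ∀ m ≥ m₁, OrbifoldHyperbolic m S s := by
      by_contra hcon
      push Not at hcon
      exact ht (toric_of_not_hyperbolic h hcon)
    obtain ⟨m₁, hm₁⟩ := hex
    refine ⟨m₁ + 1, fun m hm => ?_⟩
    have hm0 : 0 < m := by omega
    have f1 : OrbifoldHyperbolic m S s := hm₁ m (by omega)
    have f2 := orb_brody h m hm0 f1
    have f3 := brody_torus f2
    have f4 := brody_rational h m f2
    have f5 := orb_strata h f1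
    tfae_have 1 → 2 := fun _ => f2
    tfae_have 2 → 3 := fun _ => f3
    tfae_have 3 → 4 := fun _ => f4
    tfae_have 4 → 5 := fun _ => f5
    tfae_have 5 → 6 := fun _ => ht
    tfae_have 6 → 1 := fun _ => f1
    tfae_finish

end LangKC
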